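import Pool.Agent.H2.LTM.HFC

/-!
# APA: approximation of the vector potential

For `k : ℕ` and `i` the function `A_i 1_{|x_j| ≤ k}` is in `L²`; choose a continuous function
`g_{k,i}` with `‖g_{k,i} - A_i 1_{|x_j| ≤ k}‖_2 ≤ 1/(k+1)`
(`MemLp.exists_hasCompactSupport_eLpNorm_sub_le` or
`MemLp.exists_hasCompactSupport_integral_rpow_sub_le`), `Ak k x i = g_{k,i} x`.
For `u ∈ TF d` with support in `{|x_j| ≤ R}`, `‖u‖ ≤ U`, and `k ≥ R`:
`cov (Ak k) u i - cov A u i = I (g_{k,i} - A_i) u`, whose `L²` norm is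
`≤ U ‖g_{k,i} - A_i 1_{|x_j| ≤ k}‖_2 ≤ U/(k+1) → 0`.  So `cov (Ak k) u i → cov A u i` in `L²` and the
integrals of the squared norms converge
(`|∫‖f+h‖² - ∫‖f‖²| ≤ 2 (∫‖f‖²)^{1/2} (∫‖h‖²)^{1/2} + ∫‖h‖²`, or continuity of the `L²` norm).
-/

open MeasureTheory Complex Set Filter Topology
open scoped ENNReal NNReal ContDiff ComplexConjugate

noncomputable section

namespace Pool.Agent.H2.LTM

variable {d : ℕ}

private theorem APA_memLp {A : Sp d → Sp d} (hA : Measurable A) {i : Fin d}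
    (hA2 : LocallyIntegrable (fun x => A x i ^ 2)) (u : TF d) :
    MemLp (cov A (u : Sp d → ℂ) i) 2 := by
  have h1 : MemLp (fun x => fderiv ℝ (u : Sp d → ℂ) x (Pi.single i 1)) 2 := by
    refine Continuous.memLp_of_hasCompactSupport ?_ ?_
    · exact (u.2.1.continuous_fderiv (by simp)).clm_apply continuous_const
    · exact u.2.2.fderiv_apply ℝ (Pi.single i 1)
  have hm : AEStronglyMeasurable (fun x => I * (A x i : ℂ) * (u : Sp d → ℂ) x) volume := by
    have e1 : Measurable (fun x => (A x i : ℂ)) :=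
      Complex.measurable_ofReal.comp ((measurable_pi_apply i).comp hA)
    exact ((measurable_const.mul e1).aestronglyMeasurable).mul
      u.2.1.continuous.aestronglyMeasurable
  have h2 : MemLp (fun x => I * (A x i : ℂ) * (u : Sp d → ℂ) x) 2 := by
    rw [memLp_two_iff_integrable_sq_norm hm]
    have h3 : HasCompactSupport (fun x => ‖(u : Sp d → ℂ) x‖ ^ 2) := by
      refine u.2.2.comp_left (g := fun z : ℂ => ‖z‖ ^ 2) (by simp)
    have h4 := hA2.integrable_smul_right_of_hasCompactSupport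
      (g := fun x => ‖(u : Sp d → ℂ) x‖ ^ 2) (u.2.1.continuous.norm.pow 2) h3
    refine h4.congr (Filter.Eventually.of_forall fun x => ?_)
    simp only [smul_eq_mul, norm_mul, Complex.norm_I, one_mul, Complex.norm_real, mul_pow,
      Real.norm_eq_abs, sq_abs]
  exact h1.add h2

private theorem APA_int {f : Sp d → ℂ} (hf : MemLp f 2) :
    ∫ x, ‖f x‖ ^ 2 = (eLpNorm f 2 volume).toReal ^ 2 := by
  have h0 : 0 ≤ ∫ x, ‖f x‖ ^ (2 : ℝ) := integral_nonneg fun x => by positivity
  rw [hf.eLpNorm_eq_integral_rpow_norm two_ne_zero ENNReal.ofNat_ne_top,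
    ENNReal.toReal_ofReal (by positivity)]
  simp only [ENNReal.toReal_ofNat]
  rw [← Real.rpow_natCast, ← Real.rpow_mul h0]
  norm_num

private theorem APA_lim {F : ℕ → Sp d → ℂ} {F0 : Sp d → ℂ} (hF : ∀ k, MemLp (F k) 2)
    (hF0 : MemLp F0 2)
    (h : Tendsto (fun k => (eLpNorm (F k - F0) 2 volume).toReal) atTop (𝓝 0)) :
    Tendsto (fun k => ∫ x, ‖F k x‖ ^ 2) atTop (𝓝 (∫ x, ‖F0 x‖ ^ 2)) := by
  have h1 : Tendsto (fun k => (hF k).toLp (F k)) atTop (𝓝 (hF0.toLp F0)) := by
    rw [tendsto_iff_norm_sub_tendsto_zero]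
    refine h.congr fun k => ?_
    rw [← MemLp.toLp_sub, Lp.norm_toLp]
  have h2 := (h1.norm).pow 2
  rw [APA_int hF0]
  rw [Lp.norm_toLp] at h2
  refine h2.congr fun k => ?_
  rw [Lp.norm_toLp, APA_int (hF k)]

theorem exists_approx_A {A : Sp d → Sp d} (hA : Measurable A)
    (hA2 : ∀ i, LocallyIntegrable (fun x => A x i ^ 2)) :
    ∃ Ak : ℕ → Sp d → Sp d, (∀ k, Continuous (Ak k)) ∧
      ∀ u ∈ TF d, Tendsto (fun k => kin (Ak k) u) atTop (𝓝 (kin A u)) := by
  have hf : ∀ (k : ℕ) (i : Fin d),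
      MemLp ((Metric.closedBall (0 : Sp d) k).indicator fun x => A x i) 2 := by
    intro k i
    have hm : Measurable fun x => A x i := (measurable_pi_apply i).comp hA
    rw [memLp_indicator_iff_restrict Metric.isClosed_closedBall.measurableSet,
      memLp_two_iff_integrable_sq hm.aestronglyMeasurable]
    exact (hA2 i).integrableOn_isCompact (isCompact_closedBall _ _)
  have hε : ∀ k : ℕ, ((k : ℝ≥0∞) + 1)⁻¹ ≠ 0 := by
    intro k
    rw [ENNReal.inv_ne_zero]
    exact ENNReal.add_ne_top.2 ⟨ENNReal.natCast_ne_top k, ENNReal.one_ne_top⟩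
  choose g hgc hgn hgcont hgL using fun (k : ℕ) (i : Fin d) =>
    (hf k i).exists_hasCompactSupport_eLpNorm_sub_le ENNReal.ofNat_ne_top (hε k)
  obtain ⟨Ak, hAk⟩ : ∃ Ak : ℕ → Sp d → Sp d, ∀ k x i, Ak k x i = g k i x :=
    ⟨fun k x i => g k i x, fun _ _ _ => rfl⟩
  have hAkc : ∀ k, Continuous (Ak k) := by
    intro k
    rw [continuous_pi_iff]
    intro i
    have : (fun x => Ak k x i) = g k i := funext fun x => hAk k x i
    rw [this]
    exact hgcont k i
  refine ⟨Ak, hAkc, ?_⟩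
  intro u hu
  unfold kin
  refine tendsto_finsetSum _ fun i _ => ?_
  refine APA_lim (fun k => APA_memLp (hAkc k).measurable ?_ ⟨u, hu⟩)
    (APA_memLp hA (hA2 i) ⟨u, hu⟩) ?_
  · have h1 : Continuous fun x => Ak k x i ^ 2 := ((continuous_apply i).comp (hAkc k)).pow 2
    exact h1.locallyIntegrable
  · -- bounds for `u`
    obtain ⟨U, hU⟩ : ∃ U, ∀ x, ‖u x‖ ≤ U :=
      hu.1.continuous.bounded_above_of_compact_support hu.2
    obtain ⟨R, hR⟩ := hu.2.isCompact.isBounded.subset_closedBall (0 : Sp d)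
    have hU0 : 0 ≤ U := (norm_nonneg _).trans (hU 0)
    have key : ∀ᶠ k : ℕ in atTop, (eLpNorm (cov (Ak k) u i - cov A u i) 2 volume).toReal ≤
        U * ((k : ℝ) + 1)⁻¹ := by
      filter_upwards [Filter.eventually_ge_atTop ⌈R⌉₊] with k hk
      have hRk : R ≤ k := (Nat.le_ceil R).trans (by exact_mod_cast hk)
      have h1 : eLpNorm (cov (Ak k) u i - cov A u i) 2 volume ≤ ENNReal.ofReal U *
          eLpNorm ((Metric.closedBall (0 : Sp d) k).indicator (fun x => A x i) - g k i) 2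
            volume := by
        apply eLpNorm_le_mul_eLpNorm_of_ae_le_mul
        refine Filter.Eventually.of_forall fun x => ?_
        rw [Pi.sub_apply, Pi.sub_apply]
        unfold cov
        rw [hAk, add_sub_add_left_eq_sub, ← sub_mul, ← mul_sub, norm_mul, norm_mul,
          Complex.norm_I, one_mul, ← Complex.ofReal_sub, Complex.norm_real]
        by_cases hx : u x = 0
        · rw [hx, norm_zero, mul_zero]
          positivity
        · have hx' : x ∈ Metric.closedBall (0 : Sp d) k :=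
            Metric.closedBall_subset_closedBall hRk (hR (subset_tsupport _ hx))
          rw [Set.indicator_of_mem hx', norm_sub_rev, mul_comm]
          exact mul_le_mul_of_nonneg_right (hU x) (norm_nonneg _)
      have h2 : eLpNorm (cov (Ak k) u i - cov A u i) 2 volume ≤
          ENNReal.ofReal U * ((k : ℝ≥0∞) + 1)⁻¹ := h1.trans (mul_le_mul_right (hgn k i) _)
      have h3 : ENNReal.ofReal U * ((k : ℝ≥0∞) + 1)⁻¹ ≠ ⊤ :=
        ENNReal.mul_ne_top ENNReal.ofReal_ne_top (by simp)
      have h4 := ENNReal.toReal_mono h3 h2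
      rw [ENNReal.toReal_mul, ENNReal.toReal_ofReal hU0, ENNReal.toReal_inv,
        ENNReal.toReal_add (ENNReal.natCast_ne_top k) ENNReal.one_ne_top,
        ENNReal.toReal_natCast, ENNReal.toReal_one] at h4
      exact h4
    have hlim : Tendsto (fun k : ℕ => U * ((k : ℝ) + 1)⁻¹) atTop (𝓝 0) := by
      have h1 : Tendsto (fun k : ℕ => ((k : ℝ) + 1)⁻¹) atTop (𝓝 0) :=
        tendsto_inv_atTop_zero.comp
          (Filter.tendsto_atTop_add_const_right _ _ tendsto_natCast_atTop_atTop)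
      have h2 := h1.const_mul U
      rwa [mul_zero] at h2
    exact squeeze_zero' (Filter.Eventually.of_forall fun k => ENNReal.toReal_nonneg) key hlim

end Pool.Agent.H2.LTM
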