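import Pool.Agent.H2.LTM.HFC

/-!
# APV: approximation of the potential

`g x = ∏_j exp (-(x_j)²)` (or `exp (-Σ x_j²)`), `0 < g ≤ 1`, `∫ g^p < ∞` (`g^p = ∏ exp (-p x_j²)`,
`Integrable.fintype_prod`, `integrable_exp_neg_mul_sq`).  `Vk k x = min (V x) k + g x/(k+1)`:
`0 < Vk k x ≤ k + 1`, `Vk k x → V x` pointwise, `Vk k x ≤ V x + g x`,
`(V+g)^p ≤ 2^(p-1) (V^p + g^p)` (`Real.rpow_add_le_mul_rpow_add_rpow`-type; `p ≥ 1`) is integrable.
Dominated convergence (`tendsto_lintegral_of_dominated_convergence`) for `∫⁻ ofReal (Vk^p)`, and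
`tendsto_integral_of_dominated_convergence` for `pot (Vk k) u` with bound `(V + g) ‖u‖²`
(integrable: `V` is locally integrable by `locInt`, `‖u‖²` continuous with compact support).
-/

open MeasureTheory Complex Set Filter Topology
open scoped ENNReal NNReal ContDiff ComplexConjugate

noncomputable section

namespace Pool.Agent.H2.LTM

variable {d : ℕ}

def APV_g (x : Sp d) : ℝ := ∏ j, Real.exp (-1 * x j ^ 2)

theorem APV_g_pos (x : Sp d) : 0 < APV_g x := Finset.prod_pos fun _ _ => Real.exp_pos _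

theorem APV_g_le (x : Sp d) : APV_g x ≤ 1 := by
  refine Finset.prod_le_one (fun j _ => (Real.exp_pos _).le) fun j _ => ?_
  rw [Real.exp_le_one_iff]
  nlinarith [sq_nonneg (x j)]

theorem APV_g_int : Integrable (APV_g (d := d)) := by
  unfold APV_g
  exact Integrable.fintype_prod (f := fun _ : Fin d => fun t : ℝ => Real.exp (-1 * t ^ 2))
    fun _ => integrable_exp_neg_mul_sq one_pos

theorem APV_g_meas : Measurable (APV_g (d := d)) := by
  unfold APV_g
  fun_prop

theorem APV_rpow {a b p : ℝ} (ha : 0 ≤ a) (hb : 0 ≤ b) (hb1 : b ≤ 1) (hp : 1 ≤ p) :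
    (a + b) ^ p ≤ 2 ^ p * (a ^ p + b) := by
  have hp0 : 0 ≤ p := by linarith
  have h1 : b ^ p ≤ b := by
    rcases hb.eq_or_lt with h | h
    · rw [← h, Real.zero_rpow (by linarith)]
    · have := Real.rpow_le_rpow_of_exponent_ge h hb1 hp
      rwa [Real.rpow_one] at this
  have ha' : 0 ≤ a ^ p := Real.rpow_nonneg ha p
  have hb' : 0 ≤ b ^ p := Real.rpow_nonneg hb p
  have h2 : (0 : ℝ) ≤ 2 ^ p := Real.rpow_nonneg (by norm_num) p
  have h3 : (a + b) ^ p ≤ 2 ^ p * (a ^ p + b ^ p) := by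
    rcases le_total a b with h | h
    · calc (a + b) ^ p ≤ (2 * b) ^ p := Real.rpow_le_rpow (by linarith) (by linarith) hp0
        _ = 2 ^ p * b ^ p := Real.mul_rpow (by norm_num) hb
        _ ≤ _ := mul_le_mul_of_nonneg_left (by linarith) h2
    · calc (a + b) ^ p ≤ (2 * a) ^ p := Real.rpow_le_rpow (by linarith) (by linarith) hp0
        _ = 2 ^ p * a ^ p := Real.mul_rpow (by norm_num) ha
        _ ≤ _ := mul_le_mul_of_nonneg_left (by linarith) h2
  exact h3.trans (mul_le_mul_of_nonneg_left (by linarith) h2)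

theorem exists_approx_V {V : Sp d → ℝ} (hV : Measurable V) (h0 : ∀ x, 0 ≤ V x) {p : ℝ}
    (hp : 1 ≤ p) (hVp : ∫⁻ x, ENNReal.ofReal (V x ^ p) ≠ ⊤) :
    ∃ Vk : ℕ → Sp d → ℝ, (∀ k, Measurable (Vk k)) ∧ (∀ k x, 0 < Vk k x) ∧
      (∀ k, ∃ B : ℝ, ∀ x, Vk k x ≤ B) ∧ (∀ k, ∫⁻ x, ENNReal.ofReal (Vk k x ^ p) ≠ ⊤) ∧
      Tendsto (fun k => ∫⁻ x, ENNReal.ofReal (Vk k x ^ p)) atTop
        (𝓝 (∫⁻ x, ENNReal.ofReal (V x ^ p))) ∧
      ∀ u ∈ TF d, Tendsto (fun k => pot (Vk k) u) atTop (𝓝 (pot V u)) := by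
  have hp0 : 0 ≤ p := by linarith
  have h2p : (0 : ℝ) ≤ 2 ^ p := Real.rpow_nonneg (by norm_num) p
  set Vk : ℕ → Sp d → ℝ := fun k x => min (V x) k + APV_g x / ((k : ℝ) + 1) with hVk
  have hgk : ∀ (k : ℕ) (x : Sp d), 0 < APV_g x / ((k : ℝ) + 1) := fun k x => by
    have := APV_g_pos x
    positivity
  have hgk1 : ∀ (k : ℕ) (x : Sp d), APV_g x / ((k : ℝ) + 1) ≤ APV_g x := fun k x => by
    refine div_le_self (APV_g_pos x).le ?_
    have : (0 : ℝ) ≤ k := Nat.cast_nonneg k
    linarith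
  have hmin0 : ∀ (k : ℕ) (x : Sp d), 0 ≤ min (V x) k := fun k x =>
    le_min (h0 x) (Nat.cast_nonneg k)
  have hpos : ∀ k x, 0 < Vk k x := fun k x => by
    have := hgk k x
    have := hmin0 k x
    simp only [hVk]
    linarith
  have hle : ∀ k x, Vk k x ≤ V x + APV_g x := fun k x => by
    have := hgk1 k x
    have := min_le_left (V x) (k : ℝ)
    simp only [hVk]
    linarith
  have hmeas : ∀ k, Measurable (Vk k) := fun k =>
    (hV.min measurable_const).add (APV_g_meas.div_const _)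
  have hlim : ∀ x, Tendsto (fun k => Vk k x) atTop (𝓝 (V x)) := by
    intro x
    have e1 : Tendsto (fun k : ℕ => min (V x) (k : ℝ)) atTop (𝓝 (V x)) := by
      refine tendsto_const_nhds.congr' ?_
      filter_upwards [eventually_ge_atTop ⌈V x⌉₊] with k hk
      have : V x ≤ k := Nat.ceil_le.mp hk
      exact (min_eq_left this).symm
    have e2 : Tendsto (fun k : ℕ => APV_g x / ((k : ℝ) + 1)) atTop (𝓝 0) := by
      have := (tendsto_one_div_add_atTop_nhds_zero_nat (𝕜 := ℝ)).const_mul (APV_g x)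
      rw [mul_zero] at this
      refine this.congr fun k => ?_
      ring
    have := e1.add e2
    rwa [add_zero] at this
  -- the bound
  set bd : Sp d → ℝ≥0∞ := fun x => ENNReal.ofReal (2 ^ p * (V x ^ p + APV_g x)) with hbd
  have hVpm : Measurable (fun x => V x ^ p) := hV.pow_const p
  have hbfin : ∫⁻ x, bd x ≠ ⊤ := by
    have e1 : ∀ x, bd x = ENNReal.ofReal (2 ^ p) *
        (ENNReal.ofReal (V x ^ p) + ENNReal.ofReal (APV_g x)) := by
      intro x
      simp only [hbd]
      rw [ENNReal.ofReal_mul h2p, ENNReal.ofReal_add (Real.rpow_nonneg (h0 x) p) (APV_g_pos x).le]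
    simp_rw [e1]
    have hgm := APV_g_meas (d := d)
    rw [lintegral_const_mul _ (by fun_prop), lintegral_add_left (by fun_prop)]
    refine ENNReal.mul_ne_top ENNReal.ofReal_ne_top (ENNReal.add_ne_top.mpr ⟨hVp, ?_⟩)
    have e2 := (hasFiniteIntegral_iff_ofReal (Filter.Eventually.of_forall
      fun x : Sp d => (APV_g_pos x).le)).1 APV_g_int.2
    exact e2.ne
  have hbound : ∀ k x, ENNReal.ofReal (Vk k x ^ p) ≤ bd x := by
    intro k x
    apply ENNReal.ofReal_le_ofReal
    exact (Real.rpow_le_rpow (hpos k x).le (hle k x) hp0).trans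
      (APV_rpow (h0 x) (APV_g_pos x).le (APV_g_le x) hp)
  refine ⟨Vk, hmeas, hpos, ?_, ?_, ?_, ?_⟩
  · intro k
    refine ⟨k + 1, fun x => ?_⟩
    have e1 := hgk1 k x
    have e2 := min_le_right (V x) (k : ℝ)
    have e3 := APV_g_le x
    simp only [hVk]
    linarith
  · intro k
    exact ((lintegral_mono (hbound k)).trans_lt hbfin.lt_top).ne
  · refine tendsto_lintegral_of_dominated_convergence bd (fun k => ?_) (fun k => ?_) hbfin ?_
    · exact ((hmeas k).pow_const p).ennreal_ofReal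
    · exact Filter.Eventually.of_forall (hbound k)
    · refine Filter.Eventually.of_forall fun x => ?_
      exact ENNReal.tendsto_ofReal ((hlim x).rpow_const (Or.inr hp0))
  · intro u hu
    unfold pot
    have huc : Continuous u := hu.1.continuous
    refine tendsto_integral_of_dominated_convergence (fun x => (V x + APV_g x) * ‖u x‖ ^ 2)
      (fun k => ?_) ?_ (fun k => ?_) ?_
    · exact ((hmeas k).mul ((huc.norm.pow 2).measurable)).aestronglyMeasurable
    · have e1 : LocallyIntegrable (fun x => V x + APV_g x) :=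
        (locInt hV h0 hp hVp).add APV_g_int.locallyIntegrable
      have e2 : HasCompactSupport (fun x => ‖u x‖ ^ 2) :=
        hu.2.comp_left (g := fun z : ℂ => ‖z‖ ^ 2) (by simp)
      have e3 := e1.integrable_smul_left_of_hasCompactSupport (huc.norm.pow 2) e2
      refine e3.congr (Filter.Eventually.of_forall fun x => ?_)
      simp only [smul_eq_mul, Pi.pow_apply]
      ring
    · refine Filter.Eventually.of_forall fun x => ?_
      rw [norm_mul, norm_pow, norm_norm, Real.norm_of_nonneg (hpos k x).le]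
      exact mul_le_mul_of_nonneg_right (hle k x) (by positivity)
    · refine Filter.Eventually.of_forall fun x => ?_
      exact (hlim x).mul_const _

end Pool.Agent.H2.LTM
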