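import Pool.Agent.H2.LTM.Defs

/-!
# CNT: elementary facts on `cnt`

`le_cnt_iff`, (<=): if `Σ c_i u_i = 0` with `c ≠ 0` then `Q 0 < 0`, contradiction; so `u` is linearly
independent, `G = span (range u)` has finrank `n`, and every `w ∈ G`, `w ≠ 0` is `Σ c_i u_i` with
`c ≠ 0`.  (=>): `n = 0` is trivial (`Fin 0 → ℂ` is a subsingleton).  For `n ≥ 1`: `n - 1 < n ≤ sSup S`
gives (`lt_sSup_iff`) `a ∈ S` with `n - 1 < a = finrank G`, i.e. `n ≤ finrank G`; take the first `n`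
vectors of a basis of `G` (`Module.finBasis`, `Fin.castLE`); a combination with `c ≠ 0` is a nonzero
element of `G`.
`cnt_le_cnt`: by `le_cnt_iff` for both (`ENat.forall_natCast_le_iff_le` or `ENat.recTopCoe`), with
the family `L ∘ u` (`map_sum`, `map_smul`).  `cnt_mono`, `cnt_zero`, `cnt_le_finrank` are direct from
the definition (`sSup_le_sSup`, `sSup_le`, `Submodule.finrank_le`).
-/

open MeasureTheory Complex Set Filter Topology
open scoped ENNReal NNReal ContDiff ComplexConjugate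

noncomputable section

namespace Pool.Agent.H2.LTM

variable {W W' : Type*} [AddCommGroup W] [Module ℂ W] [AddCommGroup W'] [Module ℂ W']

theorem CNT_fwd (Q : W → ℝ) (n : ℕ) (h : (n : ℕ∞) ≤ cnt Q) :
    ∃ u : Fin n → W, ∀ c : Fin n → ℂ, c ≠ 0 → Q (∑ i, c i • u i) < 0 := by
  rcases n with _ | k
  · exact ⟨fun i => i.elim0, fun c hc => absurd (Subsingleton.elim c 0) hc⟩
  · have h1 : (k : ℕ∞) < cnt Q := by
      refine lt_of_lt_of_le ?_ h
      exact_mod_cast Nat.lt_succ_self k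
    unfold cnt at h1
    obtain ⟨a, ⟨G, hG, hneg, rfl⟩, hlt⟩ := lt_sSup_iff.1 h1
    have h2 : k + 1 ≤ Module.finrank ℂ G := by
      have h3 : k < Module.finrank ℂ G := by exact_mod_cast hlt
      exact h3
    let b := Module.finBasis ℂ G
    refine ⟨fun i => (b (Fin.castLE h2 i) : W), fun c hc => ?_⟩
    have hli : LinearIndependent ℂ (fun i : Fin (k + 1) => b (Fin.castLE h2 i)) :=
      b.linearIndependent.comp _ (Fin.castLE_injective h2)
    have hne : (∑ i, c i • b (Fin.castLE h2 i)) ≠ 0 := by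
      intro h0
      exact hc (funext (Fintype.linearIndependent_iff.1 hli c h0))
    have h4 : (∑ i, c i • (b (Fin.castLE h2 i) : W))
        = ((∑ i, c i • b (Fin.castLE h2 i) : G) : W) := by
      push_cast
      rfl
    rw [h4]
    refine hneg _ (Submodule.coe_mem _) ?_
    intro h0
    exact hne (Subtype.ext h0)

theorem le_cnt_iff (Q : W → ℝ) (h0 : 0 ≤ Q 0) (n : ℕ) :
    (n : ℕ∞) ≤ cnt Q ↔ ∃ u : Fin n → W, ∀ c : Fin n → ℂ, c ≠ 0 → Q (∑ i, c i • u i) < 0 := by
  refine ⟨CNT_fwd Q n, ?_⟩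
  rintro ⟨u, hu⟩
  have hli : LinearIndependent ℂ u := by
    rw [Fintype.linearIndependent_iff]
    intro g hg
    by_contra hcon
    push Not at hcon
    obtain ⟨i, hi⟩ := hcon
    have h1 := hu g (fun h => hi (congrFun h i))
    rw [hg] at h1
    linarith
  refine le_sSup ⟨Submodule.span ℂ (Set.range u), FiniteDimensional.span_of_finite ℂ
    (Set.finite_range u), ?_, ?_⟩
  · intro w hw hw0
    obtain ⟨c, rfl⟩ := (Submodule.mem_span_range_iff_exists_fun ℂ).1 hw
    refine hu c ?_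
    rintro rfl
    simp at hw0
  · rw [finrank_span_eq_card hli, Fintype.card_fin]

/-- comparison through a linear map. -/
theorem cnt_le_cnt (Q : W → ℝ) (Q' : W' → ℝ) (h0 : 0 ≤ Q 0) (h0' : 0 ≤ Q' 0) (L : W →ₗ[ℂ] W')
    (h : ∀ u, Q u < 0 → Q' (L u) < 0) : cnt Q ≤ cnt Q' := by
  rw [← ENat.forall_natCast_le_iff_le]
  intro n hn
  obtain ⟨u, hu⟩ := (le_cnt_iff Q h0 n).1 hn
  refine (le_cnt_iff Q' h0' n).2 ⟨fun i => L (u i), fun c hc => ?_⟩
  have h1 := h _ (hu c hc)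
  rw [map_sum] at h1
  simpa using h1

theorem cnt_mono (Q Q' : W → ℝ) (h : ∀ u, Q u < 0 → Q' u < 0) : cnt Q ≤ cnt Q' := by
  refine sSup_le_sSup ?_
  rintro n ⟨G, hG, hneg, hn⟩
  exact ⟨G, hG, fun u hu hu0 => h u (hneg u hu hu0), hn⟩

theorem cnt_eq_zero (Q : W → ℝ) (h : ∀ u, 0 ≤ Q u) : cnt Q = 0 := by
  rw [← nonpos_iff_eq_zero]
  refine sSup_le ?_
  rintro n ⟨G, hG, hneg, rfl⟩
  have h1 : G = ⊥ := by
    rw [Submodule.eq_bot_iff]
    intro u hu
    by_contra hu0
    have := hneg u hu hu0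
    linarith [h u]
  rw [h1, finrank_bot]
  simp

theorem cnt_le_finrank [FiniteDimensional ℂ W] (Q : W → ℝ) :
    cnt Q ≤ (Module.finrank ℂ W : ℕ∞) := by
  refine sSup_le ?_
  rintro n ⟨G, hG, hneg, rfl⟩
  exact_mod_cast Submodule.finrank_le G

end Pool.Agent.H2.LTM
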