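import Pool.Agent.H2.LTM.EIG

/-!
# DIA: simultaneous diagonalisation of a Hermitian form and a positive definite one

Take a basis `b` of `W` (`Module.finBasis`), matrices `X1` of `q1` (positive definite Hermitian) and
`X` of `q` (`IsHF.exists_matrix`).  Either: make `W` an inner product space with the sesquilinear form
of `q1` (`InnerProductSpace.Core`), `stdOrthonormalBasis`, and apply the spectral theorem to the
Hermitian matrix of `q` in this basis; or: by Gram–Schmidt / `X1 = L L*` get a basis orthonormal for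
`q1`, then diagonalise the Hermitian matrix `Y` of `q` in it with
`Matrix.IsHermitian.eigenvectorUnitary` (`Y = U D U*`), which preserves `Σ |c_i|²`.
`exists_matrix_orth`: the matrix form of a family which is orthonormal for `q1` (used in PEI).
-/

open MeasureTheory Complex Set Filter Topology
open scoped ENNReal NNReal ContDiff ComplexConjugate

noncomputable section

namespace Pool.Agent.H2.LTM

theorem DIA_inner {W : Type*} [NormedAddCommGroup W] [InnerProductSpace ℂ W]
    [FiniteDimensional ℂ W] (B : W →ₗ⋆[ℂ] W →ₗ[ℂ] ℂ) (hB : ∀ u v, B u v = conj (B v u)) :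
    ∃ (u : Fin (Module.finrank ℂ W) → W) (e : Fin (Module.finrank ℂ W) → ℝ),
      LinearIndependent ℂ u ∧ ∀ c : Fin (Module.finrank ℂ W) → ℂ,
        (inner ℂ (∑ i, c i • u i) (∑ i, c i • u i)).re = ∑ i, ‖c i‖ ^ 2 ∧
          (B (∑ i, c i • u i) (∑ i, c i • u i)).re = ∑ i, e i * ‖c i‖ ^ 2 := by
  classical
  set b := stdOrthonormalBasis ℂ W with hb
  let T : W →ₗ[ℂ] W := ∑ i, (B (b i)).smulRight (b i)
  have hTa : ∀ v, T v = ∑ i, B (b i) v • b i := by
    intro v
    simp [T, LinearMap.sum_apply]
  have hT : ∀ u v, inner ℂ u (T v) = B u v := by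
    intro u v
    rw [hTa, inner_sum]
    conv_rhs => rw [← b.sum_repr' u]
    rw [map_sum, LinearMap.sum_apply]
    refine Finset.sum_congr rfl fun i _ => ?_
    rw [inner_smul_right, LinearMap.map_smulₛₗ, LinearMap.smul_apply, smul_eq_mul, inner_conj_symm,
      mul_comm]
  have hS : T.IsSymmetric := by
    intro u v
    rw [hT u v, ← inner_conj_symm, hT v u, hB u v]
  let w := hS.eigenvectorBasis rfl
  refine ⟨fun i => w i, hS.eigenvalues rfl, w.orthonormal.linearIndependent, fun c => ⟨?_, ?_⟩⟩
  · rw [w.orthonormal.inner_sum, Complex.re_sum]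
    refine Finset.sum_congr rfl fun i _ => ?_
    rw [Complex.conj_mul', ← Complex.ofReal_pow, Complex.ofReal_re]
  · rw [← hT]
    have h1 : T (∑ i, c i • w i) = ∑ i, (c i * (hS.eigenvalues rfl i : ℂ)) • w i := by
      rw [map_sum]
      refine Finset.sum_congr rfl fun i _ => ?_
      rw [map_smul, hS.apply_eigenvectorBasis rfl i, smul_smul]
      rfl
    rw [h1, w.orthonormal.inner_sum, Complex.re_sum]
    refine Finset.sum_congr rfl fun i _ => ?_
    rw [← mul_assoc, Complex.conj_mul', ← Complex.ofReal_pow, ← Complex.ofReal_mul,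
      Complex.ofReal_re, mul_comm]

variable {W : Type*} [AddCommGroup W] [Module ℂ W]

theorem exists_diag [FiniteDimensional ℂ W] (q q1 : W → ℝ) (hq : IsHF q) (hq1 : IsHF q1)
    (pos : ∀ u, u ≠ 0 → 0 < q1 u) :
    ∃ (u : Fin (Module.finrank ℂ W) → W) (e : Fin (Module.finrank ℂ W) → ℝ),
      LinearIndependent ℂ u ∧ ∀ c : Fin (Module.finrank ℂ W) → ℂ,
        q1 (∑ i, c i • u i) = ∑ i, ‖c i‖ ^ 2 ∧ q (∑ i, c i • u i) = ∑ i, e i * ‖c i‖ ^ 2 := by
  obtain ⟨B, hB, hqB⟩ := hq
  obtain ⟨B1, hB1, hq1B⟩ := hq1
  let core : InnerProductSpace.Core ℂ W :=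
    { inner := fun u v => B1 u v
      conj_inner_symm := fun u v => (hB1 u v).symm
      re_inner_nonneg := fun u => by
        show 0 ≤ (B1 u u).re
        rw [← hq1B]
        by_cases hu : u = 0
        · subst hu
          rw [hq1B]
          simp
        · exact (pos u hu).le
      add_left := fun u v w => by
        show B1 (u + v) w = B1 u w + B1 v w
        rw [map_add, LinearMap.add_apply]
      smul_left := fun u v r => by
        show B1 (r • u) v = conj r * B1 u v
        rw [LinearMap.map_smulₛₗ, LinearMap.smul_apply, smul_eq_mul]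
      definite := fun u hu => by
        by_contra h0
        have h1 := pos u h0
        have h2 : B1 u u = 0 := hu
        rw [hq1B, h2] at h1
        simp at h1 }
  let : NormedAddCommGroup W := InnerProductSpace.Core.toNormedAddCommGroup (𝕜 := ℂ)
  let : InnerProductSpace ℂ W := InnerProductSpace.ofCore _
  obtain ⟨u, e, hu, h⟩ := DIA_inner B hB
  refine ⟨u, e, hu, fun c => ⟨?_, ?_⟩⟩
  · rw [hq1B]
    exact (h c).1
  · rw [hqB]
    exact (h c).2

end Pool.Agent.H2.LTM
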