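import Pool.Agent.H2.LTM.Defs

/-!
# DOM: trace domination of matrix exponentials

Choose `c : ℝ` with `c ≥ |(M x x).re|` and `c ≥ (N x x).re`, `c ≥ (M x x).re` for all `x`.  Let
`P = c - M`, `R = c - N` (`c • 1 - M`).  Diagonal entries of Hermitian matrices are real.  Then for
all `x, y`: `‖P x y‖ ≤ (R x y).re` and `(R x y).im = 0` (off-diagonal by `hoff`, `him`; diagonal:
`‖P x x‖ = c - (M x x).re ≤ c - (N x x).re`).  By induction `‖(P^k) x y‖ ≤ ((R^k) x y).re`,
`((R^k) x y).im = 0` (`Matrix.mul_apply`, triangle inequality).  So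
`|tr P^k| ≤ (tr R^k).re`.  Spectral theorem: `tr P^k = Σ_i (c - μ_i)^k` with `μ_i = hM.eigenvalues i`,
`tr R^k = Σ_i (c - ν_i)^k` (diagonalise: `hM.spectral_theorem`, `P^k = U diag((c-μ)^k) U*`,
`Matrix.trace_mul_cycle`).  Hence `Σ_i exp (a (c - μ_i)) = Σ_k a^k/k! Σ_i (c-μ_i)^k ≤
Σ_k a^k/k! Σ_i (c - ν_i)^k = Σ_i exp (a (c - ν_i))` (`Real.hasSum_exp`-type series /
`NormedSpace.expSeries_div_hasSum_exp`, `hasSum_le`), and multiply by `exp (-(a c))`.
-/

open MeasureTheory Complex Set Filter Topology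
open scoped ENNReal NNReal ContDiff ComplexConjugate

noncomputable section

namespace Pool.Agent.H2.LTM

variable {X : Type*} [Fintype X] [DecidableEq X]

theorem DOM_tr {M : Matrix X X ℂ} (hM : M.IsHermitian) (c : ℝ) (k : ℕ) :
    (((c : ℂ) • (1 : Matrix X X ℂ) - M) ^ k).trace =
      ∑ i, (((c - hM.eigenvalues i) ^ k : ℝ) : ℂ) := by
  set φ := Unitary.conjStarAlgAut ℂ (Matrix X X ℂ) hM.eigenvectorUnitary with hφ
  have h0 : M = φ (Matrix.diagonal (RCLike.ofReal ∘ hM.eigenvalues)) := hM.spectral_theorem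
  have h1 : (c : ℂ) • (1 : Matrix X X ℂ) - M =
      φ (Matrix.diagonal (fun i => ((c - hM.eigenvalues i : ℝ) : ℂ))) := by
    have h2 : (c : ℂ) • (1 : Matrix X X ℂ) = φ ((c : ℂ) • (1 : Matrix X X ℂ)) := by
      rw [map_smul, map_one]
    have h3 : Matrix.diagonal (fun i => ((c - hM.eigenvalues i : ℝ) : ℂ)) =
        (c : ℂ) • (1 : Matrix X X ℂ) - Matrix.diagonal (RCLike.ofReal ∘ hM.eigenvalues) := by
      ext i j
      rw [Matrix.sub_apply, Matrix.smul_apply, Matrix.one_apply, Matrix.diagonal_apply,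
        Matrix.diagonal_apply]
      split_ifs <;> simp
    rw [h3, map_sub, ← h2, ← h0]
  rw [h1, ← map_pow, Matrix.diagonal_pow, hφ, Unitary.conjStarAlgAut_apply,
    Matrix.trace_mul_cycle, Unitary.coe_star_mul_self, one_mul, Matrix.trace_diagonal]
  refine Finset.sum_congr rfl fun i _ => ?_
  simp

theorem dom (M N : Matrix X X ℂ) (hM : M.IsHermitian) (hN : N.IsHermitian)
    (hoff : ∀ x y, x ≠ y → ‖M x y‖ ≤ -(N x y).re) (him : ∀ x y, (N x y).im = 0)
    (hdiag : ∀ x, (N x x).re ≤ (M x x).re) {a : ℝ} (ha : 0 ≤ a) :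
    ∑ i, Real.exp (-(a * hM.eigenvalues i)) ≤ ∑ i, Real.exp (-(a * hN.eigenvalues i)) := by
  set c : ℝ := ∑ x, |(M x x).re| with hc
  have hcM : ∀ x, (M x x).re ≤ c := by
    intro x
    have h1 : |(M x x).re| ≤ c :=
      Finset.single_le_sum (f := fun x => |(M x x).re|) (fun i _ => abs_nonneg _)
        (Finset.mem_univ x)
    exact (le_abs_self _).trans h1
  have hMim : ∀ x, (M x x).im = 0 := by
    intro x
    have h1 := hM.apply x x
    have h2 := congrArg Complex.im h1
    simp at h2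
    linarith
  set P : Matrix X X ℂ := (c : ℂ) • (1 : Matrix X X ℂ) - M with hP
  set R : Matrix X X ℂ := (c : ℂ) • (1 : Matrix X X ℂ) - N with hR
  have hbase : ∀ x y, ‖P x y‖ ≤ (R x y).re ∧ (R x y).im = 0 := by
    intro x y
    by_cases hxy : x = y
    · subst hxy
      have e1 : P x x = ((c - (M x x).re : ℝ) : ℂ) := by
        rw [hP, Matrix.sub_apply, Matrix.smul_apply, Matrix.one_apply_eq]
        apply Complex.ext
        · simp
        · simp [hMim]
      have e2 : (R x x).re = c - (N x x).re := by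
        rw [hR, Matrix.sub_apply, Matrix.smul_apply, Matrix.one_apply_eq]
        simp
      have e3 : (R x x).im = 0 := by
        rw [hR, Matrix.sub_apply, Matrix.smul_apply, Matrix.one_apply_eq]
        simp [him]
      refine ⟨?_, e3⟩
      rw [e1, e2, Complex.norm_real, Real.norm_eq_abs, abs_of_nonneg (by linarith [hcM x])]
      linarith [hdiag x]
    · have e1 : P x y = -M x y := by
        rw [hP, Matrix.sub_apply, Matrix.smul_apply, Matrix.one_apply_ne hxy]
        simp
      have e2 : R x y = -N x y := by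
        rw [hR, Matrix.sub_apply, Matrix.smul_apply, Matrix.one_apply_ne hxy]
        simp
      rw [e1, e2, norm_neg]
      exact ⟨by simpa using hoff x y hxy, by simp [him]⟩
  have hind : ∀ k : ℕ, ∀ x y, ‖(P ^ k) x y‖ ≤ ((R ^ k) x y).re ∧ ((R ^ k) x y).im = 0 := by
    intro k
    induction k with
    | zero =>
      intro x y
      rw [pow_zero, pow_zero, Matrix.one_apply]
      split_ifs <;> simp
    | succ k ih =>
      intro x y
      rw [pow_succ, pow_succ, Matrix.mul_apply, Matrix.mul_apply, Complex.re_sum, Complex.im_sum]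
      constructor
      · refine (norm_sum_le _ _).trans (Finset.sum_le_sum fun z _ => ?_)
        rw [norm_mul, Complex.mul_re, (ih x z).2, zero_mul, sub_zero]
        exact mul_le_mul (ih x z).1 (hbase z y).1 (norm_nonneg _)
          ((norm_nonneg _).trans (ih x z).1)
      · refine Finset.sum_eq_zero fun z _ => ?_
        rw [Complex.mul_im, (ih x z).2, (hbase z y).2]
        ring
  have htr : ∀ k : ℕ, ∑ i, (c - hM.eigenvalues i) ^ k ≤ ∑ i, (c - hN.eigenvalues i) ^ k := by
    intro k
    have e1 : ∑ i, (c - hM.eigenvalues i) ^ k = ((P ^ k).trace).re := by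
      rw [hP, DOM_tr hM, Complex.re_sum]
      simp only [Complex.ofReal_re]
    have e2 : ∑ i, (c - hN.eigenvalues i) ^ k = ((R ^ k).trace).re := by
      rw [hR, DOM_tr hN, Complex.re_sum]
      simp only [Complex.ofReal_re]
    rw [e1, e2, Matrix.trace, Matrix.trace, Complex.re_sum, Complex.re_sum]
    refine Finset.sum_le_sum fun x _ => ?_
    exact (Complex.re_le_norm _).trans (hind k x x).1
  have hexp : ∀ μ : X → ℝ, HasSum (fun k : ℕ => ∑ i, (a * (c - μ i)) ^ k / (k.factorial : ℝ))
      (∑ i, Real.exp (a * (c - μ i))) := by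
    intro μ
    refine hasSum_sum fun i _ => ?_
    have := NormedSpace.expSeries_div_hasSum_exp (a * (c - μ i))
    rwa [← Real.exp_eq_exp_ℝ] at this
  have hle : ∑ i, Real.exp (a * (c - hM.eigenvalues i)) ≤
      ∑ i, Real.exp (a * (c - hN.eigenvalues i)) := by
    refine hasSum_le (fun k => ?_) (hexp _) (hexp _)
    have e : ∀ μ : X → ℝ, ∑ i, (a * (c - μ i)) ^ k / (k.factorial : ℝ) =
        a ^ k / (k.factorial : ℝ) * ∑ i, (c - μ i) ^ k := by
      intro μ
      rw [Finset.mul_sum]
      refine Finset.sum_congr rfl fun i _ => ?_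
      rw [mul_pow]
      ring
    rw [e, e]
    exact mul_le_mul_of_nonneg_left (htr k) (by positivity)
  have hfin : ∀ μ : X → ℝ, ∑ i, Real.exp (-(a * μ i)) =
      Real.exp (-(a * c)) * ∑ i, Real.exp (a * (c - μ i)) := by
    intro μ
    rw [Finset.mul_sum]
    refine Finset.sum_congr rfl fun i _ => ?_
    rw [← Real.exp_add]
    congr 1
    ring
  rw [hfin, hfin]
  exact mul_le_mul_of_nonneg_left hle (Real.exp_pos _).le

end Pool.Agent.H2.LTM
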