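import Pool.Agent.H2.LTM.Defs

/-!
# LAP: two one-variable integrals of counting functions

Write the cardinality as `Σ_i (indicator)` and exchange (`lintegral_finset_sum`, measurability of
indicators of half lines).
`lap`: `∫⁻_{λ > 0, λ > μ} a e^{-aλ} = e^{-a max(μ,0)}` (`Ioi 0 ∩ Ioi μ = Ioi (max μ 0)`;
`integral_exp_neg_mul_Ioi` / `integral_exp_mul_Ioi`, `ofReal_integral_eq_lintegral_ofReal`).
`powint`: `∫⁻_{0 < E < -η} γ E^{γ-1} = (max (-η) 0)^γ` (`integral_rpow`, `γ - 1 > -1`; empty if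
`η ≥ 0`, and then `0^γ = 0`).
-/

open MeasureTheory Complex Set Filter Topology
open scoped ENNReal NNReal ContDiff ComplexConjugate

noncomputable section

namespace Pool.Agent.H2.LTM

variable {ι : Type*} [Fintype ι]

theorem LAP_gen (F : ℝ → ℝ≥0∞) (hF : Measurable F) (S : ι → Set ℝ) (hS : ∀ i, MeasurableSet (S i))
    (f : ℝ → ι → Prop) [∀ x i, Decidable (f x i)] (hf : ∀ x i, f x i ↔ x ∈ S i) :
    ∫⁻ x in Ioi (0 : ℝ), F x *
        (((((Finset.univ.filter (fun i => f x i)).card : ℕ) : ℕ∞)) : ℝ≥0∞) =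
      ∑ i, ∫⁻ x in S i ∩ Ioi 0, F x := by
  classical
  have h1 : ∀ x, F x * (((((Finset.univ.filter (fun i => f x i)).card : ℕ) : ℕ∞)) : ℝ≥0∞) =
      ∑ i, (S i).indicator F x := by
    intro x
    rw [ENat.toENNReal_coe, Finset.natCast_card_filter, Finset.mul_sum]
    refine Finset.sum_congr rfl fun i _ => ?_
    by_cases h : f x i
    · rw [if_pos h, indicator_of_mem ((hf x i).1 h), mul_one]
    · rw [if_neg h, indicator_of_notMem (fun h' => h ((hf x i).2 h')), mul_zero]
  simp_rw [h1]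
  rw [lintegral_finsetSum]
  · refine Finset.sum_congr rfl fun i _ => ?_
    rw [setLIntegral_indicator (hS i)]
  · intro i _
    exact hF.indicator (hS i)

theorem LAP_exp {a : ℝ} (ha : 0 < a) (t : ℝ) :
    ∫⁻ x in Ioi t, ENNReal.ofReal (a * Real.exp (-(a * x))) =
      ENNReal.ofReal (Real.exp (-(a * t))) := by
  have h1 : IntegrableOn (fun x : ℝ => Real.exp (-a * x)) (Ioi t) :=
    integrableOn_exp_mul_Ioi (by linarith) t
  have h2 := integral_exp_mul_Ioi (a := -a) (by linarith) t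
  have e : ∀ x : ℝ, -(a * x) = -a * x := fun x => by ring
  simp_rw [e]
  rw [← ofReal_integral_eq_lintegral_ofReal]
  · congr 1
    rw [integral_const_mul, h2]
    field_simp
  · exact h1.const_mul _
  · exact Filter.Eventually.of_forall fun x => by positivity

theorem LAP_pow {γ : ℝ} (hγ : 0 < γ) (t : ℝ) :
    ∫⁻ x in Ioo 0 t, ENNReal.ofReal (γ * x ^ (γ - 1)) = ENNReal.ofReal ((max t 0) ^ γ) := by
  rcases le_or_gt t 0 with ht | ht
  · rw [Ioo_eq_empty (not_lt.2 ht), max_eq_right ht, Real.zero_rpow hγ.ne']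
    simp
  · rw [max_eq_left ht.le, ← ofReal_integral_eq_lintegral_ofReal]
    · congr 1
      rw [← integral_Ioc_eq_integral_Ioo, ← intervalIntegral.integral_of_le ht.le,
        intervalIntegral.integral_const_mul, integral_rpow (Or.inl (by linarith))]
      rw [sub_add_cancel, Real.zero_rpow hγ.ne', sub_zero]
      field_simp
    · have h1 := intervalIntegral.intervalIntegrable_rpow' (a := 0) (b := t)
        (r := γ - 1) (by linarith)
      rw [intervalIntegrable_iff_integrableOn_Ioo_of_le ht.le] at h1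
      exact h1.const_mul _
    · refine (ae_restrict_iff' measurableSet_Ioo).2 (Filter.Eventually.of_forall fun x hx => ?_)
      have hx0 : 0 < x := hx.1
      show 0 ≤ γ * x ^ (γ - 1)
      positivity

theorem lap (μ : ι → ℝ) {a : ℝ} (ha : 0 < a) :
    ∫⁻ lam in Ioi (0 : ℝ), ENNReal.ofReal (a * Real.exp (-(a * lam))) *
        (((((Finset.univ.filter (fun i => μ i < lam)).card : ℕ) : ℕ∞)) : ℝ≥0∞) =
      ENNReal.ofReal (∑ i, Real.exp (-(a * max (μ i) 0))) := by
  rw [LAP_gen (fun lam => ENNReal.ofReal (a * Real.exp (-(a * lam)))) (by fun_prop)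
    (fun i => Ioi (μ i)) (fun i => measurableSet_Ioi) (fun lam i => μ i < lam)
    (fun x i => Iff.rfl), ENNReal.ofReal_sum_of_nonneg (fun i _ => (Real.exp_pos _).le)]
  refine Finset.sum_congr rfl fun i _ => ?_
  rw [Ioi_inter_Ioi, LAP_exp ha]

theorem powint (η : ι → ℝ) {γ : ℝ} (hγ : 0 < γ) :
    ∫⁻ E in Ioi (0 : ℝ), ENNReal.ofReal (γ * E ^ (γ - 1)) *
        (((((Finset.univ.filter (fun i => η i < -E)).card : ℕ) : ℕ∞)) : ℝ≥0∞) =
      ENNReal.ofReal (∑ i, (max (-(η i)) 0) ^ γ) := by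
  rw [LAP_gen (fun E => ENNReal.ofReal (γ * E ^ (γ - 1))) (by fun_prop)
    (fun i => Iio (-(η i))) (fun i => measurableSet_Iio) (fun E i => η i < -E)
    (fun x i => by
      rw [mem_Iio]
      constructor <;> intro h <;> linarith),
    ENNReal.ofReal_sum_of_nonneg (fun i _ => Real.rpow_nonneg (le_max_right _ _) _)]
  refine Finset.sum_congr rfl fun i _ => ?_
  rw [inter_comm, Ioi_inter_Iio, LAP_pow hγ]

end Pool.Agent.H2.LTM
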