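import Pool.Agent.H2.LTM.EIG
import Pool.Agent.H2.LTM.LAP
import Pool.Agent.H2.LTM.DOM

/-!
# DIS: discrete diamagnetic domination after Laplace transform in the coupling constant

Let `S' x y = S x y / (√D_x √D_y)`, `T'` likewise; Hermitian, and `hoff, him, hdiag` pass to
`S', T'` (positive real factors).  By the linear equivalence `v ↦ (√D_x v_x)` of `X → ℂ` and
`cnt_le_cnt` in both directions, `cnt (qf S v - lam Σ D_x |v_x|²) = cnt (qf S' v - lam Σ |v_x|²)`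
`= #{i : eig_i(S') < lam}` (`cnt_qf`).  By `lap` the left side is
`ofReal Σ exp(-(a max(eig_i S', 0))) ≤ ofReal Σ exp(-(a eig_i S')) ≤ ofReal Σ exp (-(a eig_i T'))`
(`dom`) and `eig_i T' ≥ 0` (`qf T' v = qf T (v/√D) ≥ 0`, evaluated at an eigenvector), so this is the
right side by `lap` again.
-/

open MeasureTheory Complex Set Filter Topology
open scoped ENNReal NNReal ContDiff ComplexConjugate

noncomputable section

namespace Pool.Agent.H2.LTM

variable {X : Type*} [Fintype X] [DecidableEq X]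

/-- the rescaled matrix `M x y / (√D_x √D_y)` -/
private def DIS_r (D : X → ℝ) (M : Matrix X X ℂ) : Matrix X X ℂ :=
  Matrix.of fun x y => M x y * (((√(D x))⁻¹ * (√(D y))⁻¹ : ℝ) : ℂ)

omit [Fintype X] [DecidableEq X] in
private theorem DIS_herm (D : X → ℝ) {M : Matrix X X ℂ} (hM : M.IsHermitian) :
    (DIS_r D M).IsHermitian := by
  ext x y
  have h1 : (starRingEnd ℂ) (M y x) = M x y := hM.apply x y
  simp only [DIS_r, Matrix.conjTranspose_apply, Matrix.of_apply]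
  change (starRingEnd ℂ) (M y x * (((√(D y))⁻¹ * (√(D x))⁻¹ : ℝ) : ℂ)) = _
  rw [map_mul, h1, Complex.conj_ofReal, mul_comm (√(D y))⁻¹]

omit [DecidableEq X] in
private theorem DIS_qf {D : X → ℝ} (hD : ∀ x, 0 < D x) (M : Matrix X X ℂ) (v : X → ℂ) :
    qf (DIS_r D M) (fun x => ((√(D x) : ℝ) : ℂ) * v x) = qf M v := by
  unfold qf
  congr 1
  simp only [dotProduct, Matrix.mulVec, DIS_r, Matrix.of_apply, Pi.star_apply, Finset.mul_sum]
  refine Finset.sum_congr rfl fun x _ => Finset.sum_congr rfl fun y _ => ?_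
  have hx : ((√(D x) : ℝ) : ℂ) ≠ 0 := by
    exact_mod_cast (Real.sqrt_pos.mpr (hD x)).ne'
  have hy : ((√(D y) : ℝ) : ℂ) ≠ 0 := by
    exact_mod_cast (Real.sqrt_pos.mpr (hD y)).ne'
  have h1 : star (((√(D x) : ℝ) : ℂ) * v x) = ((√(D x) : ℝ) : ℂ) * star (v x) := by
    change (starRingEnd ℂ) (((√(D x) : ℝ) : ℂ) * v x) = _
    rw [map_mul, Complex.conj_ofReal]
    rfl
  rw [h1]
  push_cast
  field_simp

omit [DecidableEq X] in
private theorem DIS_mass {D : X → ℝ} (hD : ∀ x, 0 < D x) (v : X → ℂ) :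
    ∑ x, ‖((√(D x) : ℝ) : ℂ) * v x‖ ^ 2 = ∑ x, D x * ‖v x‖ ^ 2 := by
  refine Finset.sum_congr rfl fun x _ => ?_
  rw [norm_mul, mul_pow, Complex.norm_real, Real.norm_eq_abs, sq_abs, Real.sq_sqrt (hD x).le]

private def DIS_L (c : X → ℂ) : (X → ℂ) →ₗ[ℂ] (X → ℂ) where
  toFun := fun v x => c x * v x
  map_add' := fun v w => by
    funext x
    simp only [Pi.add_apply]
    ring
  map_smul' := fun t v => by
    funext x
    simp only [Pi.smul_apply, smul_eq_mul, RingHom.id_apply]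
    ring

private theorem DIS_inv {D : X → ℝ} (hD : ∀ x, 0 < D x) (w : X → ℂ) :
    (fun x => ((√(D x) : ℝ) : ℂ) * ((((√(D x))⁻¹ : ℝ) : ℂ) * w x)) = w := by
  funext x
  have hx : ((√(D x) : ℝ) : ℂ) ≠ 0 := by
    exact_mod_cast (Real.sqrt_pos.mpr (hD x)).ne'
  push_cast
  field_simp

private theorem DIS_cnt {D : X → ℝ} (hD : ∀ x, 0 < D x) {M : Matrix X X ℂ} (hM : M.IsHermitian)
    (lam : ℝ) : cnt (fun v : X → ℂ => qf M v - lam * ∑ x, D x * ‖v x‖ ^ 2) =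
      (((Finset.univ.filter (fun i => (DIS_herm D hM).eigenvalues i < lam)).card : ℕ) : ℕ∞) := by
  rw [← cnt_qf (DIS_r D M) (DIS_herm D hM) lam]
  have z1 : ∀ N : Matrix X X ℂ, qf N 0 = 0 := by
    intro N
    simp [qf]
  refine le_antisymm ?_ ?_
  · refine cnt_le_cnt _ _ ?_ ?_ (DIS_L fun x => ((√(D x) : ℝ) : ℂ)) ?_
    · simp [z1]
    · simp [z1]
    · intro v hv
      have h1 : (DIS_L fun x => ((√(D x) : ℝ) : ℂ)) v = fun x => ((√(D x) : ℝ) : ℂ) * v x := rfl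
      simp only [h1]
      rw [DIS_qf hD, DIS_mass hD]
      exact hv
  · refine cnt_le_cnt _ _ ?_ ?_ (DIS_L fun x => (((√(D x))⁻¹ : ℝ) : ℂ)) ?_
    · simp [z1]
    · simp [z1]
    · intro w hw
      set v : X → ℂ := fun x => (((√(D x))⁻¹ : ℝ) : ℂ) * w x with hv
      have h1 : (DIS_L fun x => (((√(D x))⁻¹ : ℝ) : ℂ)) w = v := rfl
      have h2 : (fun x => ((√(D x) : ℝ) : ℂ) * v x) = w := DIS_inv hD w
      simp only [h1]
      rw [← DIS_qf hD M v, ← DIS_mass hD v]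
      have h3 : ∑ x, ‖((√(D x) : ℝ) : ℂ) * v x‖ ^ 2 = ∑ x, ‖w x‖ ^ 2 :=
        Finset.sum_congr rfl fun x _ => by rw [congrFun h2 x]
      rw [h2, h3]
      exact hw

private theorem DIS_int {D : X → ℝ} (hD : ∀ x, 0 < D x) {M : Matrix X X ℂ} (hM : M.IsHermitian)
    {a : ℝ} (ha : 0 < a) :
    ∫⁻ lam in Ioi (0 : ℝ), ENNReal.ofReal (a * Real.exp (-(a * lam))) *
        ((cnt (fun v : X → ℂ => qf M v - lam * ∑ x, D x * ‖v x‖ ^ 2) : ℕ∞) : ℝ≥0∞) =
    ENNReal.ofReal (∑ i, Real.exp (-(a * max ((DIS_herm D hM).eigenvalues i) 0))) := by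
  rw [← lap _ ha]
  refine lintegral_congr fun lam => ?_
  rw [DIS_cnt hD hM lam]

theorem dis (S T : Matrix X X ℂ) (hS : S.IsHermitian) (hT : T.IsHermitian)
    (hoff : ∀ x y, x ≠ y → ‖S x y‖ ≤ -(T x y).re) (him : ∀ x y, (T x y).im = 0)
    (hdiag : ∀ x, (T x x).re ≤ (S x x).re) (hpsd : ∀ v, 0 ≤ qf T v)
    (D : X → ℝ) (hD : ∀ x, 0 < D x) {a : ℝ} (ha : 0 < a) :
    ∫⁻ lam in Ioi (0 : ℝ), ENNReal.ofReal (a * Real.exp (-(a * lam))) *
        ((cnt (fun v : X → ℂ => qf S v - lam * ∑ x, D x * ‖v x‖ ^ 2) : ℕ∞) : ℝ≥0∞) ≤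
    ∫⁻ lam in Ioi (0 : ℝ), ENNReal.ofReal (a * Real.exp (-(a * lam))) *
        ((cnt (fun v : X → ℂ => qf T v - lam * ∑ x, D x * ‖v x‖ ^ 2) : ℕ∞) : ℝ≥0∞) := by
  rw [DIS_int hD hS ha, DIS_int hD hT ha]
  refine ENNReal.ofReal_le_ofReal ?_
  have hs : ∀ x, 0 < (√(D x))⁻¹ := fun x => inv_pos.mpr (Real.sqrt_pos.mpr (hD x))
  have hnorm : ∀ x y, ‖DIS_r D S x y‖ = ‖S x y‖ * ((√(D x))⁻¹ * (√(D y))⁻¹) := by
    intro x y
    simp only [DIS_r, Matrix.of_apply]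
    rw [norm_mul, Complex.norm_real, Real.norm_of_nonneg (mul_pos (hs x) (hs y)).le]
  have hre : ∀ (M : Matrix X X ℂ) x y,
      (DIS_r D M x y).re = (M x y).re * ((√(D x))⁻¹ * (√(D y))⁻¹) := by
    intro M x y
    simp only [DIS_r, Matrix.of_apply]
    rw [Complex.re_mul_ofReal]
  have hdom := dom (DIS_r D S) (DIS_r D T) (DIS_herm D hS) (DIS_herm D hT)
    (fun x y hxy => by
      rw [hnorm, hre, ← neg_mul]
      exact mul_le_mul_of_nonneg_right (hoff x y hxy) (mul_pos (hs x) (hs y)).le)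
    (fun x y => by
      simp only [DIS_r, Matrix.of_apply]
      rw [Complex.im_mul_ofReal, him, zero_mul])
    (fun x => by
      rw [hre, hre]
      exact mul_le_mul_of_nonneg_right (hdiag x) (mul_pos (hs x) (hs x)).le) ha.le
  have h1 : ∑ i, Real.exp (-(a * max ((DIS_herm D hS).eigenvalues i) 0)) ≤
      ∑ i, Real.exp (-(a * (DIS_herm D hS).eigenvalues i)) := by
    refine Finset.sum_le_sum fun i _ => ?_
    rw [Real.exp_le_exp]
    have := mul_le_mul_of_nonneg_left (le_max_left ((DIS_herm D hS).eigenvalues i) 0) ha.le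
    linarith
  have h2 : ∀ i, 0 ≤ (DIS_herm D hT).eigenvalues i := by
    intro i
    set w : X → ℂ := ⇑((DIS_herm D hT).eigenvectorBasis i) with hw
    have h3 : (DIS_herm D hT).eigenvalues i = qf (DIS_r D T) w := by
      rw [(DIS_herm D hT).eigenvalues_eq i]
      rfl
    have h4 : (fun x => ((√(D x) : ℝ) : ℂ) * ((((√(D x))⁻¹ : ℝ) : ℂ) * w x)) = w := DIS_inv hD w
    rw [h3, ← h4, DIS_qf hD]
    exact hpsd _
  have h5 : ∑ i, Real.exp (-(a * (DIS_herm D hT).eigenvalues i)) =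
      ∑ i, Real.exp (-(a * max ((DIS_herm D hT).eigenvalues i) 0)) := by
    refine Finset.sum_congr rfl fun i _ => ?_
    rw [max_eq_left (h2 i)]
  exact h1.trans (hdom.trans h5.le)

end Pool.Agent.H2.LTM
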