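import Pool.Agent.H2.LTM.SDefs

/-!
# LTM: Lieb–Thirring constants with and without magnetic field. Definitions for the proofs

The statement-level definitions are in `Pool/Agent/H2/LTM/SDefs.lean`.
Every module of the project uses exactly these definitions (do not change them; local auxiliary
definitions and lemmas go into your own module).
-/

open MeasureTheory Complex Set Filter Topology
open scoped ENNReal NNReal ContDiff ComplexConjugate

noncomputable section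

namespace Pool.Agent.H2.LTM

/-! ## Proof-level definitions -/

/-- `Q` is (the diagonal of) a Hermitian form. -/
def IsHF {W : Type*} [AddCommGroup W] [Module ℂ W] (Q : W → ℝ) : Prop :=
  ∃ B : W →ₗ⋆[ℂ] W →ₗ[ℂ] ℂ, (∀ u v, B u v = conj (B v u)) ∧ ∀ u, Q u = (B u u).re

/-- abstract Riesz mean: `q` the form, `q1` the mass form. -/
def rz {W : Type*} [AddCommGroup W] [Module ℂ W] (γ : ℝ) (q q1 : W → ℝ) : ℝ≥0∞ :=
  ∫⁻ E in Ioi (0 : ℝ), ENNReal.ofReal (γ * E ^ (γ - 1)) *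
    ((cnt (fun u => q u + E * q1 u) : ℕ∞) : ℝ≥0∞)

/-- quadratic form of a matrix: `Re v^* M v`. -/
def qf {X : Type*} [Fintype X] (M : Matrix X X ℂ) (v : X → ℂ) : ℝ :=
  (star v ⬝ᵥ M.mulVec v).re

/-- lattice points. -/
abbrev Lt (d : ℕ) := Fin d → ℤ

/-- the box `|x_j| ≤ M` of lattice points. -/
def box (d M : ℕ) : Finset (Lt d) := Fintype.piFinset (fun _ => Finset.Icc (-(M : ℤ)) M)

/-- the point `x/m`. -/
def pt {d : ℕ} (m : ℕ) (x : Lt d) : Sp d := fun j => (x j : ℝ) / m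

/-- extension by zero of a function on the box. -/
def ext {d M : ℕ} (v : box d M → ℂ) : Lt d → ℂ :=
  fun x => if h : x ∈ box d M then v ⟨x, h⟩ else 0

/-- lattice magnetic kinetic energy with phases `θ` (sum over `box (M+1)`; used for functions which
vanish off `box M`, for which this is the full sum over the lattice). -/
def latKin {d : ℕ} (M : ℕ) (θ : Fin d → Lt d → ℝ) (v : Lt d → ℂ) : ℝ :=
  ∑ i, ∑ x ∈ box d (M + 1), ‖Complex.exp (I * (θ i x : ℂ)) * v (x + Pi.single i 1) - v x‖ ^ 2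

/-- matrix of `latKin` on functions on `box M`. -/
def latM (d M : ℕ) (θ : Fin d → Lt d → ℝ) : Matrix (box d M) (box d M) ℂ := fun x y =>
  if x = y then (2 * d : ℂ) else
    ∑ i, ((if (y : Lt d) = (x : Lt d) + Pi.single i 1 then
        -Complex.exp (I * (θ i x : ℂ)) else 0) +
      (if (x : Lt d) = (y : Lt d) + Pi.single i 1 then -Complex.exp (-(I * (θ i y : ℂ))) else 0))

/-- spline data: `φ, ψ ≥ 0` smooth, supported in `[0,3]`, integer translates sum to `1`,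
`φ' = ψ - ψ(· - 1)`. -/
structure Spl (φ ψ : ℝ → ℝ) : Prop where
  smφ : ContDiff ℝ ∞ φ
  smψ : ContDiff ℝ ∞ ψ
  nnφ : ∀ t, 0 ≤ φ t
  nnψ : ∀ t, 0 ≤ ψ t
  suppφ : ∀ t, t ≤ 0 ∨ 3 ≤ t → φ t = 0
  suppψ : ∀ t, t ≤ 0 ∨ 3 ≤ t → ψ t = 0
  sumφ : ∀ t (F : Finset ℤ), (∀ k ∈ Icc (⌊t⌋ - 3) ⌊t⌋, k ∈ F) → ∑ k ∈ F, φ (t - k) = 1
  sumψ : ∀ t (F : Finset ℤ), (∀ k ∈ Icc (⌊t⌋ - 3) ⌊t⌋, k ∈ F) → ∑ k ∈ F, ψ (t - k) = 1
  intφ : ∫ t, φ t = 1
  intψ : ∫ t, ψ t = 1
  der : ∀ t, deriv φ t = ψ t - ψ (t - 1)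

/-- weight `∏_j φ(m y_j - x_j)`. -/
def wgt {d : ℕ} (φ : ℝ → ℝ) (m : ℕ) (x : Lt d) (y : Sp d) : ℝ := ∏ j, φ (m * y j - x j)

/-- weight with `ψ` in the slot `i` and `φ` in the others. -/
def wgtD {d : ℕ} (φ ψ : ℝ → ℝ) (i : Fin d) (m : ℕ) (x : Lt d) (y : Sp d) : ℝ :=
  ψ (m * y i - x i) * ∏ j ∈ Finset.univ.erase i, φ (m * y j - x j)

/-- interpolation of a lattice function. -/
def itp {d M : ℕ} (φ : ℝ → ℝ) (m : ℕ) (v : box d M → ℂ) (y : Sp d) : ℂ :=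
  ∑ x : box d M, v x * (wgt φ m (x : Lt d) y : ℂ)

/-- cell averages of the potential (already with the factor `m^{-d}`). -/
def potW {d : ℕ} (φ : ℝ → ℝ) (m : ℕ) (V : Sp d → ℝ) (x : Lt d) : ℝ := ∫ y, V y * wgt φ m x y

/-- the lattice form: `m^{2-d} kin + E m^{-d} mass - lam pot`. -/
def latForm {d : ℕ} (φ : ℝ → ℝ) (m M : ℕ) (θ : Fin d → Lt d → ℝ) (V : Sp d → ℝ) (E lam : ℝ)
    (v : box d M → ℂ) : ℝ :=
  (m : ℝ) ^ 2 / (m : ℝ) ^ d * latKin M θ (ext v) + E * (1 / (m : ℝ) ^ d * ∑ x, ‖v x‖ ^ 2)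
    - lam * ∑ x : box d M, potW φ m V x * ‖v x‖ ^ 2

/-- sampling of a function at the points `x/m`. -/
def samp {d : ℕ} (m M : ℕ) (u : Sp d → ℂ) : box d M → ℂ := fun x => u (pt m (x : Lt d))

/-- phases of a continuous vector potential. -/
def thA {d : ℕ} (A : Sp d → Sp d) (m : ℕ) : Fin d → Lt d → ℝ := fun i x => A (pt m x) i / m

end Pool.Agent.H2.LTM
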