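import Pool.Agent.H2.LTM.LSC

/-!
# EIG: `cnt` of a Hermitian matrix form

`qf M v - t Σ|v_x|² < 0`: let `b_i` be the orthonormal eigenvector basis
(`Matrix.IsHermitian.eigenvectorBasis`, `hM.mulVec_eigenvectorBasis`), `v = Σ c_i b_i`; then
`Σ_x |v_x|² = Σ |c_i|²` and `qf M v = Σ eig_i |c_i|²`.  Lower bound: the family
`(b_i)_{eig_i < t}` in `le_cnt_iff` (reindex by `Fin card`).  Upper bound: if `u : Fin n → (X → ℂ)`
has `n > card {eig_i < t}`, the linear map `c ↦ (⟨b_i, Σ c_j u_j⟩)_{i : eig_i < t}` from `Fin n → ℂ`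
has a kernel vector `c ≠ 0` (`LinearMap.exists_ne_zero_of_finrank_lt` or rank-nullity), and for
`v = Σ c_j u_j` all coefficients with `eig_i < t` vanish, so `qf M v ≥ t Σ |v_x|²`, contradiction.
(Alternatively transport everything to the diagonal form by the linear equivalence given by the
eigenvector unitary and `cnt_le_cnt` in both directions.)
`isHF_qf`: `B u v = star u ⬝ᵥ M.mulVec v`.
-/

open MeasureTheory Complex Set Filter Topology
open scoped ENNReal NNReal ContDiff ComplexConjugate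

noncomputable section

namespace Pool.Agent.H2.LTM

variable {X : Type*} [Fintype X] [DecidableEq X]

theorem isHF_qf (M : Matrix X X ℂ) (hM : M.IsHermitian) : IsHF (qf M) := by
  refine ⟨LinearMap.mk₂'ₛₗ (starRingEnd ℂ) (RingHom.id ℂ)
    (fun u v => star u ⬝ᵥ M.mulVec v) ?_ ?_ ?_ ?_, ?_, ?_⟩
  · intro u u' v
    rw [star_add, add_dotProduct]
  · intro c u v
    rw [star_smul, smul_dotProduct]
    rfl
  · intro u v v'
    rw [Matrix.mulVec_add, dotProduct_add]
  · intro c u v
    rw [Matrix.mulVec_smul, dotProduct_smul]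
    rfl
  · intro u v
    simp only [LinearMap.mk₂'ₛₗ_apply]
    have h : star (star v ⬝ᵥ M.mulVec u) = star u ⬝ᵥ M.mulVec v := by
      rw [← Matrix.star_dotProduct_star, star_star, Matrix.star_mulVec, hM.eq,
        ← Matrix.dotProduct_mulVec]
    exact h.symm
  · intro u
    rfl

theorem isHF_wsum (w : X → ℝ) : IsHF (fun v : X → ℂ => ∑ x, w x * ‖v x‖ ^ 2) := by
  refine ⟨LinearMap.mk₂'ₛₗ (starRingEnd ℂ) (RingHom.id ℂ)
    (fun u v => ∑ x, (w x : ℂ) * (conj (u x) * v x)) ?_ ?_ ?_ ?_, ?_, ?_⟩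
  · intro u u' v
    rw [← Finset.sum_add_distrib]
    refine Finset.sum_congr rfl fun x _ => ?_
    rw [Pi.add_apply, map_add]
    ring
  · intro c u v
    rw [smul_eq_mul, Finset.mul_sum]
    refine Finset.sum_congr rfl fun x _ => ?_
    rw [Pi.smul_apply, smul_eq_mul, map_mul]
    ring
  · intro u v v'
    rw [← Finset.sum_add_distrib]
    refine Finset.sum_congr rfl fun x _ => ?_
    rw [Pi.add_apply]
    ring
  · intro c u v
    rw [smul_eq_mul, RingHom.id_apply, Finset.mul_sum]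
    refine Finset.sum_congr rfl fun x _ => ?_
    rw [Pi.smul_apply, smul_eq_mul]
    ring
  · intro u v
    simp only [LinearMap.mk₂'ₛₗ_apply]
    rw [map_sum]
    refine Finset.sum_congr rfl fun x _ => ?_
    rw [map_mul, map_mul, Complex.conj_conj, Complex.conj_ofReal]
    ring
  · intro u
    simp only [LinearMap.mk₂'ₛₗ_apply]
    rw [Complex.re_sum]
    refine Finset.sum_congr rfl fun x _ => ?_
    rw [Complex.conj_mul']
    have : ((w x : ℂ) * (‖u x‖ : ℂ) ^ 2) = ((w x * ‖u x‖ ^ 2 : ℝ) : ℂ) := by push_cast; ring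
    rw [this, Complex.ofReal_re]

private theorem EIG_sq (c : X → ℂ) : (star c ⬝ᵥ c).re = ∑ x, ‖c x‖ ^ 2 := by
  rw [dotProduct, Complex.re_sum]
  refine Finset.sum_congr rfl fun x _ => ?_
  have h : star c x * c x = ((‖c x‖ ^ 2 : ℝ) : ℂ) := by
    rw [Pi.star_apply, Complex.star_def, Complex.conj_mul']
    push_cast
    ring
  rw [h, Complex.ofReal_re]

private theorem EIG_diag (M : Matrix X X ℂ) (hM : M.IsHermitian) (t : ℝ) (c : X → ℂ) :
    qf M ((hM.eigenvectorUnitary : Matrix X X ℂ).mulVec c) -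
      t * ∑ x, ‖((hM.eigenvectorUnitary : Matrix X X ℂ).mulVec c) x‖ ^ 2 =
      ∑ i, (hM.eigenvalues i - t) * ‖c i‖ ^ 2 := by
  set U : Matrix X X ℂ := (hM.eigenvectorUnitary : Matrix X X ℂ) with hU
  have hUU : star U * U = 1 := Unitary.coe_star_mul_self hM.eigenvectorUnitary
  have h1 : (∑ x, ‖(U.mulVec c) x‖ ^ 2 : ℝ) = ∑ x, ‖c x‖ ^ 2 := by
    rw [← EIG_sq, ← EIG_sq, Matrix.star_mulVec, ← Matrix.dotProduct_mulVec, Matrix.mulVec_mulVec,
      ← Matrix.star_eq_conjTranspose, hUU, Matrix.one_mulVec]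
  have h2 : star U * M * U = Matrix.diagonal (fun i => (hM.eigenvalues i : ℂ)) := by
    have h := hM.conjStarAlgAut_star_eigenvectorUnitary
    rw [Unitary.conjStarAlgAut_star_apply] at h
    exact h
  have h3 : qf M (U.mulVec c) = ∑ i, hM.eigenvalues i * ‖c i‖ ^ 2 := by
    unfold qf
    rw [Matrix.star_mulVec, ← Matrix.dotProduct_mulVec, Matrix.mulVec_mulVec, Matrix.mulVec_mulVec,
      ← Matrix.star_eq_conjTranspose, h2, dotProduct, Complex.re_sum]
    refine Finset.sum_congr rfl fun x _ => ?_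
    rw [Matrix.mulVec_diagonal, Pi.star_apply, Complex.star_def]
    have : (conj (c x) * ((hM.eigenvalues x : ℂ) * c x)) =
        ((hM.eigenvalues x * ‖c x‖ ^ 2 : ℝ) : ℂ) := by
      rw [mul_left_comm, Complex.conj_mul']
      push_cast
      ring
    rw [this, Complex.ofReal_re]
  rw [h1, h3, Finset.mul_sum, ← Finset.sum_sub_distrib]
  refine Finset.sum_congr rfl fun x _ => ?_
  ring

theorem cnt_qf (M : Matrix X X ℂ) (hM : M.IsHermitian) (t : ℝ) :
    cnt (fun v : X → ℂ => qf M v - t * ∑ x, ‖v x‖ ^ 2) =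
      (((Finset.univ.filter (fun i => hM.eigenvalues i < t)).card : ℕ) : ℕ∞) := by
  classical
  set U : Matrix X X ℂ := (hM.eigenvectorUnitary : Matrix X X ℂ) with hU
  have hUU : U * star U = 1 := Unitary.coe_mul_star_self hM.eigenvectorUnitary
  have hdiag := EIG_diag M hM t
  rw [← hU] at hdiag
  have hinv : ∀ v : X → ℂ, U.mulVec ((star U).mulVec v) = v := fun v => by
    rw [Matrix.mulVec_mulVec, hUU, Matrix.one_mulVec]
  let S := {i : X // hM.eigenvalues i < t}
  let D : (S → ℂ) → ℝ := fun c => ∑ i : S, (hM.eigenvalues i.1 - t) * ‖c i‖ ^ 2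
  have hsub : ∀ f : X → ℝ, ∑ i, f i = ∑ i : S, f i.1 +
      ∑ i ∈ Finset.univ.filter (fun i => ¬ hM.eigenvalues i < t), f i := by
    intro f
    rw [← Finset.sum_filter_add_sum_filter_not Finset.univ (fun i => hM.eigenvalues i < t)]
    congr 1
    rw [Finset.sum_subtype (Finset.univ.filter (fun i => hM.eigenvalues i < t))
      (p := fun i => hM.eigenvalues i < t) (by intro x; simp)]
  have hcard : Module.finrank ℂ (S → ℂ) =
      (Finset.univ.filter (fun i => hM.eigenvalues i < t)).card := by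
    rw [Module.finrank_fintype_fun_eq_card, Fintype.card_subtype]
  rw [← hcard]
  have hQ0 : (0 : ℝ) ≤ qf M 0 - t * ∑ x, ‖(0 : X → ℂ) x‖ ^ 2 := by
    simp [qf]
  have hD0 : (0 : ℝ) ≤ D 0 := by simp [D]
  let E : (S → ℂ) →ₗ[ℂ] (X → ℂ) :=
    { toFun := fun c i => if h : hM.eigenvalues i < t then c ⟨i, h⟩ else 0
      map_add' := by
        intro a b
        ext i
        by_cases h : hM.eigenvalues i < t <;> simp [h]
      map_smul' := by
        intro a b
        ext i
        by_cases h : hM.eigenvalues i < t <;> simp [h] }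
  have hE : ∀ (c : S → ℂ) (i : X), E c i = if h : hM.eigenvalues i < t then c ⟨i, h⟩ else 0 :=
    fun c i => rfl
  apply le_antisymm
  · refine (cnt_le_cnt _ D hQ0 hD0
      ((LinearMap.funLeft ℂ ℂ (Subtype.val : S → X)).comp (star U).mulVecLin) ?_).trans
      (cnt_le_finrank D)
    intro v hv
    have h1 := hdiag ((star U).mulVec v)
    rw [hinv, hsub (fun i => (hM.eigenvalues i - t) * ‖(star U).mulVec v i‖ ^ 2)] at h1
    have h2 : 0 ≤ ∑ i ∈ Finset.univ.filter (fun i => ¬ hM.eigenvalues i < t),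
        (hM.eigenvalues i - t) * ‖(star U).mulVec v i‖ ^ 2 := by
      refine Finset.sum_nonneg fun i hi => ?_
      rw [Finset.mem_filter] at hi
      have := hi.2
      push Not at this
      have h3 : 0 ≤ hM.eigenvalues i - t := by linarith
      positivity
    have h4 : D (((LinearMap.funLeft ℂ ℂ (Subtype.val : S → X)).comp (star U).mulVecLin) v) =
        ∑ i : S, (hM.eigenvalues i.1 - t) * ‖(star U).mulVec v i.1‖ ^ 2 := rfl
    rw [h4]
    linarith
  · have h5 : ((Module.finrank ℂ (S → ℂ) : ℕ) : ℕ∞) ≤ cnt D := by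
      refine le_sSup ⟨⊤, inferInstance, ?_, by rw [finrank_top]⟩
      intro c _ hc
      obtain ⟨i, hi⟩ := Function.ne_iff.1 hc
      have h6 : ∀ j : S, (hM.eigenvalues j.1 - t) * ‖c j‖ ^ 2 ≤ 0 := fun j =>
        mul_nonpos_of_nonpos_of_nonneg (by linarith [j.2]) (by positivity)
      refine Finset.sum_neg' (fun j _ => h6 j) ⟨i, Finset.mem_univ i, ?_⟩
      have h7 : 0 < ‖c i‖ ^ 2 := by
        have : 0 < ‖c i‖ := norm_pos_iff.2 (by simpa using hi)
        positivity
      exact mul_neg_of_neg_of_pos (by linarith [i.2]) h7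
    refine h5.trans (cnt_le_cnt D _ hD0 hQ0 (U.mulVecLin.comp E) ?_)
    intro c hc
    have h1 := hdiag (E c)
    rw [hsub (fun i => (hM.eigenvalues i - t) * ‖E c i‖ ^ 2)] at h1
    have h2 : ∑ i ∈ Finset.univ.filter (fun i => ¬ hM.eigenvalues i < t),
        (hM.eigenvalues i - t) * ‖E c i‖ ^ 2 = 0 := by
      refine Finset.sum_eq_zero fun i hi => ?_
      rw [Finset.mem_filter] at hi
      rw [hE, dif_neg hi.2]
      simp
    have h3 : ∑ i : S, (hM.eigenvalues i.1 - t) * ‖E c i.1‖ ^ 2 = D c := by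
      refine Finset.sum_congr rfl fun i _ => ?_
      rw [hE, dif_pos i.2]
    rw [h2, h3, add_zero] at h1
    show qf M (U.mulVec (E c)) - t * ∑ x, ‖(U.mulVec (E c)) x‖ ^ 2 < 0
    rw [h1]
    exact hc

end Pool.Agent.H2.LTM
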