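import Pool.Agent.H2.LTM.LSC

/-!
# MEA: measurability of the counting function

`(E, lam) ↦ cnt (q0 + E q1 - lam q2)`, viewed in `ℝ≥0∞`, is lower semicontinuous: if `y < cnt z`
(in `ℝ≥0∞`) choose `n : ℕ` with `y < n` and `n ≤ cnt z` (`n = cnt z` if finite, a large `n` if
`cnt z = ⊤`); by `eventually_le_cnt` with `l = 𝓝 z` (the forms depend continuously on `z` pointwise,
`IsHF.add/sub/const_mul`) `n ≤ cnt z'` for `z'` near `z`.  Then `LowerSemicontinuous.measurable`.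
`liminf_cnt`: in `ℝ≥0∞`, if every `n ≤ a` satisfies `n ≤ b_k` eventually then `a ≤ liminf b_k`
(same choice of `n`: `le_liminf_iff` / `le_of_forall_lt`).
-/

open MeasureTheory Complex Set Filter Topology
open scoped ENNReal NNReal ContDiff ComplexConjugate

noncomputable section

namespace Pool.Agent.H2.LTM

variable {W : Type*} [AddCommGroup W] [Module ℂ W]

theorem MEA_exists_nat {a : ℕ∞} {y : ℝ≥0∞} (h : y < (a : ℝ≥0∞)) :
    ∃ n : ℕ, y < (n : ℝ≥0∞) ∧ (n : ℕ∞) ≤ a := by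
  cases a with
  | top =>
    have hy : y ≠ ⊤ := ne_top_of_lt h
    obtain ⟨n, hn⟩ := ENNReal.exists_nat_gt hy
    exact ⟨n, hn, le_top⟩
  | coe n => exact ⟨n, by simpa using h, le_rfl⟩

theorem measurable_cnt (q0 q1 q2 : W → ℝ) (h0 : IsHF q0) (h1 : IsHF q1) (h2 : IsHF q2) :
    Measurable (fun z : ℝ × ℝ =>
      ((cnt (fun u => q0 u + z.1 * q1 u - z.2 * q2 u) : ℕ∞) : ℝ≥0∞)) := by
  refine LowerSemicontinuous.measurable ?_
  intro z y hy
  obtain ⟨n, hn, hna⟩ := MEA_exists_nat hy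
  have hev := eventually_le_cnt (l := 𝓝 z)
    (fun (z : ℝ × ℝ) (u : W) => q0 u + z.1 * q1 u - z.2 * q2 u)
    (fun u => q0 u + z.1 * q1 u - z.2 * q2 u)
    (fun z => (h0.add (h1.const_mul z.1)).sub (h2.const_mul z.2))
    ((h0.add (h1.const_mul z.1)).sub (h2.const_mul z.2))
    (fun u => by
      have : Continuous (fun z : ℝ × ℝ => q0 u + z.1 * q1 u - z.2 * q2 u) := by fun_prop
      exact this.tendsto z) n hna
  filter_upwards [hev] with z' hz'
  refine hn.trans_le ?_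
  exact_mod_cast (ENat.toENNReal_le.2 hz')

theorem le_liminf_of_nat (a : ℕ∞) (b : ℕ → ℕ∞)
    (h : ∀ n : ℕ, (n : ℕ∞) ≤ a → ∀ᶠ k in atTop, (n : ℕ∞) ≤ b k) :
    (a : ℝ≥0∞) ≤ liminf (fun k => ((b k : ℕ∞) : ℝ≥0∞)) atTop := by
  refine le_of_forall_lt fun y hy => ?_
  obtain ⟨n, hn, hna⟩ := MEA_exists_nat hy
  refine hn.trans_le ?_
  refine le_liminf_of_le (by isBoundedDefault) ?_
  filter_upwards [h n hna] with k hk
  exact_mod_cast (ENat.toENNReal_le.2 hk)

end Pool.Agent.H2.LTM
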