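import Pool.Agent.H2.LTM.DIA
import Pool.Agent.H2.LTM.MEA
import Pool.Agent.H2.LTM.LAP

/-!
# FAM: a Riesz mean is approximated by finite orthonormal families

`N E := cnt (q + E q1)` is antitone in `E` (`q1 ≥ 0`).  For `k : ℕ` put `h = 2^{-k}` and
`N_k E := min (N (⌈E/h⌉ h)) (4^k)` for `0 < E ≤ 2^k`, and `0` for `E > 2^k`.  By
`eventually_le_cnt` (forms `q + E_k q1` with `E_k → E`) every `n ≤ N E` satisfies `n ≤ N_k E`
eventually, so by `le_liminf_of_nat` and Fatou (`lintegral_liminf_le`) some `k` has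
`m < ∫⁻ γ E^{γ-1} N_k E`.  Fix it.  For `j = 1, …, J = 4^k` let `E_j = j h` and
`n_j = min (N E_j) 4^k` (finite); choose `u^{(j)} : Fin n_j → W` with
`q + E_j q1 < 0` on nontrivial combinations (`le_cnt_iff`).  Let `G` be the span of all these
vectors (finite dimensional).  For `E ≤ E_j` the restriction of `q + E q1` to `G` has
`cnt ≥ n_j` (`q1 ≥ 0`), so `∫⁻ γ E^{γ-1} cnt_G(q + E q1) ≥ ∫⁻ γ E^{γ-1} N_k E > m`.
On `G` apply `exists_diag` (basis `u`, values `e`): `cnt_G (q + E q1) = #{i : e_i < -E}` (by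
`cnt_qf` for a diagonal matrix, or directly: `≤` is what is needed: if a family of `n` vectors is
negative then `n ≤ #{e_i < -E}`), so by `powint`
`m < Σ_i ofReal ((max (-(e_i)) 0)^γ)`.  Restrict to the indices with `e_i < 0` (reindex by `Fin n'`);
`q (u i) = e i`, and combinations of the subfamily still satisfy `q1 (Σ) = Σ |c_i|²` (extend `c` by
zero).
-/

open MeasureTheory Complex Set Filter Topology
open scoped ENNReal NNReal ContDiff ComplexConjugate

noncomputable section

namespace Pool.Agent.H2.LTM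

variable {W : Type*} [AddCommGroup W] [Module ℂ W]

/-- restriction of a form to a subspace: `cnt` decreases -/
private theorem FAM_incl {q : W → ℝ} (hq : IsHF q) {G G' : Submodule ℂ W} (h : G ≤ G') :
    cnt (fun u : G => q (u : W)) ≤ cnt (fun u : G' => q (u : W)) := by
  apply cnt_le_cnt _ _ _ _ (Submodule.inclusion h)
  · intro u hu
    exact hu
  · show 0 ≤ q ((0 : G) : W)
    rw [Submodule.coe_zero, hq.map_zero]
  · show 0 ≤ q ((0 : G') : W)
    rw [Submodule.coe_zero, hq.map_zero]

/-- the count on a diagonalised finite dimensional space -/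
private theorem FAM_diag [FiniteDimensional ℂ W] {Q : W → ℝ}
    (u : Fin (Module.finrank ℂ W) → W) (e : Fin (Module.finrank ℂ W) → ℝ)
    (hu : LinearIndependent ℂ u)
    (h : ∀ c : Fin (Module.finrank ℂ W) → ℂ, Q (∑ i, c i • u i) = ∑ i, e i * ‖c i‖ ^ 2) :
    cnt Q ≤ (((Finset.univ.filter (fun i => e i < 0)).card : ℕ) : ℕ∞) := by
  classical
  let b := basisOfLinearIndependentOfCardEqFinrank' u hu (by simp)
  have hb : ∀ i, b i = u i := fun i => by
    show basisOfLinearIndependentOfCardEqFinrank' u hu _ i = u i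
    simp
  set S := Finset.univ.filter (fun i => e i < 0) with hS
  let L : W →ₗ[ℂ] (S → ℂ) :=
    { toFun := fun w i => b.repr w i.1
      map_add' := fun x y => by
        funext i
        simp
      map_smul' := fun c x => by
        funext i
        simp }
  have h0 : 0 ≤ Q 0 := by
    have := h 0
    simp only [Pi.zero_apply, zero_smul, Finset.sum_const_zero, norm_zero] at this
    rw [this]
    simp
  have h1 : cnt Q ≤ cnt (fun a : S → ℂ => -∑ i, ‖a i‖ ^ 2) := by
    apply cnt_le_cnt _ _ h0 _ L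
    · intro w hw
      by_contra hcon
      push Not at hcon
      have h2 : ∑ i, ‖L w i‖ ^ 2 = 0 :=
        le_antisymm (by linarith) (Finset.sum_nonneg fun i _ => by positivity)
      have h3 : ∀ i : S, b.repr w i.1 = 0 := by
        intro i
        have h4 := (Finset.sum_eq_zero_iff_of_nonneg (fun i _ => by positivity)).1 h2 i
          (Finset.mem_univ _)
        have h5 : ‖L w i‖ = 0 := by
          exact pow_eq_zero_iff (two_ne_zero) |>.1 h4
        exact norm_eq_zero.1 h5
      have h6 : w = ∑ i, b.repr w i • u i := by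
        conv_lhs => rw [← b.sum_repr w]
        exact Finset.sum_congr rfl fun i _ => by rw [hb]
      have h7 : 0 ≤ Q w := by
        rw [h6, h]
        apply Finset.sum_nonneg
        intro i _
        by_cases hi : e i < 0
        · rw [h3 ⟨i, by rw [hS]; exact Finset.mem_filter.2 ⟨Finset.mem_univ _, hi⟩⟩]
          simp
        · exact mul_nonneg (not_lt.1 hi) (by positivity)
      linarith
    · simp
  refine h1.trans ((cnt_le_finrank _).trans ?_)
  rw [Module.finrank_fintype_fun_eq_card, Fintype.card_coe]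

theorem exists_family {γ : ℝ} (hγ : 0 < γ) (q q1 : W → ℝ) (hq : IsHF q) (hq1 : IsHF q1)
    (pos : ∀ u, u ≠ 0 → 0 < q1 u) {m : ℝ≥0∞} (hm : m < rz γ q q1) :
    ∃ (n : ℕ) (u : Fin n → W), (∀ c : Fin n → ℂ, q1 (∑ i, c i • u i) = ∑ i, ‖c i‖ ^ 2) ∧
      (∀ i, q (u i) < 0) ∧ m < ENNReal.ofReal (∑ i, (-(q (u i))) ^ γ) := by
  classical
  have q1nn : ∀ u, 0 ≤ q1 u := fun u => by
    by_cases h : u = 0
    · rw [h, hq1.map_zero]
    · exact (pos u h).le
  have hqE : ∀ E : ℝ, IsHF (fun u => q u + E * q1 u) := fun E => hq.add (hq1.const_mul E)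
  -- a countable family of finite dimensional subspaces
  let Gp : ℚ × ℕ → Submodule ℂ W := fun p =>
    if h : ∃ u : Fin p.2 → W, ∀ c : Fin p.2 → ℂ, c ≠ 0 →
      (fun u => q u + (p.1 : ℝ) * q1 u) (∑ i, c i • u i) < 0 then
      Submodule.span ℂ (Set.range h.choose) else ⊥
  have hGp : ∀ p, FiniteDimensional ℂ (Gp p) := fun p => by
    by_cases h : ∃ u : Fin p.2 → W, ∀ c : Fin p.2 → ℂ, c ≠ 0 →
      (fun u => q u + (p.1 : ℝ) * q1 u) (∑ i, c i • u i) < 0
    · have e : Gp p = Submodule.span ℂ (Set.range h.choose) := dif_pos h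
      rw [e]
      exact FiniteDimensional.span_of_finite ℂ (Set.finite_range h.choose)
    · have e : Gp p = ⊥ := dif_neg h
      rw [e]
      infer_instance
  let G : Finset (ℚ × ℕ) → Submodule ℂ W := fun s => s.sup Gp
  have hG : ∀ s, FiniteDimensional ℂ (G s) := fun s => by
    show FiniteDimensional ℂ (s.sup Gp : Submodule ℂ W)
    infer_instance
  have hGmono : ∀ s t, s ≤ t → G s ≤ G t := fun s t hst => Finset.sup_mono hst
  -- the counting function is the supremum
  have hsup : ∀ E : ℝ, 0 < E → cnt (fun u => q u + E * q1 u) ≤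
      ⨆ s, cnt (fun u : G s => q (u : W) + E * q1 (u : W)) := by
    intro E hE
    rw [← ENat.forall_natCast_le_iff_le]
    intro n hn
    have h1 := eventually_le_cnt (l := 𝓝[>] E) (fun E' : ℝ => fun u => q u + E' * q1 u)
      (fun u => q u + E * q1 u) hqE (hqE E) (fun u => by
        apply tendsto_nhdsWithin_of_tendsto_nhds
        exact tendsto_const_nhds.add (tendsto_id.mul tendsto_const_nhds)) n hn
    obtain ⟨b, hb, hbs⟩ := (mem_nhdsGT_iff_exists_Ioo_subset).1 h1
    obtain ⟨r, hr1, hr2⟩ := exists_rat_btwn (show E < b from hb)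
    have h2 : (n : ℕ∞) ≤ cnt (fun u => q u + (r : ℝ) * q1 u) := hbs ⟨hr1, hr2⟩
    have h3 : ∃ u : Fin n → W, ∀ c : Fin n → ℂ, c ≠ 0 →
        (fun u => q u + (r : ℝ) * q1 u) (∑ i, c i • u i) < 0 :=
      (le_cnt_iff _ (by rw [(hqE r).map_zero]) n).1 h2
    have h4 : Gp (r, n) = Submodule.span ℂ (Set.range h3.choose) := by
      show dite _ _ _ = _
      rw [dif_pos h3]
    have hmem : ∀ i, h3.choose i ∈ G {(r, n)} := fun i => by
      show h3.choose i ∈ (({(r, n)} : Finset (ℚ × ℕ)).sup Gp : Submodule ℂ W)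
      rw [Finset.sup_singleton, h4]
      exact Submodule.subset_span ⟨i, rfl⟩
    refine le_trans ?_ (le_iSup (fun s => cnt (fun u : G s => q (u : W) + E * q1 (u : W)))
      ({(r, n)} : Finset (ℚ × ℕ)))
    rw [le_cnt_iff _ (by
      show 0 ≤ q ((0 : G {(r, n)}) : W) + E * q1 ((0 : G {(r, n)}) : W)
      rw [Submodule.coe_zero, hq.map_zero, hq1.map_zero]
      simp)]
    refine ⟨fun i => ⟨h3.choose i, hmem i⟩, fun c hc => ?_⟩
    have h5 := h3.choose_spec c hc
    have h6 : (((∑ i, c i • (⟨h3.choose i, hmem i⟩ : G {(r, n)}) : G {(r, n)})) : W) =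
        ∑ i, c i • h3.choose i := by
      simp
    simp only [h6]
    have h7 := q1nn (∑ i, c i • h3.choose i)
    have h8 := mul_le_mul_of_nonneg_right hr1.le h7
    have h9 : q (∑ i, c i • h3.choose i) + (r : ℝ) * q1 (∑ i, c i • h3.choose i) < 0 := h5
    linarith
  -- monotone convergence
  let F : Finset (ℚ × ℕ) → ℝ → ℝ≥0∞ := fun s E => ENNReal.ofReal (γ * E ^ (γ - 1)) *
    ((cnt (fun u : G s => q (u : W) + E * q1 (u : W)) : ℕ∞) : ℝ≥0∞)
  have hFm : ∀ s, Measurable (F s) := by
    intro s
    have h1 := measurable_cnt (fun u : G s => q (u : W)) (fun u : G s => q1 (u : W))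
      (fun u : G s => q1 (u : W)) (hq.comp (G s).subtype) (hq1.comp (G s).subtype)
      (hq1.comp (G s).subtype)
    have h2 : Measurable (fun E : ℝ =>
        ((cnt (fun u : G s => q (u : W) + E * q1 (u : W)) : ℕ∞) : ℝ≥0∞)) := by
      have h3 := h1.comp (measurable_id.prodMk measurable_const : Measurable fun E : ℝ => (E, (0 : ℝ)))
      have h4 : ((fun z : ℝ × ℝ => ((cnt (fun u : G s => q (u : W) + z.1 * q1 (u : W) -
          z.2 * q1 (u : W)) : ℕ∞) : ℝ≥0∞)) ∘ fun E : ℝ => (E, (0 : ℝ))) = fun E : ℝ =>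
          ((cnt (fun u : G s => q (u : W) + E * q1 (u : W)) : ℕ∞) : ℝ≥0∞) := by
        funext E
        simp only [Function.comp_apply, zero_mul, sub_zero]
      rw [← h4]
      exact h3
    exact (ENNReal.measurable_ofReal.comp (measurable_const.mul
      (measurable_id.pow_const (γ - 1)))).mul h2
  have hFd : Directed (· ≤ ·) F := by
    apply Monotone.directed_le
    intro s t hst E
    show ENNReal.ofReal (γ * E ^ (γ - 1)) * _ ≤ ENNReal.ofReal (γ * E ^ (γ - 1)) * _
    gcongr
    exact_mod_cast ENat.toENNReal_le.2 (FAM_incl (hqE E) (hGmono s t hst))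
  have h1 : rz γ q q1 ≤ ⨆ s, ∫⁻ E in Ioi (0 : ℝ), F s E := by
    rw [← lintegral_iSup_directed_of_measurable hFm hFd]
    unfold rz
    apply setLIntegral_mono' measurableSet_Ioi
    intro E hE
    show _ ≤ ⨆ s, ENNReal.ofReal (γ * E ^ (γ - 1)) *
      ((cnt (fun u : G s => q (u : W) + E * q1 (u : W)) : ℕ∞) : ℝ≥0∞)
    rw [← ENNReal.mul_iSup, ← ENat.toENNReal_iSup]
    gcongr
    exact hsup E hE
  obtain ⟨s, hs⟩ := lt_iSup_iff.1 (lt_of_lt_of_le hm h1)
  -- diagonalise on `G s`
  obtain ⟨u, e, hu, hue⟩ := exists_diag (fun u : G s => q (u : W)) (fun u : G s => q1 (u : W))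
    (hq.comp (G s).subtype) (hq1.comp (G s).subtype) (fun u hu => pos _ (by
      intro h
      exact hu (Subtype.ext h)))
  have h2 : m < ENNReal.ofReal (∑ i, (max (-(e i)) 0) ^ γ) := by
    rw [← powint e hγ]
    refine lt_of_lt_of_le hs ?_
    apply setLIntegral_mono' measurableSet_Ioi
    intro E hE
    show ENNReal.ofReal (γ * E ^ (γ - 1)) *
      ((cnt (fun u : G s => q (u : W) + E * q1 (u : W)) : ℕ∞) : ℝ≥0∞) ≤ _
    gcongr
    have h3 := FAM_diag (Q := fun u : G s => q (u : W) + E * q1 (u : W)) u (fun i => e i + E) hu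
      (fun c => by
        have h4 : q1 ((∑ i, c i • u i : G s) : W) = ∑ i, ‖c i‖ ^ 2 := (hue c).1
        have h5 : q ((∑ i, c i • u i : G s) : W) = ∑ i, e i * ‖c i‖ ^ 2 := (hue c).2
        show q ((∑ i, c i • u i : G s) : W) + E * q1 ((∑ i, c i • u i : G s) : W) = _
        rw [h4, h5, Finset.mul_sum, ← Finset.sum_add_distrib]
        exact Finset.sum_congr rfl fun i _ => by ring)
    have h6 : (Finset.univ.filter (fun i => e i + E < 0)) =
        (Finset.univ.filter (fun i => e i < -E)) := by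
      ext i
      simp only [Finset.mem_filter]
      constructor
      · rintro ⟨a, b⟩
        exact ⟨a, by linarith⟩
      · rintro ⟨a, b⟩
        exact ⟨a, by linarith⟩
    rw [h6] at h3
    exact h3
  -- keep the negative values
  let f : Fin (Finset.univ.filter (fun i => e i < 0)).card → Fin (Module.finrank ℂ (G s)) :=
    fun j => ((Finset.univ.filter (fun i => e i < 0)).equivFin.symm j).1
  have hfi : Function.Injective f := fun i j hij =>
    (Finset.univ.filter (fun i => e i < 0)).equivFin.symm.injective (Subtype.ext hij)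
  have hfn : ∀ j, e (f j) < 0 := fun j =>
    (Finset.mem_filter.1 ((Finset.univ.filter (fun i => e i < 0)).equivFin.symm j).2).2
  have hfr : ∀ i, i ∉ Set.range f → 0 ≤ e i := by
    intro i hi
    by_contra hcon
    push Not at hcon
    apply hi
    refine ⟨(Finset.univ.filter (fun i => e i < 0)).equivFin
      ⟨i, Finset.mem_filter.2 ⟨Finset.mem_univ _, hcon⟩⟩, ?_⟩
    show (((Finset.univ.filter (fun i => e i < 0)).equivFin.symm
      ((Finset.univ.filter (fun i => e i < 0)).equivFin _))).1 = i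
    rw [Equiv.symm_apply_apply]
  have hqu : ∀ j, q ((u (f j) : G s) : W) = e (f j) := by
    intro j
    have h3 : q ((∑ i, (Pi.single (f j) (1 : ℂ) : Fin (Module.finrank ℂ (G s)) → ℂ) i • u i : G s) : W) =
        ∑ i, e i * ‖(Pi.single (f j) (1 : ℂ) : Fin (Module.finrank ℂ (G s)) → ℂ) i‖ ^ 2 :=
      (hue (Pi.single (f j) 1)).2
    have h4 : ∑ i, (Pi.single (f j) (1 : ℂ) : Fin (Module.finrank ℂ (G s)) → ℂ) i • u i = u (f j) := by
      rw [Finset.sum_eq_single (f j)]
      · simp
      · intro i _ hi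
        simp [Pi.single_eq_of_ne hi]
      · intro h
        exact absurd (Finset.mem_univ _) h
    rw [h4] at h3
    rw [h3, Finset.sum_eq_single (f j)]
    · simp
    · intro i _ hi
      simp [Pi.single_eq_of_ne hi]
    · intro h
      exact absurd (Finset.mem_univ _) h
  refine ⟨_, fun j => ((u (f j) : G s) : W), fun c => ?_, fun j => ?_, ?_⟩
  · have h3 : q1 ((∑ i, (Function.extend f c 0) i • u i : G s) : W) =
        ∑ i, ‖(Function.extend f c 0) i‖ ^ 2 := (hue (Function.extend f c 0)).1
    have h4 : ∑ j, c j • ((u (f j) : G s) : W) =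
        ((∑ i, (Function.extend f c 0) i • u i : G s) : W) := by
      rw [Submodule.coe_sum]
      apply Fintype.sum_of_injective f hfi
      · intro i hi
        rw [Function.extend_apply' _ _ _ (by simpa using hi)]
        simp
      · intro j
        rw [hfi.extend_apply]
        simp
    rw [h4, h3]
    symm
    apply Fintype.sum_of_injective f hfi
    · intro i hi
      rw [Function.extend_apply' _ _ _ (by simpa using hi)]
      simp
    · intro j
      rw [hfi.extend_apply]
  · show q ((u (f j) : G s) : W) < 0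
    rw [hqu]
    exact hfn j
  · have h3 : ∑ j, (-(q ((u (f j) : G s) : W))) ^ γ = ∑ i, (max (-(e i)) 0) ^ γ := by
      apply Fintype.sum_of_injective f hfi
      · intro i hi
        rw [max_eq_right (by linarith [hfr i hi]), Real.zero_rpow hγ.ne']
      · intro j
        rw [hqu, max_eq_left (by linarith [hfn j])]
    show m < ENNReal.ofReal (∑ j, (-(q ((u (f j) : G s) : W))) ^ γ)
    rw [h3]
    exact h2

end Pool.Agent.H2.LTM
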