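import Pool.Agent.H2.LTM.Defs

/-!
# LIN: the supporting line

`t = (Σ e_i^γ)^{1/γ} > 0`, `b_i = (e_i/t)^{γ-1} > 0`; `Σ b_i e_i = t` and, with `γ' = γ/(γ-1)`,
`Σ b_i^{γ'} = Σ (e_i/t)^γ = 1` if `γ > 1` (if `γ = 1` then `b = 1`).  `s = Σ b_i v_i ≥ Σ b_i e_i = t > 0`,
`l0 = 1 - t/s ∈ [0,1)`, `s (1 - l0) = t`.  For `lam ≥ l0`, `x_i = e_i + (lam-1) v_i`:
`s (lam - l0) = t + (lam - 1) s = Σ b_i x_i ≤ Σ b_i max (x_i) 0 ≤ (Σ (max (x_i) 0)^γ)^{1/γ}` by
Hölder (`Real.inner_le_Lp_mul_Lq`), and `s (lam - l0) ≥ 0`; raise to the power `γ`.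
-/

open MeasureTheory Complex Set Filter Topology
open scoped ENNReal NNReal ContDiff ComplexConjugate

noncomputable section

namespace Pool.Agent.H2.LTM

/-- the dual vector. -/
theorem LIN_dual {γ : ℝ} (hγ : 1 ≤ γ) {n : ℕ} (hn : 0 < n) (e : Fin n → ℝ) (he : ∀ i, 0 < e i) :
    ∃ (t : ℝ) (b : Fin n → ℝ), 0 < t ∧ t ^ γ = ∑ i, e i ^ γ ∧ (∀ i, 0 < b i) ∧
      ∑ i, b i * e i = t ∧ ∀ y : Fin n → ℝ, (∀ i, 0 ≤ y i) →
        ∑ i, b i * y i ≤ (∑ i, y i ^ γ) ^ (1 / γ) := by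
  have hγ0 : 0 < γ := by linarith
  haveI : Nonempty (Fin n) := ⟨⟨0, hn⟩⟩
  have hS : 0 < ∑ i, e i ^ γ := Finset.sum_pos (fun i _ => Real.rpow_pos_of_pos (he i) _)
    Finset.univ_nonempty
  set t : ℝ := (∑ i, e i ^ γ) ^ (1 / γ) with ht
  have ht0 : 0 < t := Real.rpow_pos_of_pos hS _
  have htγ : t ^ γ = ∑ i, e i ^ γ := by
    rw [ht, ← Real.rpow_mul hS.le, one_div, inv_mul_cancel₀ hγ0.ne', Real.rpow_one]
  refine ⟨t, fun i => (e i / t) ^ (γ - 1), ht0, htγ,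
    fun i => Real.rpow_pos_of_pos (div_pos (he i) ht0) _, ?_, ?_⟩
  · have h1 : ∀ i, (e i / t) ^ (γ - 1) * e i = t * ((e i) ^ γ / t ^ γ) := by
      intro i
      have h2 : e i = t * (e i / t) := by field_simp
      have h3 : 0 < e i / t := div_pos (he i) ht0
      have h4 : (e i / t) ^ (γ - 1) * (e i / t) = (e i / t) ^ γ := by
        nth_rewrite 2 [← Real.rpow_one (e i / t)]
        rw [← Real.rpow_add h3]; ring_nf
      calc (e i / t) ^ (γ - 1) * e i = (e i / t) ^ (γ - 1) * (t * (e i / t)) := by rw [← h2]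
        _ = t * ((e i / t) ^ (γ - 1) * (e i / t)) := by ring
        _ = t * ((e i) ^ γ / t ^ γ) := by rw [h4, Real.div_rpow (he i).le ht0.le]
    rw [Finset.sum_congr rfl (fun i _ => h1 i), ← Finset.mul_sum, ← Finset.sum_div, ← htγ,
      div_self (Real.rpow_pos_of_pos ht0 _).ne', mul_one]
  · intro y hy
    rcases eq_or_lt_of_le hγ with h1 | h1
    · subst h1
      simp
    · have hc : (γ / (γ - 1)).HolderConjugate γ := by
        have : γ.HolderConjugate (γ / (γ - 1)) := Real.HolderConjugate.conjExponent h1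
        exact this.symm
      have h := Real.inner_le_Lp_mul_Lq Finset.univ (fun i => (e i / t) ^ (γ - 1)) y hc
      have hb : ∑ i, |(e i / t) ^ (γ - 1)| ^ (γ / (γ - 1)) = 1 := by
        have h2 : ∀ i, |(e i / t) ^ (γ - 1)| ^ (γ / (γ - 1)) = (e i) ^ γ / t ^ γ := by
          intro i
          have h3 : 0 < e i / t := div_pos (he i) ht0
          rw [abs_of_pos (Real.rpow_pos_of_pos h3 _), ← Real.rpow_mul h3.le,
            mul_div_cancel₀ _ (by linarith : γ - 1 ≠ 0), Real.div_rpow (he i).le ht0.le]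
        rw [Finset.sum_congr rfl (fun i _ => h2 i), ← Finset.sum_div, ← htγ,
          div_self (Real.rpow_pos_of_pos ht0 _).ne']
      rw [hb, Real.one_rpow, one_mul] at h
      refine h.trans (le_of_eq ?_)
      congr 1
      exact Finset.sum_congr rfl fun i _ => by rw [abs_of_nonneg (hy i)]

theorem line {γ : ℝ} (hγ : 1 ≤ γ) {n : ℕ} (hn : 0 < n) (e v : Fin n → ℝ) (he : ∀ i, 0 < e i)
    (hv : ∀ i, e i ≤ v i) :
    ∃ s l0 : ℝ, 0 < s ∧ 0 ≤ l0 ∧ l0 < 1 ∧ (s * (1 - l0)) ^ γ = ∑ i, e i ^ γ ∧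
      ∀ lam : ℝ, l0 ≤ lam →
        (s * (lam - l0)) ^ γ ≤ ∑ i, (max (e i + (lam - 1) * v i) 0) ^ γ := by
  obtain ⟨t, b, ht, htγ, hb, hbe, hdual⟩ := LIN_dual hγ hn e he
  have hγ0 : 0 < γ := by linarith
  set s : ℝ := ∑ i, b i * v i with hs
  have hst : t ≤ s := by
    rw [← hbe]
    exact Finset.sum_le_sum fun i _ => mul_le_mul_of_nonneg_left (hv i) (hb i).le
  have hs0 : 0 < s := ht.trans_le hst
  refine ⟨s, 1 - t / s, hs0, ?_, ?_, ?_, ?_⟩
  · rw [sub_nonneg, div_le_one hs0]; exact hst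
  · have : 0 < t / s := div_pos ht hs0
    linarith
  · have : s * (1 - (1 - t / s)) = t := by field_simp; ring
    rw [this, htγ]
  · intro lam hlam
    have hnn : 0 ≤ s * (lam - (1 - t / s)) := mul_nonneg hs0.le (by linarith)
    have h1 : s * (lam - (1 - t / s)) = ∑ i, b i * (e i + (lam - 1) * v i) := by
      have : ∑ i, b i * (e i + (lam - 1) * v i) = t + (lam - 1) * s := by
        rw [← hbe, hs, Finset.mul_sum, ← Finset.sum_add_distrib]
        exact Finset.sum_congr rfl fun i _ => by ring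
      rw [this]; field_simp; ring
    have h2 : ∑ i, b i * (e i + (lam - 1) * v i) ≤
        ∑ i, b i * max (e i + (lam - 1) * v i) 0 :=
      Finset.sum_le_sum fun i _ => mul_le_mul_of_nonneg_left (le_max_left _ _) (hb i).le
    have h3 := hdual (fun i => max (e i + (lam - 1) * v i) 0) (fun i => le_max_right _ _)
    have h4 : s * (lam - (1 - t / s)) ≤
        (∑ i, (max (e i + (lam - 1) * v i) 0) ^ γ) ^ (1 / γ) := by
      rw [h1]; exact h2.trans h3
    have hS : 0 ≤ ∑ i, (max (e i + (lam - 1) * v i) 0) ^ γ :=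
      Finset.sum_nonneg fun i _ => Real.rpow_nonneg (le_max_right _ _) _
    calc (s * (lam - (1 - t / s))) ^ γ
        ≤ ((∑ i, (max (e i + (lam - 1) * v i) 0) ^ γ) ^ (1 / γ)) ^ γ :=
          Real.rpow_le_rpow hnn h4 hγ0.le
      _ = _ := by
          rw [← Real.rpow_mul hS, one_div, inv_mul_cancel₀ hγ0.ne', Real.rpow_one]

end Pool.Agent.H2.LTM
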