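import Pool.Agent.H2.LTM.Defs

/-!
# OPT: the one-variable optimisations

`opt1` (take `a = p` in the hypothesis, here `hK`):
`∫_{lam > l0} p e^{-p lam} (s (lam - l0))^γ d lam = s^γ e^{-p l0} Γ(γ+1) p^{-γ}` (translate,
`Real.integral_rpow_mul_exp_neg_mul_Ioi`).  So `s^γ e^{-p l0} Γ(γ+1) p^{-γ} ≤ C Γ(p+1) p^{-p}`
(in `ℝ≥0∞`).  Multiply by `(1-l0)^γ e^{p l0} p^γ/Γ(γ+1)` and use
`(1-x)^γ e^{p x} ≤ (γ/p)^γ e^{p-γ}` for `0 ≤ x < 1`: with `y = 1 - x`, `log`: `γ log y + p (1-y) ≤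
γ log (γ/p) + p - γ` iff `log (y p/γ) ≤ y p/γ - 1` (`Real.log_le_sub_one_of_pos`).
`opt2`: `G lam ≥ ofReal (lam^γ) M1` for `lam ≥ 1`, and
`∫_1^∞ a e^{-a lam} lam^γ d lam = a^{-γ} ∫_a^∞ t^γ e^{-t} dt` (substitution `t = a lam`,
`integral_comp_mul_left_Ioi`).  So `a^{-γ} J M1 ≤ C Γ(p+1) a^{-p}`, `J = ∫_a^∞ t^γ e^{-t} dt > 0`.
-/

open MeasureTheory Complex Set Filter Topology
open scoped ENNReal NNReal ContDiff ComplexConjugate

noncomputable section

namespace Pool.Agent.H2.LTM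

theorem OPT_exp {γ p x : ℝ} (hγ : 0 < γ) (hp : 0 < p) (hx : x < 1) :
    (1 - x) ^ γ * Real.exp (p * x) ≤ γ ^ γ * Real.exp (p - γ) / p ^ γ := by
  have hy : 0 < 1 - x := by linarith
  have h1 : Real.log ((1 - x) * p / γ) ≤ (1 - x) * p / γ - 1 :=
    Real.log_le_sub_one_of_pos (by positivity)
  rw [Real.log_div (by positivity) hγ.ne', Real.log_mul hy.ne' hp.ne'] at h1
  have h2 : γ * (Real.log (1 - x) + Real.log p - Real.log γ) ≤ (1 - x) * p - γ := by
    have h3 := mul_le_mul_of_nonneg_left h1 hγ.le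
    have h4 : γ * ((1 - x) * p / γ - 1) = (1 - x) * p - γ := by field_simp
    linarith
  rw [le_div_iff₀ (Real.rpow_pos_of_pos hp γ), Real.rpow_def_of_pos hy, Real.rpow_def_of_pos hp,
    Real.rpow_def_of_pos hγ, ← Real.exp_add, ← Real.exp_add, ← Real.exp_add]
  apply Real.exp_le_exp.mpr
  nlinarith

theorem opt1 {γ p : ℝ} (hγ : 1 ≤ γ) (hp : γ ≤ p) {s l0 : ℝ} (hs : 0 < s) (hl : 0 ≤ l0)
    (hl1 : l0 < 1) {C : ℝ≥0∞} (G : ℝ → ℝ≥0∞)
    (hG : ∀ lam : ℝ, l0 ≤ lam → 0 < lam → ENNReal.ofReal ((s * (lam - l0)) ^ γ) ≤ G lam)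
    (hK : ∫⁻ lam in Ioi (0 : ℝ), ENNReal.ofReal (p * Real.exp (-(p * lam))) * G lam ≤
      C * ENNReal.ofReal (Real.Gamma (p + 1) * p ^ (-p))) :
    ENNReal.ofReal ((s * (1 - l0)) ^ γ) ≤
      ENNReal.ofReal (Real.exp (p - γ) * γ ^ γ * Real.Gamma (p + 1) /
        (p ^ p * Real.Gamma (γ + 1))) * C := by
  have hp0 : 0 < p := by linarith
  have hγ0 : 0 < γ := by linarith
  have hG1 : 0 < Real.Gamma (γ + 1) := Real.Gamma_pos_of_pos (by linarith)
  have hG2 : 0 < Real.Gamma (p + 1) := Real.Gamma_pos_of_pos (by linarith)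
  have hsγ : 0 < s ^ γ := Real.rpow_pos_of_pos hs γ
  have hpγ : 0 < p ^ γ := Real.rpow_pos_of_pos hp0 γ
  have hpp : 0 < p ^ p := Real.rpow_pos_of_pos hp0 p
  -- the Gamma integral
  set g : ℝ → ℝ := fun u => p * Real.exp (-(p * l0)) * s ^ γ * (u ^ γ * Real.exp (-(p * u)))
    with hg
  have hint0 : ∫ t : ℝ in Ioi 0, t ^ γ * Real.exp (-(p * t)) =
      (1 / p) ^ (γ + 1) * Real.Gamma (γ + 1) := by
    have := Real.integral_rpow_mul_exp_neg_mul_Ioi (a := γ + 1) (r := p) (by linarith) hp0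
    rwa [add_sub_cancel_right] at this
  have hpos0 : 0 < (1 / p) ^ (γ + 1) * Real.Gamma (γ + 1) :=
    mul_pos (Real.rpow_pos_of_pos (by positivity) _) hG1
  have hI0 : IntegrableOn (fun t : ℝ => t ^ γ * Real.exp (-(p * t))) (Ioi 0) := by
    by_contra hcon
    have := integral_undef hcon
    rw [hint0] at this
    linarith
  have hgi : ∫⁻ u in Ioi (0 : ℝ), ENNReal.ofReal (g u) =
      ENNReal.ofReal (s ^ γ * Real.exp (-(p * l0)) * Real.Gamma (γ + 1) / p ^ γ) := by
    rw [← ofReal_integral_eq_lintegral_ofReal]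
    · congr 1
      rw [hg, integral_const_mul, hint0, one_div, Real.inv_rpow hp0.le, Real.rpow_add hp0,
        Real.rpow_one]
      field_simp
    · exact hI0.const_mul _
    · refine (ae_restrict_iff' measurableSet_Ioi).2 (Filter.Eventually.of_forall fun u hu => ?_)
      have hu0 : (0 : ℝ) < u := hu
      show 0 ≤ g u
      rw [hg]
      positivity
  -- translation
  have htr : ∫⁻ lam in Ioi l0, ENNReal.ofReal (g (lam - l0)) =
      ∫⁻ u in Ioi (0 : ℝ), ENNReal.ofReal (g u) := by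
    have hm : Measurable (fun u => ENNReal.ofReal (g u)) := by
      rw [hg]
      fun_prop
    have h1 := (measurePreserving_sub_right volume l0).setLIntegral_comp_preimage
      (measurableSet_Ioi (a := (0 : ℝ))) hm
    have h2 : (fun x : ℝ => x - l0) ⁻¹' Ioi 0 = Ioi l0 := by
      ext x
      simp
    rw [h2] at h1
    exact h1
  have hlow : ∫⁻ lam in Ioi l0, ENNReal.ofReal (g (lam - l0)) ≤
      ∫⁻ lam in Ioi (0 : ℝ), ENNReal.ofReal (p * Real.exp (-(p * lam))) * G lam := by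
    refine le_trans ?_ (lintegral_mono_set (Ioi_subset_Ioi hl))
    refine setLIntegral_mono_ae' measurableSet_Ioi (Filter.Eventually.of_forall fun lam hlam => ?_)
    have h1 : l0 < lam := hlam
    have h2 : g (lam - l0) = p * Real.exp (-(p * lam)) * (s * (lam - l0)) ^ γ := by
      rw [hg]
      simp only
      rw [Real.mul_rpow hs.le (by linarith)]
      have h3 : Real.exp (-(p * lam)) = Real.exp (-(p * l0)) * Real.exp (-(p * (lam - l0))) := by
        rw [← Real.exp_add]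
        congr 1
        ring
      rw [h3]
      ring
    rw [h2, ENNReal.ofReal_mul (by positivity)]
    gcongr
    exact hG lam h1.le (by linarith)
  have hX : ENNReal.ofReal (s ^ γ * Real.exp (-(p * l0)) * Real.Gamma (γ + 1) / p ^ γ) ≤
      C * ENNReal.ofReal (Real.Gamma (p + 1) * p ^ (-p)) := by
    rw [← hgi, ← htr]
    exact hlow.trans hK
  -- conclusion
  have hE := OPT_exp hγ0 hp0 hl1
  have h1 : (s * (1 - l0)) ^ γ ≤ (γ ^ γ * Real.exp (p - γ) / Real.Gamma (γ + 1)) *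
      (s ^ γ * Real.exp (-(p * l0)) * Real.Gamma (γ + 1) / p ^ γ) := by
    rw [Real.mul_rpow hs.le (by linarith)]
    have h2 : (γ ^ γ * Real.exp (p - γ) / Real.Gamma (γ + 1)) *
        (s ^ γ * Real.exp (-(p * l0)) * Real.Gamma (γ + 1) / p ^ γ) =
        s ^ γ * Real.exp (-(p * l0)) * (γ ^ γ * Real.exp (p - γ) / p ^ γ) := by
      field_simp
    rw [h2]
    have h3 : s ^ γ * (1 - l0) ^ γ =
        s ^ γ * Real.exp (-(p * l0)) * ((1 - l0) ^ γ * Real.exp (p * l0)) := by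
      have h4 : Real.exp (-(p * l0)) * Real.exp (p * l0) = 1 := by
        rw [← Real.exp_add]
        simp
      calc s ^ γ * (1 - l0) ^ γ = s ^ γ * (1 - l0) ^ γ *
            (Real.exp (-(p * l0)) * Real.exp (p * l0)) := by rw [h4, mul_one]
        _ = _ := by ring
    rw [h3]
    exact mul_le_mul_of_nonneg_left hE (by positivity)
  have hγγ : 0 < γ ^ γ := Real.rpow_pos_of_pos hγ0 γ
  calc ENNReal.ofReal ((s * (1 - l0)) ^ γ)
      ≤ ENNReal.ofReal ((γ ^ γ * Real.exp (p - γ) / Real.Gamma (γ + 1)) *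
      (s ^ γ * Real.exp (-(p * l0)) * Real.Gamma (γ + 1) / p ^ γ)) := ENNReal.ofReal_le_ofReal h1
    _ = ENNReal.ofReal (γ ^ γ * Real.exp (p - γ) / Real.Gamma (γ + 1)) *
      ENNReal.ofReal (s ^ γ * Real.exp (-(p * l0)) * Real.Gamma (γ + 1) / p ^ γ) :=
        ENNReal.ofReal_mul (by positivity)
    _ ≤ ENNReal.ofReal (γ ^ γ * Real.exp (p - γ) / Real.Gamma (γ + 1)) *
      (C * ENNReal.ofReal (Real.Gamma (p + 1) * p ^ (-p))) := by gcongr
    _ = ENNReal.ofReal (γ ^ γ * Real.exp (p - γ) / Real.Gamma (γ + 1)) *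
      ENNReal.ofReal (Real.Gamma (p + 1) * p ^ (-p)) * C := by ring
    _ = ENNReal.ofReal (Real.exp (p - γ) * γ ^ γ * Real.Gamma (p + 1) /
        (p ^ p * Real.Gamma (γ + 1))) * C := by
      rw [← ENNReal.ofReal_mul (by positivity)]
      congr 2
      rw [Real.rpow_neg hp0.le]
      field_simp

theorem opt2 {γ p a : ℝ} (hγ : 0 < γ) (hp : γ ≤ p) (ha : 0 < a) {C M1 : ℝ≥0∞} (G : ℝ → ℝ≥0∞)
    (hG : ∀ lam : ℝ, 1 ≤ lam → ENNReal.ofReal (lam ^ γ) * M1 ≤ G lam)
    (hK : ∫⁻ lam in Ioi (0 : ℝ), ENNReal.ofReal (a * Real.exp (-(a * lam))) * G lam ≤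
      C * ENNReal.ofReal (Real.Gamma (p + 1) * a ^ (-p))) :
    M1 ≤ ENNReal.ofReal (Real.Gamma (p + 1) * a ^ (γ - p) /
      ∫ t in Ioi a, t ^ γ * Real.exp (-t)) * C := by
  have hG2 : 0 < Real.Gamma (p + 1) := Real.Gamma_pos_of_pos (by linarith)
  have haγ : 0 < a ^ γ := Real.rpow_pos_of_pos ha γ
  set g : ℝ → ℝ := fun t => t ^ γ * Real.exp (-t) with hg
  have hgI : IntegrableOn g (Ioi 0) := by
    have h1 := Real.GammaIntegral_convergent (s := γ + 1) (by linarith)
    refine h1.congr_fun (fun t _ => ?_) measurableSet_Ioi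
    simp only [hg, add_sub_cancel_right]
    ring
  have hga : IntegrableOn g (Ioi a) := hgI.mono_set (Ioi_subset_Ioi ha.le)
  have hgpos : ∀ t ∈ Ioi a, 0 < g t := by
    intro t ht
    have ht0 : 0 < t := ha.trans ht
    exact mul_pos (Real.rpow_pos_of_pos ht0 γ) (Real.exp_pos _)
  have hJ : 0 < ∫ t in Ioi a, g t := by
    rw [setIntegral_pos_iff_support_of_nonneg_ae]
    · have h1 : Function.support g ∩ Ioi a = Ioi a := by
        apply Set.inter_eq_right.mpr
        intro t ht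
        exact (hgpos t ht).ne'
      rw [h1, Real.volume_Ioi]
      exact ENNReal.zero_lt_top
    · refine (ae_restrict_iff' measurableSet_Ioi).2 (Filter.Eventually.of_forall fun t ht => ?_)
      exact (hgpos t ht).le
    · exact hga
  set J := ∫ t in Ioi a, g t with hJd
  -- the scaled integral
  have hgs : IntegrableOn (fun lam => g (a * lam)) (Ioi 1) := by
    rw [integrableOn_Ioi_comp_mul_left_iff g 1 ha, mul_one]
    exact hga
  have hgi : ∫ lam in Ioi (1 : ℝ), g (a * lam) = a⁻¹ * J := by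
    rw [integral_comp_mul_left_Ioi g 1 ha, mul_one, smul_eq_mul]
  have hlow : ENNReal.ofReal (J / a ^ γ) * M1 ≤
      ∫⁻ lam in Ioi (0 : ℝ), ENNReal.ofReal (a * Real.exp (-(a * lam))) * G lam := by
    refine le_trans ?_ (lintegral_mono_set (Ioi_subset_Ioi zero_le_one))
    have h1 : ENNReal.ofReal (J / a ^ γ) =
        ∫⁻ lam in Ioi (1 : ℝ), ENNReal.ofReal (a / a ^ γ * g (a * lam)) := by
      rw [← ofReal_integral_eq_lintegral_ofReal]
      · congr 1
        rw [integral_const_mul, hgi]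
        field_simp
      · exact hgs.const_mul _
      · refine (ae_restrict_iff' measurableSet_Ioi).2 (Filter.Eventually.of_forall fun t ht => ?_)
        have ht1 : (1 : ℝ) < t := ht
        have h2 : a < a * t := by nlinarith
        have h3 := hgpos _ h2
        show 0 ≤ a / a ^ γ * g (a * t)
        positivity
    rw [h1, ← lintegral_mul_const _ (by rw [hg]; fun_prop)]
    refine setLIntegral_mono_ae' measurableSet_Ioi (Filter.Eventually.of_forall fun lam hlam => ?_)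
    have h2 : (1 : ℝ) < lam := hlam
    have h3 : a / a ^ γ * g (a * lam) = a * Real.exp (-(a * lam)) * lam ^ γ := by
      rw [hg]
      simp only
      rw [Real.mul_rpow ha.le (by linarith)]
      field_simp
    rw [h3, ENNReal.ofReal_mul (by positivity), mul_assoc]
    gcongr
    exact hG lam h2.le
  have hX := hlow.trans hK
  have h1 : M1 = ENNReal.ofReal (a ^ γ / J) * (ENNReal.ofReal (J / a ^ γ) * M1) := by
    rw [← mul_assoc, ← ENNReal.ofReal_mul (by positivity)]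
    have h2 : a ^ γ / J * (J / a ^ γ) = 1 := by field_simp
    rw [h2, ENNReal.ofReal_one, one_mul]
  calc M1 = ENNReal.ofReal (a ^ γ / J) * (ENNReal.ofReal (J / a ^ γ) * M1) := h1
    _ ≤ ENNReal.ofReal (a ^ γ / J) * (C * ENNReal.ofReal (Real.Gamma (p + 1) * a ^ (-p))) := by
        gcongr
    _ = ENNReal.ofReal (a ^ γ / J) * ENNReal.ofReal (Real.Gamma (p + 1) * a ^ (-p)) * C := by ring
    _ = ENNReal.ofReal (Real.Gamma (p + 1) * a ^ (γ - p) / J) * C := by
        rw [← ENNReal.ofReal_mul (by positivity)]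
        congr 2
        rw [sub_eq_add_neg, Real.rpow_add ha]
        ring

end Pool.Agent.H2.LTM
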