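import Pool.Agent.H2.LTM.EIG
import Pool.Agent.H2.LTM.LAP

/-!
# PEI: Peierls inequality

By `IsHF.exists_matrix` there is a Hermitian `X : Matrix (Fin n) (Fin n) ℂ` with
`q (Σ c_i u_i) = qf X c`, `(X i i).re = q (u i)`.  For `E > 0`,
`(q + E q1)(Σ c_i u_i) = qf X c - (-E) Σ |c_i|²`, so by `cnt_le_cnt` with `L c = Σ c_i u_i` and
`cnt_qf`, `#{k : η_k < -E} ≤ cnt (q + E q1)` with `η = eigenvalues`.  Hence by `powint`
`ofReal Σ_k (max (-η_k) 0)^γ ≤ rz γ q q1`.  Finally `X i i = Σ_k |U_ik|² η_k` with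
`U` the eigenvector unitary, `Σ_k |U_ik|² = 1 = Σ_i |U_ik|²`; `t ↦ (max (-t) 0)^γ` is convex for
`γ ≥ 1` (`convexOn_rpow` composed with the convex nonnegative `max (-t) 0`), so Jensen gives
`Σ_i (max (-(X i i)) 0)^γ ≤ Σ_i Σ_k |U_ik|² (max (-η_k) 0)^γ = Σ_k (max (-η_k) 0)^γ`.
-/

open MeasureTheory Complex Set Filter Topology
open scoped ENNReal NNReal ContDiff ComplexConjugate

noncomputable section

namespace Pool.Agent.H2.LTM

variable {W : Type*} [AddCommGroup W] [Module ℂ W]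

/-- diagonal entries of a Hermitian matrix in terms of the eigenvalues -/
private theorem PEI_diag {n : ℕ} (X : Matrix (Fin n) (Fin n) ℂ) (hX : X.IsHermitian) :
    ∃ P : Fin n → Fin n → ℝ, (∀ i k, 0 ≤ P i k) ∧ (∀ i, ∑ k, P i k = 1) ∧ (∀ k, ∑ i, P i k = 1) ∧
      ∀ i, (X i i).re = ∑ k, P i k * hX.eigenvalues k := by
  set U : Matrix (Fin n) (Fin n) ℂ := (hX.eigenvectorUnitary : Matrix (Fin n) (Fin n) ℂ) with hU
  have h1 : U * star U = 1 := Unitary.mul_star_self_of_mem hX.eigenvectorUnitary.2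
  have h2 : star U * U = 1 := Unitary.star_mul_self_of_mem hX.eigenvectorUnitary.2
  have h3 : X = U * Matrix.diagonal (fun k => (hX.eigenvalues k : ℂ)) * star U := by
    conv_lhs => rw [hX.spectral_theorem, Unitary.conjStarAlgAut_apply]
    rfl
  have hsq : ∀ z : ℂ, z * star z = ((‖z‖ ^ 2 : ℝ) : ℂ) := by
    intro z
    rw [Complex.star_def, Complex.mul_conj, Complex.normSq_eq_norm_sq]
  refine ⟨fun i k => ‖U i k‖ ^ 2, fun i k => sq_nonneg _, fun i => ?_, fun k => ?_, fun i => ?_⟩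
  · have h := congrFun (congrFun h1 i) i
    rw [Matrix.mul_apply, Matrix.one_apply_eq] at h
    have h' : ((∑ k, ‖U i k‖ ^ 2 : ℝ) : ℂ) = 1 := by
      rw [← h, Complex.ofReal_sum]
      refine Finset.sum_congr rfl fun k _ => ?_
      rw [Matrix.star_apply, hsq]
    exact_mod_cast h'
  · have h := congrFun (congrFun h2 k) k
    rw [Matrix.mul_apply, Matrix.one_apply_eq] at h
    have h' : ((∑ i, ‖U i k‖ ^ 2 : ℝ) : ℂ) = 1 := by
      rw [← h, Complex.ofReal_sum]
      refine Finset.sum_congr rfl fun i _ => ?_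
      rw [Matrix.star_apply, mul_comm, hsq]
    exact_mod_cast h'
  · have h := congrFun (congrFun h3 i) i
    rw [Matrix.mul_apply] at h
    have h' : X i i = ((∑ k, ‖U i k‖ ^ 2 * hX.eigenvalues k : ℝ) : ℂ) := by
      rw [h, Complex.ofReal_sum]
      refine Finset.sum_congr rfl fun k _ => ?_
      rw [Matrix.mul_diagonal, Matrix.star_apply, Complex.ofReal_mul, ← hsq]
      ring
    rw [h', Complex.ofReal_re]

/-- Jensen for the negative part -/
private theorem PEI_jensen {γ : ℝ} (hγ : 1 ≤ γ) {n : ℕ} (P : Fin n → Fin n → ℝ)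
    (h0 : ∀ i k, 0 ≤ P i k) (h1 : ∀ i, ∑ k, P i k = 1) (h2 : ∀ k, ∑ i, P i k = 1)
    (η : Fin n → ℝ) :
    ∑ i, (max (-(∑ k, P i k * η k)) 0) ^ γ ≤ ∑ k, (max (-(η k)) 0) ^ γ := by
  have key : ∀ i, (max (-(∑ k, P i k * η k)) 0) ^ γ ≤ ∑ k, P i k * (max (-(η k)) 0) ^ γ := by
    intro i
    have e1 : max (-(∑ k, P i k * η k)) 0 ≤ ∑ k, P i k * max (-(η k)) 0 := by
      refine max_le ?_ (Finset.sum_nonneg fun k _ => mul_nonneg (h0 i k) (le_max_right _ _))
      rw [← Finset.sum_neg_distrib]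
      refine Finset.sum_le_sum fun k _ => ?_
      rw [← mul_neg]
      exact mul_le_mul_of_nonneg_left (le_max_left _ _) (h0 i k)
    refine (Real.rpow_le_rpow (le_max_right _ _) e1 (by linarith)).trans ?_
    exact Real.rpow_arith_mean_le_arith_mean_rpow Finset.univ (P i) (fun k => max (-(η k)) 0)
      (fun k _ => h0 i k) (h1 i) (fun k _ => le_max_right _ _) hγ
  calc ∑ i, (max (-(∑ k, P i k * η k)) 0) ^ γ ≤ ∑ i, ∑ k, P i k * (max (-(η k)) 0) ^ γ :=
        Finset.sum_le_sum fun i _ => key i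
    _ = ∑ k, (∑ i, P i k) * (max (-(η k)) 0) ^ γ := by
        rw [Finset.sum_comm]
        exact Finset.sum_congr rfl fun k _ => (Finset.sum_mul _ _ _).symm
    _ = ∑ k, (max (-(η k)) 0) ^ γ := by
        refine Finset.sum_congr rfl fun k _ => ?_
        rw [h2 k, one_mul]

theorem peierls {γ : ℝ} (hγ : 1 ≤ γ) (q q1 : W → ℝ) (hq : IsHF q) (hq1 : IsHF q1) {n : ℕ}
    (u : Fin n → W) (hu : ∀ c : Fin n → ℂ, q1 (∑ i, c i • u i) = ∑ i, ‖c i‖ ^ 2) :
    ENNReal.ofReal (∑ i, (max (-(q (u i))) 0) ^ γ) ≤ rz γ q q1 := by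
  obtain ⟨X, hX, hd, hqX⟩ := hq.exists_matrix u
  obtain ⟨P, hP0, hP1, hP2, hPd⟩ := PEI_diag X hX
  have hJ : ∑ i, (max (-(q (u i))) 0) ^ γ ≤ ∑ k, (max (-(hX.eigenvalues k)) 0) ^ γ := by
    have h := PEI_jensen hγ P hP0 hP1 hP2 hX.eigenvalues
    refine le_trans (le_of_eq ?_) h
    refine Finset.sum_congr rfl fun i _ => ?_
    rw [← hd i, hPd i]
  refine (ENNReal.ofReal_le_ofReal hJ).trans ?_
  rw [← powint hX.eigenvalues (by linarith : (0:ℝ) < γ)]
  unfold rz
  refine setLIntegral_mono' measurableSet_Ioi fun E hE => ?_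
  refine mul_le_mul_right ?_ _
  have hc : (((Finset.univ.filter (fun i => hX.eigenvalues i < -E)).card : ℕ) : ℕ∞) ≤
      cnt (fun w => q w + E * q1 w) := by
    rw [← cnt_qf X hX (-E)]
    refine cnt_le_cnt _ _ ?_ ?_ (Fintype.linearCombination ℂ u) ?_
    · have h := (isHF_qf X hX).map_zero
      simp [h]
    · have h := hq.map_zero
      have h' := hq1.map_zero
      simp [h, h']
    · intro c hc
      rw [Fintype.linearCombination_apply, hqX c, hu c]
      linarith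
  exact_mod_cast hc

end Pool.Agent.H2.LTM
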