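import Pool.Agent.H2.LTM.CNT

/-!
# SCL: scaling of Riesz means

`k - lam p + E q1 ≤ lam (k - p + (E/lam) q1)` (`lam ≥ 1`, `k ≥ 0`), and `cnt` is unchanged by the
positive factor `lam` (`cnt_mono`), so `cnt (k - p + (E/lam) q1) ≤ cnt (k - lam p + E q1)`.
Substitute `E = lam E'` in the integral:
`∫_0^∞ γ E^{γ-1} N(E/lam) dE = lam^γ ∫_0^∞ γ E'^{γ-1} N(E') dE'`.
-/

open MeasureTheory Complex Set Filter Topology
open scoped ENNReal NNReal ContDiff ComplexConjugate

noncomputable section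

namespace Pool.Agent.H2.LTM

variable {W : Type*} [AddCommGroup W] [Module ℂ W]

theorem SCL_subst {c : ℝ} (hc : 0 < c) (F : ℝ → ℝ≥0∞) :
    ∫⁻ E in Ioi (0 : ℝ), F E = ENNReal.ofReal c * ∫⁻ E in Ioi (0 : ℝ), F (c * E) := by
  have hemb : MeasurableEmbedding (fun x : ℝ => c * x) :=
    (Homeomorph.mulLeft₀ c hc.ne').measurableEmbedding
  have hmap : Measure.map (fun x : ℝ => c * x) volume = ENNReal.ofReal |c⁻¹| • volume :=
    Real.map_volume_mul_left hc.ne'
  have h1 : ∫⁻ E, (Ioi (0 : ℝ)).indicator F (c * E) =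
      ENNReal.ofReal |c⁻¹| * ∫⁻ E, (Ioi (0 : ℝ)).indicator F E := by
    rw [← hemb.lintegral_map, hmap, lintegral_smul_measure]
    rfl
  have h2 : ∀ E, (Ioi (0 : ℝ)).indicator F (c * E) =
      (Ioi (0 : ℝ)).indicator (fun E => F (c * E)) E := by
    intro E
    by_cases hE : 0 < E
    · have : 0 < c * E := mul_pos hc hE
      rw [indicator_of_mem (show c * E ∈ Ioi (0 : ℝ) from this),
        indicator_of_mem (show E ∈ Ioi (0 : ℝ) from hE)]
    · have : ¬ (0 < c * E) := by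
        intro h
        exact hE (pos_of_mul_pos_right h hc.le)
      rw [indicator_of_notMem (show c * E ∉ Ioi (0 : ℝ) from this),
        indicator_of_notMem (show E ∉ Ioi (0 : ℝ) from hE)]
  rw [lintegral_congr h2, lintegral_indicator measurableSet_Ioi,
    lintegral_indicator measurableSet_Ioi] at h1
  rw [h1, ← mul_assoc, ← ENNReal.ofReal_mul hc.le, abs_of_pos (inv_pos.2 hc),
    mul_inv_cancel₀ hc.ne', ENNReal.ofReal_one, one_mul]

theorem rz_scale {γ : ℝ} (hγ : 0 < γ) (k p q1 : W → ℝ) (hk : ∀ u, 0 ≤ k u) {lam : ℝ}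
    (hlam : 1 ≤ lam) :
    ENNReal.ofReal (lam ^ γ) * rz γ (fun u => k u - p u) q1 ≤
      rz γ (fun u => k u - lam * p u) q1 := by
  have hl : 0 < lam := by linarith
  unfold rz
  rw [SCL_subst hl (fun E => ENNReal.ofReal (γ * E ^ (γ - 1)) *
    ((cnt (fun u => k u - lam * p u + E * q1 u) : ℕ∞) : ℝ≥0∞))]
  have h1 : ∀ E ∈ Ioi (0 : ℝ), ENNReal.ofReal (lam ^ (γ - 1)) *
      (ENNReal.ofReal (γ * E ^ (γ - 1)) * ((cnt (fun u => k u - p u + E * q1 u) : ℕ∞) : ℝ≥0∞)) ≤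
      ENNReal.ofReal (γ * (lam * E) ^ (γ - 1)) *
        ((cnt (fun u => k u - lam * p u + lam * E * q1 u) : ℕ∞) : ℝ≥0∞) := by
    intro E hE
    have hE0 : (0 : ℝ) < E := hE
    rw [← mul_assoc, ← ENNReal.ofReal_mul (by positivity), Real.mul_rpow hl.le hE0.le]
    have e : lam ^ (γ - 1) * (γ * E ^ (γ - 1)) = γ * (lam ^ (γ - 1) * E ^ (γ - 1)) := by ring
    rw [e]
    refine mul_le_mul' le_rfl (ENat.toENNReal_le.2 (cnt_mono _ _ fun u hu => ?_))
    have h2 : k u - lam * p u + lam * E * q1 u =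
        lam * (k u - p u + E * q1 u) - (lam - 1) * k u := by ring
    rw [h2]
    have h3 : lam * (k u - p u + E * q1 u) < 0 := mul_neg_of_pos_of_neg hl hu
    have h4 : 0 ≤ (lam - 1) * k u := mul_nonneg (by linarith) (hk u)
    linarith
  have h5 : ENNReal.ofReal (lam ^ γ) = ENNReal.ofReal lam * ENNReal.ofReal (lam ^ (γ - 1)) := by
    rw [← ENNReal.ofReal_mul hl.le]
    congr 1
    rw [Real.rpow_sub hl, Real.rpow_one]; field_simp
  rw [h5, mul_assoc]
  refine mul_le_mul' le_rfl ?_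
  rw [← lintegral_const_mul' _ _ ENNReal.ofReal_ne_top]
  exact setLIntegral_mono' measurableSet_Ioi h1

end Pool.Agent.H2.LTM
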