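import Pool.Agent.H2.LTM.KEY
import Pool.Agent.H2.LTM.FAM
import Pool.Agent.H2.LTM.PEI
import Pool.Agent.H2.LTM.LIN
import Pool.Agent.H2.LTM.OPT
import Pool.Agent.H2.LTM.SCL

/-!
# FIN: the final theorems (helper2)
-/

open MeasureTheory Complex Set Filter Topology
open scoped ENNReal NNReal ContDiff ComplexConjugate

noncomputable section

namespace Pool.Agent.H2.LTM

variable {d : ℕ}

theorem FIN_riesz_eq (γ : ℝ) (A : Sp d → Sp d) (V : Sp d → ℝ) (lam : ℝ) :
    riesz γ A (fun x => lam * V x) = rz γ (fun u : TF d => kin A (u : Sp d → ℂ) -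
      lam * pot V (u : Sp d → ℂ)) (fun u : TF d => mass (u : Sp d → ℂ)) := by
  unfold riesz rz levels
  simp only [KEY1_pot_mul]

theorem FIN_riesz_eq1 (γ : ℝ) (A : Sp d → Sp d) (V : Sp d → ℝ) :
    riesz γ A V = rz γ (fun u : TF d => kin A (u : Sp d → ℂ) -
      pot V (u : Sp d → ℂ)) (fun u : TF d => mass (u : Sp d → ℂ)) := rfl

theorem FIN_small {γ : ℝ} (hγ : 0 < γ) (hp : 1 ≤ γ + d / 2) {K : ℝ≥0∞} (hKT : K ≠ ⊤)
    (hK : IsLT γ d K) {a : ℝ} (ha : 0 < a) :
    IsLTmag γ d (ENNReal.ofReal (Real.Gamma (γ + d / 2 + 1) * a ^ (-(d / 2 : ℝ)) /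
      ∫ t in Ioi a, t ^ γ * Real.exp (-t)) * K) := by
  intro A V hA hA2 hV h0 hVp
  have hkey := key hγ hp hKT hK hA hA2 hV h0 hVp ha
  have h := opt2 (γ := γ) (p := γ + d / 2) (a := a) hγ (by linarith [Nat.cast_nonneg (α := ℝ) d])
    ha (C := K * ∫⁻ x, ENNReal.ofReal (V x ^ (γ + d / 2))) (M1 := riesz γ A V)
    (fun lam => riesz γ A (fun x => lam * V x)) ?_ ?_
  · have e : γ - (γ + d / 2) = -(d / 2 : ℝ) := by ring
    rw [e, ← mul_assoc] at h
    exact h
  · intro lam hlam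
    rw [FIN_riesz_eq1, FIN_riesz_eq]
    exact rz_scale hγ _ _ _ (fun u => kin_nonneg A _) hlam
  · refine hkey.trans (le_of_eq ?_)
    ring

theorem FIN_large {γ : ℝ} (hγ : 1 ≤ γ) (hp : 1 ≤ γ + d / 2) {K : ℝ≥0∞} (hKT : K ≠ ⊤)
    (hK : IsLT γ d K) :
    IsLTmag γ d (ENNReal.ofReal (Real.exp (d / 2) * γ ^ γ * Real.Gamma (γ + d / 2 + 1) /
      ((γ + d / 2) ^ (γ + d / 2 : ℝ) * Real.Gamma (γ + 1))) * K) := by
  intro A V hA hA2 hV h0 hVp
  have hγ0 : 0 < γ := by linarith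
  have hp0 : 0 < γ + d / 2 := by linarith
  have hkey := key hγ0 hp hKT hK hA hA2 hV h0 hVp hp0
  have hVloc := locInt hV h0 hp hVp
  set q : ℝ → TF d → ℝ := fun lam u => kin A (u : Sp d → ℂ) - lam * pot V (u : Sp d → ℂ) with hq
  set q1 : TF d → ℝ := fun u => mass (u : Sp d → ℂ) with hq1
  have hqHF : ∀ lam, IsHF (q lam) := fun lam =>
    (isHF_kin hA hA2).sub ((isHF_pot hVloc).const_mul lam)
  have hq1HF : IsHF q1 := isHF_mass
  have hR : ∀ lam, riesz γ A (fun x => lam * V x) = rz γ (q lam) q1 := fun lam =>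
    FIN_riesz_eq γ A V lam
  have hR1 : riesz γ A V = rz γ (q 1) q1 := by
    have := hR 1
    simpa using this
  refine le_of_forall_lt fun m hm => ?_
  rw [hR1] at hm
  obtain ⟨n, u, hu, hneg, hmlt⟩ := exists_family hγ0 (q 1) q1 (hqHF 1) hq1HF
    (fun u hu => mass_pos u hu) hm
  refine lt_of_lt_of_le hmlt ?_
  rcases Nat.eq_zero_or_pos n with rfl | hn
  · simp
  set e : Fin n → ℝ := fun i => -(q 1 (u i)) with he
  set v : Fin n → ℝ := fun i => pot V (u i : Sp d → ℂ) with hv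
  have hqe : ∀ i, e i = v i - kin A (u i : Sp d → ℂ) := by
    intro i; simp only [he, hv, hq]; ring
  obtain ⟨s, l0, hs, hl0, hl1, hsum, hline⟩ := line hγ hn e v (fun i => neg_pos.2 (hneg i))
    (fun i => by rw [hqe]; linarith [kin_nonneg A (u i : Sp d → ℂ)])
  have h := opt1 (γ := γ) (p := γ + d / 2) hγ (by linarith [Nat.cast_nonneg (α := ℝ) d]) hs hl0 hl1
    (C := K * ∫⁻ x, ENNReal.ofReal (V x ^ (γ + d / 2)))
    (fun lam => riesz γ A (fun x => lam * V x)) ?_ ?_
  · have e2 : γ + d / 2 - γ = (d / 2 : ℝ) := by ring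
    rw [e2, hsum, ← mul_assoc] at h
    exact h
  · intro lam hlam _
    rw [hR]
    refine le_trans (ENNReal.ofReal_le_ofReal (hline lam hlam)) ?_
    have hP := peierls hγ (q lam) q1 (hqHF lam) hq1HF u hu
    refine le_trans (le_of_eq ?_) hP
    congr 1
    refine Finset.sum_congr rfl fun i _ => ?_
    congr 2
    rw [hqe]; simp only [hv, hq]; ring
  · refine hkey.trans (le_of_eq ?_)
    ring

theorem FIN_transfer {γ : ℝ} {c : ℝ} (hc : 0 < c)
    (h : ∀ K : ℝ≥0∞, K ≠ ⊤ → IsLT γ d K → IsLTmag γ d (ENNReal.ofReal c * K)) :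
    LTmag γ d ≤ ENNReal.ofReal c * LT γ d := by
  have hc1 : ENNReal.ofReal c ≠ 0 := by simpa using hc
  have hc2 : ENNReal.ofReal c ≠ ⊤ := ENNReal.ofReal_ne_top
  have h1 : LTmag γ d / ENNReal.ofReal c ≤ LT γ d := by
    refine le_sInf fun K hK => ?_
    by_cases hKT : K = ⊤
    · rw [hKT]; exact le_top
    · rw [ENNReal.div_le_iff hc1 hc2, mul_comm]
      exact sInf_le (h K hKT hK)
  rw [mul_comm]
  exact (ENNReal.div_le_iff hc1 hc2).1 h1

/-- comparison of the sharp constants, all `γ > 0`. -/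
theorem comparison_small {γ : ℝ} (hγ : 0 < γ) (hp : 1 ≤ γ + d / 2) {a : ℝ} (ha : 0 < a) :
    LTmag γ d ≤ ENNReal.ofReal (Real.Gamma (γ + d / 2 + 1) * a ^ (-(d / 2 : ℝ)) /
      ∫ t in Ioi a, t ^ γ * Real.exp (-t)) * LT γ d := by
  refine FIN_transfer ?_ (fun K hKT hK => FIN_small hγ hp hKT hK ha)
  have hint : IntegrableOn (fun t : ℝ => t ^ γ * Real.exp (-t)) (Ioi a) := by
    have h1 := Real.GammaIntegral_convergent (s := γ + 1) (by linarith)
    have h2 := h1.mono_set (Ioi_subset_Ioi ha.le)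
    refine h2.congr_fun (fun t _ => ?_) measurableSet_Ioi
    simp only [add_sub_cancel_right]
    ring
  have hJ : 0 < ∫ t in Ioi a, t ^ γ * Real.exp (-t) := by
    rw [setIntegral_pos_iff_support_of_nonneg_ae]
    · have : Function.support (fun t : ℝ => t ^ γ * Real.exp (-t)) ∩ Ioi a = Ioi a := by
        refine inter_eq_right.2 fun t ht => ?_
        have ht0 : 0 < t := lt_trans ha ht
        exact (mul_pos (Real.rpow_pos_of_pos ht0 _) (Real.exp_pos _)).ne'
      rw [this]; simp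
    · refine (ae_restrict_iff' measurableSet_Ioi).2 (Eventually.of_forall fun t ht => ?_)
      have ht0 : 0 < t := lt_trans ha ht
      exact (mul_pos (Real.rpow_pos_of_pos ht0 _) (Real.exp_pos _)).le
    · exact hint
  have hG : 0 < Real.Gamma (γ + d / 2 + 1) := Real.Gamma_pos_of_pos (by linarith)
  positivity

/-- comparison of the sharp constants, `γ ≥ 1`. -/
theorem comparison_large {γ : ℝ} (hγ : 1 ≤ γ) (hp : 1 ≤ γ + d / 2) :
    LTmag γ d ≤ ENNReal.ofReal (Real.exp (d / 2) * γ ^ γ * Real.Gamma (γ + d / 2 + 1) /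
      ((γ + d / 2) ^ (γ + d / 2 : ℝ) * Real.Gamma (γ + 1))) * LT γ d := by
  refine FIN_transfer ?_ (fun K hKT hK => FIN_large hγ hp hKT hK)
  have hG : 0 < Real.Gamma (γ + d / 2 + 1) := Real.Gamma_pos_of_pos (by linarith)
  have hG1 : 0 < Real.Gamma (γ + 1) := Real.Gamma_pos_of_pos (by linarith)
  have hγ0 : 0 < γ := by linarith
  have hp0 : 0 < γ + d / 2 := by linarith
  positivity

theorem FIN_zero {γ : ℝ} {A : Sp d → Sp d} {V : Sp d → ℝ} (hV : Measurable V)
    (h0 : ∀ x, 0 ≤ V x) {p : ℝ}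
    (hVp : ∫⁻ x, ENNReal.ofReal (V x ^ p) = 0) (lam : ℝ) :
    riesz γ A (fun x => lam * V x) = 0 := by
  have h1 : ∀ᵐ x, V x = 0 := by
    have h2 := (lintegral_eq_zero_iff (by fun_prop)).1 hVp
    filter_upwards [h2] with x hx
    have h3 : V x ^ p ≤ 0 := by simpa using hx
    by_contra hne
    exact absurd h3 (not_le.2 (Real.rpow_pos_of_pos (lt_of_le_of_ne (h0 x) (Ne.symm hne)) _))
  have hpot : ∀ u : Sp d → ℂ, pot (fun x => lam * V x) u = 0 := by
    intro u
    unfold pot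
    refine integral_eq_zero_of_ae ?_
    filter_upwards [h1] with x hx
    simp [hx]
  unfold riesz
  rw [setLIntegral_congr_fun (g := fun _ => 0) measurableSet_Ioi]
  · simp
  · intro E hE
    have hE0 : (0 : ℝ) ≤ E := le_of_lt hE
    have : levels A (fun x => lam * V x) E = 0 := by
      unfold levels
      refine cnt_eq_zero _ fun u => ?_
      rw [hpot]
      have h4 := kin_nonneg A (u : Sp d → ℂ)
      have h5 : 0 ≤ mass (u : Sp d → ℂ) := integral_nonneg fun x => by positivity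
      have h6 := mul_nonneg hE0 h5
      linarith
    simp [this]

theorem FIN_gamma {a p : ℝ} (ha : 0 < a) (hp : 0 < p) :
    ∫⁻ lam in Ioi (0 : ℝ), ENNReal.ofReal (Real.exp (-(a * lam))) * ENNReal.ofReal (lam ^ p) =
      ENNReal.ofReal (Real.Gamma (p + 1) * a ^ (-p) / a) := by
  have h := Real.integral_rpow_mul_exp_neg_mul_Ioi (a := p + 1) (r := a) (by linarith) ha
  have hnn : ∀ lam ∈ Ioi (0 : ℝ), 0 ≤ lam ^ (p + 1 - 1) * Real.exp (-(a * lam)) := by
    intro lam hlam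
    have : (0 : ℝ) < lam := hlam
    positivity
  have hpos : 0 < (1 / a) ^ (p + 1) * Real.Gamma (p + 1) := by
    have : 0 < Real.Gamma (p + 1) := Real.Gamma_pos_of_pos (by linarith)
    positivity
  have hint : IntegrableOn (fun lam : ℝ => lam ^ (p + 1 - 1) * Real.exp (-(a * lam))) (Ioi 0) := by
    by_contra hni
    rw [integral_undef hni] at h
    linarith
  have e : Real.Gamma (p + 1) * a ^ (-p) / a = (1 / a) ^ (p + 1) * Real.Gamma (p + 1) := by
    rw [one_div, Real.inv_rpow ha.le, Real.rpow_add ha, Real.rpow_one, Real.rpow_neg ha.le]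
    field_simp
  rw [e, ← h, ofReal_integral_eq_lintegral_ofReal hint
    ((ae_restrict_iff' measurableSet_Ioi).2 (Eventually.of_forall hnn))]
  refine setLIntegral_congr_fun measurableSet_Ioi fun lam hlam => ?_
  have : (0 : ℝ) < lam := hlam
  simp only [add_sub_cancel_right]
  rw [← ENNReal.ofReal_mul (Real.exp_pos _).le, mul_comm]

/-- the conjectured inequality holds after Laplace averaging over the coupling constant. -/
theorem averaged {γ : ℝ} (hγ : 0 < γ) (hp : 1 ≤ γ + d / 2) {A : Sp d → Sp d} (hA : Measurable A)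
    (hA2 : ∀ i, LocallyIntegrable (fun x => A x i ^ 2)) {V : Sp d → ℝ} (hV : Measurable V)
    (h0 : ∀ x, 0 ≤ V x)
    (hVp : ∫⁻ x, ENNReal.ofReal (V x ^ (γ + d / 2)) ≠ ⊤) {a : ℝ} (ha : 0 < a) :
    ∫⁻ lam in Ioi (0 : ℝ), ENNReal.ofReal (Real.exp (-(a * lam))) *
        riesz γ A (fun x => lam * V x) ≤
      LT γ d * ∫⁻ lam in Ioi (0 : ℝ), ENNReal.ofReal (Real.exp (-(a * lam))) *
        ∫⁻ x, ENNReal.ofReal ((lam * V x) ^ (γ + d / 2)) := by
  have hp0 : 0 < γ + d / 2 := by linarith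
  set p : ℝ := γ + d / 2 with hpd
  set I0 : ℝ≥0∞ := ∫⁻ x, ENNReal.ofReal (V x ^ p) with hI
  set c : ℝ := Real.Gamma (p + 1) * a ^ (-p) with hc
  have hG : 0 < Real.Gamma (p + 1) := Real.Gamma_pos_of_pos (by linarith)
  have hc0 : 0 < c := by positivity
  have hX : ∫⁻ lam in Ioi (0 : ℝ), ENNReal.ofReal (Real.exp (-(a * lam))) *
        ∫⁻ x, ENNReal.ofReal ((lam * V x) ^ p) = ENNReal.ofReal (c / a) * I0 := by
    have h1 : ∀ lam ∈ Ioi (0 : ℝ), ENNReal.ofReal (Real.exp (-(a * lam))) *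
        ∫⁻ x, ENNReal.ofReal ((lam * V x) ^ p) =
        ENNReal.ofReal (Real.exp (-(a * lam))) * ENNReal.ofReal (lam ^ p) * I0 := by
      intro lam hlam
      have hl : (0 : ℝ) < lam := hlam
      have h2 : ∀ x, ENNReal.ofReal ((lam * V x) ^ p) =
          ENNReal.ofReal (lam ^ p) * ENNReal.ofReal (V x ^ p) := by
        intro x
        rw [Real.mul_rpow hl.le (h0 x), ENNReal.ofReal_mul (by positivity)]
      rw [lintegral_congr h2, lintegral_const_mul _ (by fun_prop)]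
      ring
    rw [setLIntegral_congr_fun measurableSet_Ioi h1, lintegral_mul_const _ (by fun_prop),
      FIN_gamma ha hp0]
  rw [hX]
  by_cases hI0 : I0 = 0
  · have : ∀ lam : ℝ, riesz γ A (fun x => lam * V x) = 0 := fun lam =>
      FIN_zero hV h0 hI0 lam
    simp [this]
  have hXpos : ENNReal.ofReal (c / a) * I0 ≠ 0 :=
    mul_ne_zero (by simpa using div_pos hc0 ha) hI0
  have hXtop : ENNReal.ofReal (c / a) * I0 ≠ ⊤ := ENNReal.mul_ne_top ENNReal.ofReal_ne_top hVp
  refine (ENNReal.div_le_iff hXpos hXtop).1 ?_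
  refine le_sInf fun K hK => ?_
  by_cases hKT : K = ⊤
  · rw [hKT]; exact le_top
  refine (ENNReal.div_le_iff hXpos hXtop).2 ?_
  have hkey := key hγ hp hKT hK hA hA2 hV h0 hVp ha
  have ha0 : ENNReal.ofReal a ≠ 0 := by simpa using ha
  have hat : ENNReal.ofReal a ≠ ⊤ := ENNReal.ofReal_ne_top
  have h5 : ENNReal.ofReal a * ∫⁻ lam in Ioi (0 : ℝ), ENNReal.ofReal (Real.exp (-(a * lam))) *
        riesz γ A (fun x => lam * V x) ≤ ENNReal.ofReal a * (K * (ENNReal.ofReal (c / a) * I0)) := by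
    rw [← lintegral_const_mul' _ _ hat]
    have e1 : ENNReal.ofReal a * (K * (ENNReal.ofReal (c / a) * I0)) =
        K * ENNReal.ofReal c * I0 := by
      have e2 : ENNReal.ofReal c = ENNReal.ofReal a * ENNReal.ofReal (c / a) := by
        rw [← ENNReal.ofReal_mul ha.le]; congr 1; field_simp
      rw [e2]; ring
    rw [e1]
    refine le_trans (le_of_eq ?_) hkey
    refine lintegral_congr fun lam => ?_
    rw [ENNReal.ofReal_mul ha.le]; ring
  exact (ENNReal.mul_le_mul_iff_right ha0 hat).1 h5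

end Pool.Agent.H2.LTM
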