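import Pool.Agent.H2.LTM.LSC

/-!
# HFC: the continuum forms are Hermitian forms on test functions

`mass`: `B u v = ∫ conj (u x) * v x` (`LinearMap.mk₂'ₛₗ (starRingEnd ℂ) (RingHom.id ℂ)`), integrable as
continuous with compact support; `B u u = ∫ ‖u‖²` (real).  `pot`: `B u v = ∫ V x * (conj (u x) * v x)`;
`V` locally integrable times a continuous compactly supported function is integrable
(`LocallyIntegrable.integrable_smul_left_of_hasCompactSupport` etc.).
`kin`: sum over `i` of `∫ conj (cov A u i x) * cov A v i x`; `cov A u i` is `ℂ`-linear in `u`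
(`fderiv_add`, `fderiv_const_smul`; the functions are differentiable), and is in `L²`: the `fderiv`
part is continuous with compact support and `‖A_i u‖² ≤ A_i² ‖u‖²` is integrable
(`LocallyIntegrable (A_i²)`), `cov A u i` measurable; product of two `L²` functions is integrable
(`MemLp.integrable_mul` or `‖a b‖ ≤ ‖a‖² + ‖b‖²`).
`mass_pos`: a nonzero continuous function has `∫ ‖u‖² > 0`
(`Continuous.integral_pos_of_hasCompactSupport_nonneg_nonzero`).
`locInt`: `V ≤ 1 + V^p` for `V ≥ 0`, `p ≥ 1`.
-/

open MeasureTheory Complex Set Filter Topology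
open scoped ENNReal NNReal ContDiff ComplexConjugate

noncomputable section

namespace Pool.Agent.H2.LTM

variable {d : ℕ}

private theorem HFC_gen {W : Type*} [AddCommGroup W] [Module ℂ W] (T : W → Sp d → ℂ)
    (w : Sp d → ℝ) (hadd : ∀ u v x, T (u + v) x = T u x + T v x)
    (hsmul : ∀ (c : ℂ) u x, T (c • u) x = c * T u x)
    (hint : ∀ u v, Integrable (fun x => (w x : ℂ) * (conj (T u x) * T v x))) :
    IsHF (fun u => ∫ x, w x * ‖T u x‖ ^ 2) := by
  refine ⟨LinearMap.mk₂'ₛₗ (starRingEnd ℂ) (RingHom.id ℂ)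
    (fun u v => ∫ x, (w x : ℂ) * (conj (T u x) * T v x)) ?_ ?_ ?_ ?_, ?_, ?_⟩
  · intro u u' v
    rw [← integral_add (hint u v) (hint u' v)]
    congr 1
    ext x
    rw [hadd, map_add]
    ring
  · intro c u v
    rw [smul_eq_mul, ← integral_const_mul]
    congr 1
    ext x
    rw [hsmul, map_mul]
    ring
  · intro u v v'
    rw [← integral_add (hint u v) (hint u v')]
    congr 1
    ext x
    rw [hadd]
    ring
  · intro c u v
    rw [smul_eq_mul, RingHom.id_apply, ← integral_const_mul]
    congr 1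
    ext x
    rw [hsmul]
    ring
  · intro u v
    simp only [LinearMap.mk₂'ₛₗ_apply]
    rw [← integral_conj]
    congr 1
    ext x
    rw [map_mul, map_mul, Complex.conj_conj, Complex.conj_ofReal]
    ring
  · intro u
    simp only [LinearMap.mk₂'ₛₗ_apply]
    have h : ∀ x, (w x : ℂ) * (conj (T u x) * T u x) = ((w x * ‖T u x‖ ^ 2 : ℝ) : ℂ) := by
      intro x
      rw [Complex.conj_mul']
      push_cast
      ring
    simp_rw [h]
    rw [integral_complex_ofReal, Complex.ofReal_re]

private theorem HFC_cs (u v : TF d) : Continuous (fun x => conj ((u : Sp d → ℂ) x) *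
    (v : Sp d → ℂ) x) ∧ HasCompactSupport (fun x => conj ((u : Sp d → ℂ) x) *
    (v : Sp d → ℂ) x) := by
  refine ⟨(Complex.continuous_conj.comp u.2.1.continuous).mul v.2.1.continuous, ?_⟩
  exact HasCompactSupport.mul_left v.2.2

private theorem HFC_int {V : Sp d → ℝ} (hV : LocallyIntegrable V) (u v : TF d) :
    Integrable (fun x => (V x : ℂ) * (conj ((u : Sp d → ℂ) x) * (v : Sp d → ℂ) x)) := by
  have h := hV.integrable_smul_right_of_hasCompactSupport (HFC_cs u v).1 (HFC_cs u v).2
  simpa only [Complex.real_smul] using h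

theorem isHF_mass : IsHF (fun u : TF d => mass (u : Sp d → ℂ)) := by
  have h := HFC_gen (W := TF d) (fun u => (u : Sp d → ℂ)) (fun _ => (1 : ℝ))
    (fun _ _ _ => rfl) (fun _ _ _ => rfl) (fun u v => HFC_int (locallyIntegrable_const 1) u v)
  simp only [one_mul] at h
  exact h

theorem isHF_pot {V : Sp d → ℝ} (hV : LocallyIntegrable V) :
    IsHF (fun u : TF d => pot V (u : Sp d → ℂ)) :=
  HFC_gen (W := TF d) (fun u => (u : Sp d → ℂ)) V
    (fun _ _ _ => rfl) (fun _ _ _ => rfl) (fun u v => HFC_int hV u v)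

private theorem HFC_zero {W : Type*} [AddCommGroup W] [Module ℂ W] :
    IsHF (fun _ : W => (0 : ℝ)) :=
  ⟨0, fun u v => by simp, fun u => by simp⟩

private theorem HFC_sum {W : Type*} [AddCommGroup W] [Module ℂ W] {ι : Type*} (s : Finset ι)
    (Q : ι → W → ℝ) (h : ∀ i ∈ s, IsHF (Q i)) : IsHF (fun u => ∑ i ∈ s, Q i u) := by
  classical
  induction s using Finset.induction_on with
  | empty => simpa using HFC_zero
  | insert a s ha ih =>
    have h1 := (h a (Finset.mem_insert_self a s)).add
      (ih fun i hi => h i (Finset.mem_insert_of_mem hi))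
    simpa only [Finset.sum_insert ha] using h1

private theorem HFC_memLp {A : Sp d → Sp d} (hA : Measurable A) {i : Fin d}
    (hA2 : LocallyIntegrable (fun x => A x i ^ 2)) (u : TF d) :
    MemLp (cov A (u : Sp d → ℂ) i) 2 := by
  have h1 : MemLp (fun x => fderiv ℝ (u : Sp d → ℂ) x (Pi.single i 1)) 2 := by
    refine Continuous.memLp_of_hasCompactSupport ?_ ?_
    · exact (u.2.1.continuous_fderiv (by simp)).clm_apply continuous_const
    · exact u.2.2.fderiv_apply ℝ (Pi.single i 1)
  have hm : AEStronglyMeasurable (fun x => I * (A x i : ℂ) * (u : Sp d → ℂ) x) volume := by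
    have e1 : Measurable (fun x => (A x i : ℂ)) :=
      Complex.measurable_ofReal.comp ((measurable_pi_apply i).comp hA)
    exact ((measurable_const.mul e1).aestronglyMeasurable).mul
      u.2.1.continuous.aestronglyMeasurable
  have h2 : MemLp (fun x => I * (A x i : ℂ) * (u : Sp d → ℂ) x) 2 := by
    rw [memLp_two_iff_integrable_sq_norm hm]
    have h3 : HasCompactSupport (fun x => ‖(u : Sp d → ℂ) x‖ ^ 2) := by
      refine u.2.2.comp_left (g := fun z : ℂ => ‖z‖ ^ 2) (by simp)
    have h4 := hA2.integrable_smul_right_of_hasCompactSupport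
      (g := fun x => ‖(u : Sp d → ℂ) x‖ ^ 2) (u.2.1.continuous.norm.pow 2) h3
    refine h4.congr (Filter.Eventually.of_forall fun x => ?_)
    simp only [smul_eq_mul, norm_mul, Complex.norm_I, one_mul, Complex.norm_real, mul_pow,
      Real.norm_eq_abs, sq_abs]
  exact h1.add h2

theorem isHF_kin {A : Sp d → Sp d} (hA : Measurable A)
    (hA2 : ∀ i, LocallyIntegrable (fun x => A x i ^ 2)) :
    IsHF (fun u : TF d => kin A (u : Sp d → ℂ)) := by
  refine HFC_sum Finset.univ (fun i (u : TF d) => ∫ x, ‖cov A (u : Sp d → ℂ) i x‖ ^ 2)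
    fun i _ => ?_
  have h := HFC_gen (W := TF d) (fun u => cov A (u : Sp d → ℂ) i) (fun _ => (1 : ℝ)) ?_ ?_ ?_
  · simpa only [one_mul] using h
  · intro u v x
    have hu : DifferentiableAt ℝ (u : Sp d → ℂ) x :=
      (u.2.1.differentiable (by simp)).differentiableAt
    have hv : DifferentiableAt ℝ (v : Sp d → ℂ) x :=
      (v.2.1.differentiable (by simp)).differentiableAt
    simp only [cov, Submodule.coe_add]
    rw [fderiv_add hu hv]
    simp only [add_apply, Pi.add_apply]
    ring
  · intro c u x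
    have hu : DifferentiableAt ℝ (u : Sp d → ℂ) x :=
      (u.2.1.differentiable (by simp)).differentiableAt
    simp only [cov, Submodule.coe_smul]
    rw [fderiv_const_smul hu]
    simp only [smul_apply, Pi.smul_apply, smul_eq_mul]
    ring
  · intro u v
    have h1 := (HFC_memLp hA (hA2 i) u).star
    have h2 := HFC_memLp hA (hA2 i) v
    have h3 := h1.integrable_mul h2
    refine h3.congr (Filter.Eventually.of_forall fun x => ?_)
    simp

theorem mass_pos (u : TF d) (hu : u ≠ 0) : 0 < mass (u : Sp d → ℂ) := by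
  have h1 : ∃ x, (u : Sp d → ℂ) x ≠ 0 := by
    by_contra hcon
    push Not at hcon
    exact hu (Subtype.ext (funext hcon))
  obtain ⟨x, hx⟩ := h1
  have h3 : HasCompactSupport (fun x => ‖(u : Sp d → ℂ) x‖ ^ 2) :=
    u.2.2.comp_left (g := fun z : ℂ => ‖z‖ ^ 2) (by simp)
  exact Continuous.integral_pos_of_hasCompactSupport_nonneg_nonzero
    (u.2.1.continuous.norm.pow 2) h3 (fun x => by positivity) (x := x) (by simpa using hx)

theorem kin_nonneg (A : Sp d → Sp d) (u : Sp d → ℂ) : 0 ≤ kin A u :=
  Finset.sum_nonneg fun i _ => integral_nonneg fun x => by positivity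

theorem locInt {V : Sp d → ℝ} (hV : Measurable V) (h0 : ∀ x, 0 ≤ V x) {p : ℝ} (hp : 1 ≤ p)
    (hVp : ∫⁻ x, ENNReal.ofReal (V x ^ p) ≠ ⊤) : LocallyIntegrable V := by
  have h1 : Integrable (fun x => V x ^ p) := by
    refine ⟨(hV.pow_const p).aestronglyMeasurable, ?_⟩
    rw [hasFiniteIntegral_iff_ofReal (Filter.Eventually.of_forall fun x => Real.rpow_nonneg (h0 x) p)]
    exact hVp.lt_top
  have h2 : LocallyIntegrable (fun x => 1 + V x ^ p) :=
    (locallyIntegrable_const 1).add h1.locallyIntegrable
  refine h2.mono hV.aestronglyMeasurable (Filter.Eventually.of_forall fun x => ?_)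
  have h3 : 0 ≤ V x ^ p := Real.rpow_nonneg (h0 x) p
  rw [Real.norm_of_nonneg (h0 x), Real.norm_of_nonneg (by linarith)]
  rcases le_total (V x) 1 with h | h
  · linarith
  · have h4 := Real.rpow_le_rpow_of_exponent_le h hp
    rw [Real.rpow_one] at h4
    linarith

end Pool.Agent.H2.LTM
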