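import Pool.Agent.H2.LTM.WGT

/-!
# INT: interpolation of lattice functions

`itp φ m v` is a finite sum of smooth compactly supported functions (`contDiff_wgt`,
`hasCompactSupport_wgt`, composed with `Complex.ofReal`).
`kin_itp_le`: let `w = ext v`.  By `fderiv_wgt`,
`∂_i itp v (y) = m Σ_{x ∈ box M} v(x) (wgtD x - wgtD (x+e_i)) = m Σ_{z ∈ box (M+1)} (w(z+e_i) - w(z)) wgtD (z+e_i) y`
(in the first sum put `x = z + e_i`; `z ∈ box (M+1)`; all other `z` have `w (z+e_i) = 0`).  By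
Cauchy–Schwarz and `sum_wgtD_le_one` (for the image of `box (M+1)` under `z ↦ z + e_i`),
`‖∂_i itp v (y)‖² ≤ m² Σ_z |w(z+e_i) - w(z)|² wgtD (z+e_i) y`.  Integrate (`integral_wgtD`,
`integral_finset_sum`, `integral_mono_of_nonneg`) and sum over `i`; `latKin M 0` has phases `0`, so
`exp (I * 0) = 1`.  `cov 0 u i x = fderiv ℝ u x (Pi.single i 1)`.
`mass_itp_le`: `‖itp v y‖² ≤ (Σ wgt)(Σ |v x|² wgt) ≤ Σ_x ‖v x‖² wgt φ m x y`, integrate.
-/

open MeasureTheory Complex Set Filter Topology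
open scoped ENNReal NNReal ContDiff ComplexConjugate

noncomputable section

namespace Pool.Agent.H2.LTM

variable {d : ℕ} {φ ψ : ℝ → ℝ}

theorem INT_cs {ι : Type*} (F : Finset ι) (W : ι → ℝ) (a : ι → ℂ) (hW : ∀ x ∈ F, 0 ≤ W x)
    (h1 : ∑ x ∈ F, W x ≤ 1) :
    ‖∑ x ∈ F, a x * (W x : ℂ)‖ ^ 2 ≤ ∑ x ∈ F, ‖a x‖ ^ 2 * W x := by
  have h2 : ‖∑ x ∈ F, a x * (W x : ℂ)‖ ≤ ∑ x ∈ F, ‖a x‖ * W x := by
    refine (norm_sum_le _ _).trans (le_of_eq ?_)
    refine Finset.sum_congr rfl fun x hx => ?_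
    rw [norm_mul, Complex.norm_real, Real.norm_of_nonneg (hW x hx)]
  have h3 : (∑ x ∈ F, ‖a x‖ * W x) ^ 2 ≤ (∑ x ∈ F, W x) * ∑ x ∈ F, ‖a x‖ ^ 2 * W x := by
    refine Finset.sum_sq_le_sum_mul_sum_of_sq_eq_mul F hW
      (fun x hx => mul_nonneg (by positivity) (hW x hx)) ?_
    intro x _
    ring
  have h4 : 0 ≤ ∑ x ∈ F, ‖a x‖ ^ 2 * W x :=
    Finset.sum_nonneg fun x hx => mul_nonneg (by positivity) (hW x hx)
  calc ‖∑ x ∈ F, a x * (W x : ℂ)‖ ^ 2 ≤ (∑ x ∈ F, ‖a x‖ * W x) ^ 2 := by gcongr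
    _ ≤ (∑ x ∈ F, W x) * ∑ x ∈ F, ‖a x‖ ^ 2 * W x := h3
    _ ≤ 1 * ∑ x ∈ F, ‖a x‖ ^ 2 * W x := mul_le_mul_of_nonneg_right h1 h4
    _ = _ := one_mul _

theorem INT_sum_box {M : ℕ} (v : box d M → ℂ) (F : Finset (Lt d)) (hF : box d M ⊆ F)
    (G : Lt d → ℂ) :
    ∑ x : box d M, v x * G x = ∑ x ∈ F, ext v x * G x := by
  have h1 : ∑ x ∈ F, ext v x * G x = ∑ x ∈ box d M, ext v x * G x := by
    symm
    refine Finset.sum_subset hF fun x _ hx => ?_
    rw [ext, dif_neg hx, zero_mul]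
  rw [h1, ← Finset.sum_coe_sort (box d M)]
  refine Finset.sum_congr rfl fun x _ => ?_
  have : ext v (x : Lt d) = v x := by
    rw [ext, dif_pos x.2]
  rw [this]

theorem INT_term_mem (hs : Spl φ ψ) {m : ℕ} (hm : 1 ≤ m) (x : Lt d) (c : ℂ) :
    (fun y : Sp d => c * (wgt φ m x y : ℂ)) ∈ TF d := by
  refine ⟨?_, ?_⟩
  · exact contDiff_const.mul (Complex.ofRealCLM.contDiff.comp (contDiff_wgt hs m x))
  · exact (hasCompactSupport_wgt hs hm x).comp_left (g := fun t : ℝ => c * (t : ℂ)) (by simp)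

theorem itp_mem (hs : Spl φ ψ) {m : ℕ} (hm : 1 ≤ m) {M : ℕ} (v : box d M → ℂ) :
    itp φ m v ∈ TF d := by
  have h : itp φ m v = ∑ x : box d M, fun y : Sp d => v x * (wgt φ m (x : Lt d) y : ℂ) := by
    funext y
    rw [Finset.sum_apply]
    rfl
  rw [h]
  refine (TF d).sum_mem fun x _ => ?_
  exact INT_term_mem hs hm (x : Lt d) (v x)

/-- interpolation as a linear map. -/
theorem exists_itpL (hs : Spl φ ψ) {m : ℕ} (hm : 1 ≤ m) (d M : ℕ) :
    ∃ L : (box d M → ℂ) →ₗ[ℂ] TF d, ∀ v, (L v : Sp d → ℂ) = itp φ m v := by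
  refine ⟨{ toFun := fun v => ⟨itp φ m v, itp_mem hs hm v⟩
            map_add' := ?_
            map_smul' := ?_ }, fun v => rfl⟩
  · intro v w
    apply Subtype.ext
    funext y
    show itp φ m (v + w) y = itp φ m v y + itp φ m w y
    simp only [itp, Pi.add_apply, add_mul, Finset.sum_add_distrib]
  · intro c v
    apply Subtype.ext
    funext y
    show itp φ m (c • v) y = c * itp φ m v y
    simp only [itp, Pi.smul_apply, smul_eq_mul, Finset.mul_sum, mul_assoc]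

theorem INT_fderiv (hs : Spl φ ψ) {m M : ℕ} (v : box d M → ℂ) (y : Sp d) (i : Fin d) :
    fderiv ℝ (itp φ m v) y (Pi.single i 1) =
      (m : ℂ) * ∑ x : box d M, v x * ((wgtD φ ψ i m (x : Lt d) y : ℂ) -
        (wgtD φ ψ i m ((x : Lt d) + Pi.single i 1) y : ℂ)) := by
  have h1 : ∀ x : box d M, HasFDerivAt (fun y : Sp d => v x * (wgt φ m (x : Lt d) y : ℂ))
      (v x • (Complex.ofRealCLM.comp (fderiv ℝ (wgt φ m (x : Lt d)) y))) y := by
    intro x
    have h2 : HasFDerivAt (wgt φ m (x : Lt d)) (fderiv ℝ (wgt φ m (x : Lt d)) y) y :=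
      ((contDiff_wgt hs m (x : Lt d)).differentiable (by simp)).differentiableAt.hasFDerivAt
    have h3 := (Complex.ofRealCLM.hasFDerivAt (x := wgt φ m (x : Lt d) y)).comp y h2
    exact h3.const_mul (v x)
  have h4 : HasFDerivAt (itp φ m v)
      (∑ x : box d M, v x • (Complex.ofRealCLM.comp (fderiv ℝ (wgt φ m (x : Lt d)) y))) y :=
    HasFDerivAt.fun_sum fun x _ => h1 x
  rw [h4.fderiv, _root_.sum_apply, Finset.mul_sum]
  refine Finset.sum_congr rfl fun x _ => ?_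
  rw [_root_.smul_apply, ContinuousLinearMap.comp_apply, fderiv_wgt hs]
  rw [Complex.ofRealCLM_apply, smul_eq_mul]
  push_cast
  ring

theorem INT_shift_inj (i : Fin d) : Function.Injective (fun z : Lt d => z + Pi.single i 1) :=
  fun _ _ h => add_right_cancel h

theorem INT_box_sub (M : ℕ) : box d M ⊆ box d (M + 1) := by
  intro x hx
  refine Fintype.mem_piFinset.mpr fun j => Finset.mem_Icc.mpr ?_
  have := Finset.mem_Icc.mp (Fintype.mem_piFinset.mp hx j)
  push_cast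
  omega

theorem INT_box_shift (M : ℕ) (i : Fin d) :
    box d M ⊆ (box d (M + 1)).image (fun z : Lt d => z + Pi.single i 1) := by
  intro x hx
  refine Finset.mem_image.mpr ⟨x - Pi.single i 1, ?_, sub_add_cancel _ _⟩
  refine Fintype.mem_piFinset.mpr fun j => Finset.mem_Icc.mpr ?_
  have h1 := Finset.mem_Icc.mp (Fintype.mem_piFinset.mp hx j)
  have h2 : (x - Pi.single i 1 : Lt d) j = if j = i then x j - 1 else x j := by
    rw [Pi.sub_apply, Pi.single_apply]
    split_ifs <;> simp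
  rw [h2]
  push_cast
  split_ifs <;> omega

theorem INT_abel {m M : ℕ} (v : box d M → ℂ) (y : Sp d) (i : Fin d) :
    ∑ x : box d M, v x * ((wgtD φ ψ i m (x : Lt d) y : ℂ) -
        (wgtD φ ψ i m ((x : Lt d) + Pi.single i 1) y : ℂ)) =
      ∑ z ∈ box d (M + 1), (ext v (z + Pi.single i 1) - ext v z) *
        (wgtD φ ψ i m (z + Pi.single i 1) y : ℂ) := by
  have e1 := INT_sum_box v ((box d (M + 1)).image (fun z : Lt d => z + Pi.single i 1))
    (INT_box_shift M i) (fun x : Lt d => (wgtD φ ψ i m x y : ℂ))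
  rw [Finset.sum_image (fun a _ b _ h => INT_shift_inj i h)] at e1
  have e2 := INT_sum_box v (box d (M + 1)) (INT_box_sub M)
    (fun x : Lt d => (wgtD φ ψ i m (x + Pi.single i 1) y : ℂ))
  simp only [mul_sub, sub_mul, Finset.sum_sub_distrib]
  rw [e1, e2]

theorem INT_deriv_le (hs : Spl φ ψ) {m M : ℕ} (v : box d M → ℂ) (y : Sp d) (i : Fin d) :
    ‖cov 0 (itp φ m v) i y‖ ^ 2 ≤ ∑ z ∈ box d (M + 1),
      ((m : ℝ) ^ 2 * ‖ext v (z + Pi.single i 1) - ext v z‖ ^ 2) *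
        wgtD φ ψ i m (z + Pi.single i 1) y := by
  have h1 : cov 0 (itp φ m v) i y = (m : ℂ) * ∑ z ∈ box d (M + 1),
      (ext v (z + Pi.single i 1) - ext v z) * (wgtD φ ψ i m (z + Pi.single i 1) y : ℂ) := by
    rw [cov, INT_fderiv hs, INT_abel]
    simp
  have h2 : ∑ z ∈ box d (M + 1), wgtD φ ψ i m (z + Pi.single i 1) y ≤ 1 := by
    have h3 := sum_wgtD_le_one hs i m y
      ((box d (M + 1)).image (fun z : Lt d => z + Pi.single i 1))
    rwa [Finset.sum_image (fun a _ b _ h => INT_shift_inj i h)] at h3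
  have h4 := INT_cs (box d (M + 1)) (fun z => wgtD φ ψ i m (z + Pi.single i 1) y)
    (fun z => ext v (z + Pi.single i 1) - ext v z) (fun z _ => wgtD_nonneg hs i m _ y) h2
  rw [h1, norm_mul, mul_pow, Complex.norm_natCast]
  refine (mul_le_mul_of_nonneg_left h4 (by positivity)).trans (le_of_eq ?_)
  rw [Finset.mul_sum]
  exact Finset.sum_congr rfl fun z _ => by ring

theorem kin_itp_le (hs : Spl φ ψ) {m : ℕ} (hm : 1 ≤ m) {M : ℕ} (v : box d M → ℂ) :
    kin 0 (itp φ m v) ≤ (m : ℝ) ^ 2 / (m : ℝ) ^ d * latKin M 0 (ext v) := by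
  rw [kin, latKin, Finset.mul_sum]
  refine Finset.sum_le_sum fun i _ => ?_
  have hint : Integrable (fun y => ∑ z ∈ box d (M + 1),
      ((m : ℝ) ^ 2 * ‖ext v (z + Pi.single i 1) - ext v z‖ ^ 2) *
        wgtD φ ψ i m (z + Pi.single i 1) y) :=
    integrable_finsetSum _ fun z _ => (integrable_wgtD hs i hm _).const_mul _
  refine (integral_mono_of_nonneg (Filter.Eventually.of_forall fun y => by positivity) hint
    (Filter.Eventually.of_forall fun y => INT_deriv_le hs v y i)).trans (le_of_eq ?_)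
  rw [integral_finsetSum _ fun z _ => (integrable_wgtD hs i hm _).const_mul _, Finset.mul_sum]
  refine Finset.sum_congr rfl fun z _ => ?_
  rw [integral_const_mul, integral_wgtD hs i hm]
  simp
  ring

theorem norm_itp_sq_le (hs : Spl φ ψ) (m : ℕ) {M : ℕ} (v : box d M → ℂ) (y : Sp d) :
    ‖itp φ m v y‖ ^ 2 ≤ ∑ x : box d M, ‖v x‖ ^ 2 * wgt φ m (x : Lt d) y := by
  refine INT_cs Finset.univ (fun x : box d M => wgt φ m (x : Lt d) y) v
    (fun x _ => wgt_nonneg hs m _ y) ?_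
  have h := sum_wgt_le_one hs m y (box d M)
  rwa [← Finset.sum_coe_sort (box d M)] at h

theorem mass_itp_le (hs : Spl φ ψ) {m : ℕ} (hm : 1 ≤ m) {M : ℕ} (v : box d M → ℂ) :
    mass (itp φ m v) ≤ 1 / (m : ℝ) ^ d * ∑ x, ‖v x‖ ^ 2 := by
  have hint : Integrable (fun y => ∑ x : box d M, ‖v x‖ ^ 2 * wgt φ m (x : Lt d) y) :=
    integrable_finsetSum _ fun x _ => (integrable_wgt hs hm _).const_mul _
  rw [mass]
  refine (integral_mono_of_nonneg (Filter.Eventually.of_forall fun y => by positivity) hint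
    (Filter.Eventually.of_forall fun y => norm_itp_sq_le hs m v y)).trans (le_of_eq ?_)
  rw [integral_finsetSum _ fun x _ => (integrable_wgt hs hm _).const_mul _, Finset.mul_sum]
  refine Finset.sum_congr rfl fun x _ => ?_
  rw [integral_const_mul, integral_wgt hs hm]
  ring

end Pool.Agent.H2.LTM
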