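import Pool.Agent.H2.LTM.KEY1
import Pool.Agent.H2.LTM.APA
import Pool.Agent.H2.LTM.APV

/-!
# KEY: the averaged inequality (helper2)
-/

open MeasureTheory Complex Set Filter Topology
open scoped ENNReal NNReal ContDiff ComplexConjugate

noncomputable section

namespace Pool.Agent.H2.LTM

variable {d : ℕ}

theorem KEY_isHF {A : Sp d → Sp d} (hA : Measurable A)
    (hA2 : ∀ i, LocallyIntegrable (fun x => A x i ^ 2)) {V : Sp d → ℝ}
    (hV : LocallyIntegrable V) (E lam : ℝ) :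
    IsHF (fun u : TF d => kin A (u : Sp d → ℂ) - pot (fun x => lam * V x) (u : Sp d → ℂ) +
      E * mass (u : Sp d → ℂ)) :=
  ((isHF_kin hA hA2).sub (isHF_pot (hV.smul lam))).add (isHF_mass.const_mul E)

theorem KEY_levels_eq (A : Sp d → Sp d) (V : Sp d → ℝ) (E lam : ℝ) :
    levels A (fun x => lam * V x) E = cnt (fun u : TF d => kin A (u : Sp d → ℂ) +
      E * mass (u : Sp d → ℂ) - lam * pot V (u : Sp d → ℂ)) := by
  unfold levels
  congr 1
  ext u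
  rw [KEY1_pot_mul]
  ring

theorem KEY_meas {A : Sp d → Sp d} (hA : Measurable A)
    (hA2 : ∀ i, LocallyIntegrable (fun x => A x i ^ 2)) {V : Sp d → ℝ}
    (hV : LocallyIntegrable V) :
    Measurable (fun z : ℝ × ℝ => ((levels A (fun x => z.2 * V x) z.1 : ℕ∞) : ℝ≥0∞)) := by
  have h := measurable_cnt (fun u : TF d => kin A (u : Sp d → ℂ))
    (fun u : TF d => mass (u : Sp d → ℂ)) (fun u : TF d => pot V (u : Sp d → ℂ))
    (isHF_kin hA hA2) isHF_mass (isHF_pot hV)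
  have e : (fun z : ℝ × ℝ => ((levels A (fun x => z.2 * V x) z.1 : ℕ∞) : ℝ≥0∞)) =
      fun z : ℝ × ℝ => ((cnt (fun u : TF d => kin A (u : Sp d → ℂ) +
        z.1 * mass (u : Sp d → ℂ) - z.2 * pot V (u : Sp d → ℂ)) : ℕ∞) : ℝ≥0∞) := by
    ext z
    rw [KEY_levels_eq]
  rw [e]
  exact h

theorem key {γ : ℝ} (hγ : 0 < γ) (hp : 1 ≤ γ + d / 2) {K : ℝ≥0∞} (hKT : K ≠ ⊤)
    (hK : IsLT γ d K) {A : Sp d → Sp d} (hA : Measurable A)
    (hA2 : ∀ i, LocallyIntegrable (fun x => A x i ^ 2)) {V : Sp d → ℝ} (hV : Measurable V)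
    (h0 : ∀ x, 0 ≤ V x)
    (hVp : ∫⁻ x, ENNReal.ofReal (V x ^ (γ + d / 2)) ≠ ⊤) {a : ℝ} (ha : 0 < a) :
    ∫⁻ lam in Ioi (0 : ℝ), ENNReal.ofReal (a * Real.exp (-(a * lam))) *
        riesz γ A (fun x => lam * V x) ≤
      K * ENNReal.ofReal (Real.Gamma (γ + d / 2 + 1) * a ^ (-(γ + d / 2 : ℝ))) *
        ∫⁻ x, ENNReal.ofReal (V x ^ (γ + d / 2)) := by
  obtain ⟨Ak, hAk, hAlim⟩ := exists_approx_A hA hA2
  obtain ⟨Vk, hVk, hVk0, hVkB, hVkp, hVklim, hVkpot⟩ := exists_approx_V hV h0 hp hVp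
  have hVloc : LocallyIntegrable V := locInt hV h0 hp hVp
  have hVkloc : ∀ k, LocallyIntegrable (Vk k) := fun k =>
    locInt (hVk k) (fun x => (hVk0 k x).le) hp (hVkp k)
  have hAk2 : ∀ k i, LocallyIntegrable (fun x => Ak k x i ^ 2) := fun k i =>
    ((continuous_apply i).comp (hAk k)).pow 2 |>.locallyIntegrable
  set w : ℝ → ℝ≥0∞ := fun lam => ENNReal.ofReal (a * Real.exp (-(a * lam))) with hw
  set g : ℝ → ℝ≥0∞ := fun E => ENNReal.ofReal (γ * E ^ (γ - 1)) with hg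
  have hwm : Measurable w := by fun_prop
  have hgm : Measurable g := by fun_prop
  have hlsc : ∀ E lam : ℝ, ((levels A (fun x => lam * V x) E : ℕ∞) : ℝ≥0∞) ≤
      liminf (fun k => ((levels (Ak k) (fun x => lam * Vk k x) E : ℕ∞) : ℝ≥0∞)) atTop := by
    intro E lam
    refine le_liminf_of_nat _ _ ?_
    intro n hn
    refine eventually_le_cnt _ _ (fun k => KEY_isHF (hAk k).measurable (hAk2 k) (hVkloc k) E lam)
      (KEY_isHF hA hA2 hVloc E lam) ?_ n hn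
    intro u
    have h1 := hAlim _ u.2
    have h2 := (hVkpot _ u.2).const_mul lam
    have h := (h1.sub h2).add_const (E * mass (u : Sp d → ℂ))
    simp only [KEY1_pot_mul]
    exact h
  have h1 : ∫⁻ lam in Ioi (0 : ℝ), w lam * riesz γ A (fun x => lam * V x) ≤
      liminf (fun k => ∫⁻ lam in Ioi (0 : ℝ), w lam *
        riesz γ (Ak k) (fun x => lam * Vk k x)) atTop := by
    unfold riesz
    exact KEY1_fatou w g hwm hgm (fun _ => ENNReal.ofReal_ne_top) (fun _ => ENNReal.ofReal_ne_top)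
      (fun E lam => ((levels A (fun x => lam * V x) E : ℕ∞) : ℝ≥0∞))
      (fun k E lam => ((levels (Ak k) (fun x => lam * Vk k x) E : ℕ∞) : ℝ≥0∞))
      (fun lam _ E _ => hlsc E lam)
      (fun k => KEY_meas (hAk k).measurable (hAk2 k) (hVkloc k))
  have h2 : ∀ k, ∫⁻ lam in Ioi (0 : ℝ), w lam * riesz γ (Ak k) (fun x => lam * Vk k x) ≤
      K * ENNReal.ofReal (Real.Gamma (γ + d / 2 + 1) * a ^ (-(γ + d / 2 : ℝ))) *
        ∫⁻ x, ENNReal.ofReal (Vk k x ^ (γ + d / 2)) := by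
    intro k
    obtain ⟨B, hB⟩ := hVkB k
    exact key1 hγ hp hKT hK (hAk k) (hVk k) (hVk0 k) hB (hVkp k) ha
  have h3 : Tendsto (fun k => K * ENNReal.ofReal (Real.Gamma (γ + d / 2 + 1) *
      a ^ (-(γ + d / 2 : ℝ))) * ∫⁻ x, ENNReal.ofReal (Vk k x ^ (γ + d / 2))) atTop
      (𝓝 (K * ENNReal.ofReal (Real.Gamma (γ + d / 2 + 1) *
      a ^ (-(γ + d / 2 : ℝ))) * ∫⁻ x, ENNReal.ofReal (V x ^ (γ + d / 2)))) :=
    ENNReal.Tendsto.const_mul hVklim (Or.inr (ENNReal.mul_ne_top hKT ENNReal.ofReal_ne_top))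
  rw [← h3.liminf_eq]
  exact h1.trans (liminf_le_liminf (Eventually.of_forall h2))

end Pool.Agent.H2.LTM
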