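import Pool.Agent.H2.LTM.Defs

/-!
# LTS: the lattice matrix

`qf_latM`: expand `|e^{iθ_i(x)} w(x+e_i) - w(x)|² = |w(x+e_i)|² + |w(x)|²
- 2 Re (conj w(x) e^{iθ_i(x)} w(x+e_i))` with `w = ext v`.  Summing over `x ∈ box (M+1)`:
`Σ_x |w(x)|² = Σ_{box M} |v|²` (`box M ⊆ box (M+1)`, `w = 0` off `box M`), and
`Σ_{x ∈ box (M+1)} |w(x+e_i)|² = Σ_{box M} |v|²` (substitute `y = x + e_i`; every `y ∈ box M` is
`x + e_i` with `x = y - e_i ∈ box (M+1)`; `Finset.sum_bij_ne_zero` or `Finset.sum_nbij'` on supports).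
This gives the diagonal `2 d Σ |v|²`.  The cross terms: `Re Σ_{x,y ∈ box M} conj v_x M_xy v_y` with
`M_xy` the two indicator terms; the second one is the complex conjugate of the first after
exchanging `x` and `y`, so both have the same real part.
(`x = y` never satisfies `y = x + e_i`, `Pi.single i 1 ≠ 0`.)
`norm_latM_le`: for `x ≠ y` triangle inequality, `‖exp (I θ)‖ = 1`
(`Complex.norm_exp_ofReal_mul_I`-type lemma), and for `θ = 0` each exponential is `1`.
-/

open MeasureTheory Complex Set Filter Topology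
open scoped ENNReal NNReal ContDiff ComplexConjugate

noncomputable section

namespace Pool.Agent.H2.LTM

theorem LTS_mem {d M : ℕ} {x : Lt d} : x ∈ box d M ↔ ∀ j, -(M : ℤ) ≤ x j ∧ x j ≤ M := by
  simp only [box, Fintype.mem_piFinset, Finset.mem_Icc]

theorem LTS_sub (d M : ℕ) : box d M ⊆ box d (M + 1) := by
  intro x hx
  rw [LTS_mem] at hx ⊢
  intro j
  have := hx j
  push_cast
  omega

theorem LTS_pred {d M : ℕ} (i : Fin d) {y : Lt d} (hy : y ∈ box d M) :
    y - Pi.single i 1 ∈ box d (M + 1) := by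
  rw [LTS_mem] at hy ⊢
  intro j
  have h1 := hy j
  have h2 : 0 ≤ (Pi.single i (1 : ℤ) : Lt d) j ∧ (Pi.single i (1 : ℤ) : Lt d) j ≤ 1 := by
    rw [Pi.single_apply]
    split_ifs <;> constructor <;> norm_num
  rw [Pi.sub_apply]
  push_cast
  omega

theorem LTS_off {d M : ℕ} (v : box d M → ℂ) {x : Lt d} (hx : x ∉ box d M) : ext v x = 0 :=
  dif_neg hx

theorem LTS_on {d M : ℕ} (v : box d M → ℂ) (x : box d M) : ext v (x : Lt d) = v x :=
  dif_pos x.2

theorem LTS_sum {d M : ℕ} (f : Lt d → ℝ) (hf : ∀ x, x ∉ box d M → f x = 0) :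
    ∑ x ∈ box d (M + 1), f x = ∑ x : box d M, f x := by
  rw [Finset.sum_coe_sort (box d M) f]
  exact (Finset.sum_subset (LTS_sub d M) fun x _ hx => hf x hx).symm

theorem LTS_shift {d M : ℕ} (i : Fin d) (f : Lt d → ℝ) (hf : ∀ x, x ∉ box d M → f x = 0) :
    ∑ x ∈ box d (M + 1), f (x + Pi.single i 1) = ∑ x : box d M, f x := by
  rw [Finset.sum_coe_sort (box d M) f]
  have h1 : ∑ x ∈ box d (M + 1), f (x + Pi.single i 1) =
      ∑ y ∈ (box d (M + 1)).map (Equiv.addRight (Pi.single i (1 : ℤ) : Lt d)).toEmbedding, f y := by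
    rw [Finset.sum_map]
    rfl
  rw [h1]
  refine (Finset.sum_subset ?_ fun x _ hx => hf x hx).symm
  intro y hy
  rw [Finset.mem_map]
  exact ⟨y - Pi.single i 1, LTS_pred i hy, sub_add_cancel _ _⟩

theorem LTS_ne {d : ℕ} (i : Fin d) (x : Lt d) : x ≠ x + Pi.single i 1 := by
  intro h
  have h1 := congrFun h i
  rw [Pi.add_apply, Pi.single_eq_same] at h1
  omega

/-- one hopping term -/
def LTS_A {d M : ℕ} (θ : Fin d → Lt d → ℝ) (i : Fin d) (x y : box d M) : ℂ :=
  if (y : Lt d) = (x : Lt d) + Pi.single i 1 then -Complex.exp (I * (θ i x : ℂ)) else 0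

/-- its absolute value -/
def LTS_N {d M : ℕ} (i : Fin d) (x y : box d M) : ℝ :=
  if (y : Lt d) = (x : Lt d) + Pi.single i 1 then 1 else 0

theorem LTS_conj {d M : ℕ} (θ : Fin d → Lt d → ℝ) (i : Fin d) (x y : box d M) :
    conj (LTS_A θ i x y) =
      if (y : Lt d) = (x : Lt d) + Pi.single i 1 then -Complex.exp (-(I * (θ i x : ℂ))) else 0 := by
  rw [LTS_A]
  split_ifs with h
  · rw [map_neg, ← Complex.exp_conj, map_mul, conj_I, conj_ofReal, neg_mul]
  · exact map_zero _

theorem LTS_norm {d M : ℕ} (θ : Fin d → Lt d → ℝ) (i : Fin d) (x y : box d M) :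
    ‖LTS_A θ i x y‖ = LTS_N i x y := by
  rw [LTS_A, LTS_N]
  split_ifs with h
  · rw [norm_neg, mul_comm, Complex.norm_exp_ofReal_mul_I]
  · exact norm_zero

theorem LTS_zero {d M : ℕ} (i : Fin d) (x y : box d M) :
    LTS_A 0 i x y = ((-LTS_N i x y : ℝ) : ℂ) := by
  rw [LTS_A, LTS_N]
  split_ifs with h
  · simp
  · simp

theorem LTS_latM (d M : ℕ) (θ : Fin d → Lt d → ℝ) (x y : box d M) :
    latM d M θ x y = (if x = y then (2 * d : ℂ) else 0) +
      ∑ i, (LTS_A θ i x y + conj (LTS_A θ i y x)) := by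
  rw [latM]
  split_ifs with h
  · subst h
    rw [Finset.sum_eq_zero, add_zero]
    intro i _
    rw [LTS_conj, LTS_A, if_neg (LTS_ne i _), if_neg (LTS_ne i _), add_zero]
  · rw [zero_add]
    refine Finset.sum_congr rfl fun i _ => ?_
    rw [LTS_conj, LTS_A]

theorem latM_isHermitian (d M : ℕ) (θ : Fin d → Lt d → ℝ) : (latM d M θ).IsHermitian := by
  refine Matrix.IsHermitian.ext fun x y => ?_
  rw [LTS_latM, LTS_latM]
  show conj _ = _
  rw [map_add, map_sum]
  congr 1
  · by_cases h : x = y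
    · rw [if_pos h, if_pos h.symm, map_mul, map_natCast]
      congr 1
      exact map_ofNat _ 2
    · rw [if_neg h, if_neg (Ne.symm h), map_zero]
  · refine Finset.sum_congr rfl fun i _ => ?_
    rw [map_add, Complex.conj_conj, add_comm]

theorem LTS_inner {d M : ℕ} (θ : Fin d → Lt d → ℝ) (v : box d M → ℂ) (i : Fin d) (x : box d M) :
    ∑ y, LTS_A θ i x y * v y =
      -(Complex.exp (I * (θ i x : ℂ)) * ext v ((x : Lt d) + Pi.single i 1)) := by
  by_cases h : (x : Lt d) + Pi.single i 1 ∈ box d M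
  · rw [Finset.sum_eq_single (⟨(x : Lt d) + Pi.single i 1, h⟩ : box d M)]
    · rw [LTS_A, if_pos rfl, ← LTS_on v ⟨(x : Lt d) + Pi.single i 1, h⟩, neg_mul]
    · intro y _ hy
      rw [LTS_A, if_neg, zero_mul]
      intro h1
      exact hy (Subtype.ext h1)
    · intro h1
      exact absurd (Finset.mem_univ _) h1
  · rw [LTS_off v h, mul_zero, neg_zero]
    refine Finset.sum_eq_zero fun y _ => ?_
    rw [LTS_A, if_neg, zero_mul]
    intro h1
    exact h (h1 ▸ y.2)

theorem LTS_term (a b c : ℂ) (ha : ‖a‖ = 1) :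
    ‖a * b - c‖ ^ 2 = ‖b‖ ^ 2 + ‖c‖ ^ 2 - 2 * (conj c * (a * b)).re := by
  rw [Complex.sq_norm, Complex.normSq_sub, ← Complex.sq_norm, ← Complex.sq_norm, norm_mul, ha,
    one_mul, mul_comm (a * b) (conj c)]

theorem LTS_kin {d M : ℕ} (θ : Fin d → Lt d → ℝ) (v : box d M → ℂ) :
    latKin M θ (ext v) = 2 * d * ∑ x, ‖v x‖ ^ 2 - 2 * ∑ i, ∑ x : box d M,
      (conj (v x) * (Complex.exp (I * (θ i x : ℂ)) * ext v ((x : Lt d) + Pi.single i 1))).re := by
  have h1 : ∀ i : Fin d, ∑ x ∈ box d (M + 1),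
      ‖Complex.exp (I * (θ i x : ℂ)) * ext v (x + Pi.single i 1) - ext v x‖ ^ 2 =
      2 * ∑ x, ‖v x‖ ^ 2 - 2 * ∑ x : box d M,
      (conj (v x) * (Complex.exp (I * (θ i x : ℂ)) * ext v ((x : Lt d) + Pi.single i 1))).re := by
    intro i
    have h2 : ∀ x ∈ box d (M + 1),
        ‖Complex.exp (I * (θ i x : ℂ)) * ext v (x + Pi.single i 1) - ext v x‖ ^ 2 =
        ‖ext v (x + Pi.single i 1)‖ ^ 2 + ‖ext v x‖ ^ 2 - 2 * (conj (ext v x) *
          (Complex.exp (I * (θ i x : ℂ)) * ext v (x + Pi.single i 1))).re := by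
      intro x _
      exact LTS_term _ _ _ (by rw [mul_comm, Complex.norm_exp_ofReal_mul_I])
    rw [Finset.sum_congr rfl h2, Finset.sum_sub_distrib, Finset.sum_add_distrib, ← Finset.mul_sum]
    have e3 : ∑ x ∈ box d (M + 1), (conj (ext v x) *
        (Complex.exp (I * (θ i x : ℂ)) * ext v (x + Pi.single i 1))).re =
        ∑ x : box d M, (conj (ext v (x : Lt d)) *
        (Complex.exp (I * (θ i x : ℂ)) * ext v ((x : Lt d) + Pi.single i 1))).re :=
      LTS_sum (M := M) (fun x : Lt d => (conj (ext v x) *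
        (Complex.exp (I * (θ i x : ℂ)) * ext v (x + Pi.single i 1))).re) (fun x hx => by
        rw [LTS_off v hx, map_zero, zero_mul, Complex.zero_re])
    rw [LTS_shift i (fun x => ‖ext v x‖ ^ 2) (fun x hx => by
        rw [LTS_off v hx, norm_zero, zero_pow two_ne_zero]),
      LTS_sum (fun x => ‖ext v x‖ ^ 2) (fun x hx => by
        rw [LTS_off v hx, norm_zero, zero_pow two_ne_zero]), e3]
    simp only [LTS_on]
    ring
  rw [latKin, Finset.sum_congr rfl fun i _ => h1 i, Finset.sum_sub_distrib, Finset.sum_const,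
    Finset.card_univ, Fintype.card_fin, nsmul_eq_mul, ← Finset.mul_sum]
  ring

theorem qf_latM (d M : ℕ) (θ : Fin d → Lt d → ℝ) (v : box d M → ℂ) :
    qf (latM d M θ) v = latKin M θ (ext v) := by
  have hS : ∀ i : Fin d, ∑ x, ∑ y, conj (v x) * (LTS_A θ i x y * v y) =
      -∑ x : box d M, conj (v x) *
        (Complex.exp (I * (θ i x : ℂ)) * ext v ((x : Lt d) + Pi.single i 1)) := by
    intro i
    rw [← Finset.sum_neg_distrib]
    refine Finset.sum_congr rfl fun x _ => ?_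
    rw [← Finset.mul_sum, LTS_inner, mul_neg]
  have hS' : ∀ i : Fin d, ∑ x, ∑ y, conj (v x) * (conj (LTS_A θ i y x) * v y) =
      conj (∑ x, ∑ y, conj (v x) * (LTS_A θ i x y * v y)) := by
    intro i
    rw [map_sum, Finset.sum_comm]
    refine Finset.sum_congr rfl fun x _ => ?_
    rw [map_sum]
    refine Finset.sum_congr rfl fun y _ => ?_
    rw [map_mul, map_mul, Complex.conj_conj]
    ring
  have hL : star v ⬝ᵥ (latM d M θ).mulVec v = (2 * d : ℂ) * ∑ x, conj (v x) * v x +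
      ∑ i, (∑ x, ∑ y, conj (v x) * (LTS_A θ i x y * v y) +
        conj (∑ x, ∑ y, conj (v x) * (LTS_A θ i x y * v y))) := by
    have h1 : ∀ x, (star v) x * (latM d M θ).mulVec v x = (2 * d : ℂ) * (conj (v x) * v x) +
        ∑ i, (∑ y, conj (v x) * (LTS_A θ i x y * v y) +
          ∑ y, conj (v x) * (conj (LTS_A θ i y x) * v y)) := by
      intro x
      have h2 : (latM d M θ).mulVec v x = ∑ y, latM d M θ x y * v y := rfl
      have h3 : (star v) x = conj (v x) := rfl
      rw [h2, h3]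
      have h4 : ∀ y, latM d M θ x y * v y = (if x = y then (2 * d : ℂ) * v y else 0) +
          ∑ i, (LTS_A θ i x y * v y + conj (LTS_A θ i y x) * v y) := by
        intro y
        rw [LTS_latM, add_mul, Finset.sum_mul]
        congr 1
        · split_ifs
          · rfl
          · exact zero_mul _
        · refine Finset.sum_congr rfl fun i _ => ?_
          rw [add_mul]
      rw [Finset.sum_congr rfl fun y _ => h4 y, Finset.sum_add_distrib, Finset.sum_ite_eq,
        if_pos (Finset.mem_univ _), mul_add, Finset.sum_comm, Finset.mul_sum]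
      congr 1
      · ring
      · refine Finset.sum_congr rfl fun i _ => ?_
        rw [Finset.sum_add_distrib, mul_add, Finset.mul_sum, Finset.mul_sum]
    rw [dotProduct, Finset.sum_congr rfl fun x _ => h1 x, Finset.sum_add_distrib, ← Finset.mul_sum,
      Finset.sum_comm]
    congr 1
    refine Finset.sum_congr rfl fun i _ => ?_
    rw [Finset.sum_add_distrib, hS']
  have hd : (∑ x, conj (v x) * v x : ℂ) = ((∑ x, ‖v x‖ ^ 2 : ℝ) : ℂ) := by
    push_cast
    refine Finset.sum_congr rfl fun x _ => ?_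
    rw [mul_comm, Complex.mul_conj, Complex.normSq_eq_norm_sq]
    push_cast
    rfl
  rw [qf, hL, LTS_kin, hd, Complex.add_re, Complex.re_sum]
  have h5 : ((2 * d : ℂ) * ((∑ x, ‖v x‖ ^ 2 : ℝ) : ℂ)).re = 2 * d * ∑ x, ‖v x‖ ^ 2 := by
    have h6 : ((2 * d : ℂ) * ((∑ x, ‖v x‖ ^ 2 : ℝ) : ℂ)) =
        ((2 * d * ∑ x, ‖v x‖ ^ 2 : ℝ) : ℂ) := by push_cast; ring
    rw [h6, Complex.ofReal_re]
  rw [h5, sub_eq_add_neg]
  congr 1
  rw [Finset.mul_sum, ← Finset.sum_neg_distrib]
  refine Finset.sum_congr rfl fun i _ => ?_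
  rw [hS, Complex.add_re, Complex.conj_re, Complex.neg_re, Complex.re_sum]
  ring

theorem norm_latM_le (d M : ℕ) (θ : Fin d → Lt d → ℝ) (x y : box d M) (h : x ≠ y) :
    ‖latM d M θ x y‖ ≤ -(latM d M 0 x y).re := by
  rw [LTS_latM, LTS_latM, if_neg h, zero_add, zero_add]
  have h1 : -(∑ i, (LTS_A 0 i x y + conj (LTS_A 0 i y x))).re =
      ∑ i, (LTS_N i x y + LTS_N i y x) := by
    rw [Complex.re_sum, ← Finset.sum_neg_distrib]
    refine Finset.sum_congr rfl fun i _ => ?_
    rw [LTS_zero, LTS_zero, Complex.add_re, Complex.conj_re, Complex.ofReal_re, Complex.ofReal_re]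
    ring
  rw [h1]
  refine (norm_sum_le _ _).trans (Finset.sum_le_sum fun i _ => ?_)
  refine (norm_add_le _ _).trans ?_
  rw [Complex.norm_conj, LTS_norm, LTS_norm]

theorem latM_zero_im (d M : ℕ) (x y : box d M) : (latM d M 0 x y).im = 0 := by
  rw [LTS_latM, Complex.add_im, Complex.im_sum]
  have h1 : (if x = y then (2 * d : ℂ) else 0).im = 0 := by
    split_ifs
    · have h6 : (2 * d : ℂ) = ((2 * d : ℝ) : ℂ) := by push_cast; rfl
      rw [h6, Complex.ofReal_im]
    · exact Complex.zero_im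
  rw [h1, zero_add]
  refine Finset.sum_eq_zero fun i _ => ?_
  rw [LTS_zero, LTS_zero, Complex.add_im, Complex.conj_im, Complex.ofReal_im, Complex.ofReal_im,
    neg_zero, add_zero]

theorem latM_diag (d M : ℕ) (θ : Fin d → Lt d → ℝ) (x : box d M) :
    latM d M θ x x = (2 * d : ℂ) := by
  rw [latM, if_pos rfl]

end Pool.Agent.H2.LTM
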