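import Pool.Agent.H2.LTM.Defs

/-!
# WGT: the weights

`wgt_eq_zero`: if `x_j < ⌊m y_j⌋ - 3` then `m y_j - x_j ≥ 4`, if `⌊m y_j⌋ < x_j` then
`m y_j - x_j < 0`; the factor `φ` vanishes.  (Same for `wgtD`, also with `ψ`.)
`sum_wgt_eq_one`: only `x` in the product box `Q = Fintype.piFinset (fun j => Icc (⌊m y_j⌋-3) ⌊m y_j⌋)`
contribute, `Q ⊆ F`; `Σ_{x ∈ Q} ∏_j φ(m y_j - x_j) = ∏_j Σ_{k ∈ Icc} φ (m y_j - k) = 1`
(`Finset.prod_univ_sum`, `Spl.sumφ`).  `wgtD`: it is a full product `∏_j f_j (m y_j - x_j)` with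
`f_i = ψ`, `f_j = φ` otherwise (`Finset.mul_prod_erase`).  `≤ 1` for arbitrary `F`: enlarge `F` to
`F ∪ Q` (nonnegative terms).
`integral_wgt`: product function; `integral_fintype_prod_eq_prod` (or `integral_fintype_prod_volume_eq_prod`),
`∫ φ (m t - k) dt = 1/m` (`integral_comp_mul_left`, `integral_sub_right_eq_self`), integrability by
`Integrable.fintype_prod` or continuity + compact support.
`fderiv_wgt`: product rule; only the `i`-th factor depends on `y_i`.  Easiest: the derivative in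
direction `e_i` is the derivative at `0` of `t ↦ wgt φ m x (y + t e_i) = φ (m (y_i + t) - x_i) *
∏_{j ≠ i} φ (m y_j - x_j)`, and `deriv φ t = ψ t - ψ (t-1)` (`Spl.der`);
`m y_i - (x + e_i)_i = m y_i - x_i - 1`, other coordinates unchanged.
-/

open MeasureTheory Complex Set Filter Topology
open scoped ENNReal NNReal ContDiff ComplexConjugate

noncomputable section

namespace Pool.Agent.H2.LTM

variable {d : ℕ} {φ ψ : ℝ → ℝ}

/-- the properties of a single factor -/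
structure WGT_Ok (f : ℝ → ℝ) : Prop where
  sm : ContDiff ℝ ∞ f
  nn : ∀ t, 0 ≤ f t
  supp : ∀ t, t ≤ 0 ∨ 3 ≤ t → f t = 0
  sum : ∀ t (F : Finset ℤ), (∀ k ∈ Icc (⌊t⌋ - 3) ⌊t⌋, k ∈ F) → ∑ k ∈ F, f (t - k) = 1
  int : ∫ t, f t = 1

theorem WGT_okφ (hs : Spl φ ψ) : WGT_Ok φ := ⟨hs.smφ, hs.nnφ, hs.suppφ, hs.sumφ, hs.intφ⟩

theorem WGT_okψ (hs : Spl φ ψ) : WGT_Ok ψ := ⟨hs.smψ, hs.nnψ, hs.suppψ, hs.sumψ, hs.intψ⟩

/-- general product weight -/
def WGT_gp (f : Fin d → ℝ → ℝ) (m : ℕ) (x : Lt d) (y : Sp d) : ℝ := ∏ j, f j (m * y j - x j)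

theorem WGT_wgt (m : ℕ) (x : Lt d) : wgt φ m x = WGT_gp (fun _ => φ) m x := rfl

theorem WGT_wgtD (i : Fin d) (m : ℕ) (x : Lt d) :
    wgtD φ ψ i m x = WGT_gp (Function.update (fun _ => φ) i ψ) m x := by
  funext y
  unfold wgtD WGT_gp
  rw [← Finset.mul_prod_erase Finset.univ _ (Finset.mem_univ i)]
  rw [Function.update_self]
  congr 1
  refine Finset.prod_congr rfl fun j hj => ?_
  rw [Function.update_of_ne (Finset.ne_of_mem_erase hj)]

theorem WGT_okD (hs : Spl φ ψ) (i : Fin d) :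
    ∀ j, WGT_Ok (Function.update (fun _ : Fin d => φ) i ψ j) := by
  intro j
  by_cases h : j = i
  · subst h; rw [Function.update_self]; exact WGT_okψ hs
  · rw [Function.update_of_ne h]; exact WGT_okφ hs

theorem WGT_gp_nonneg {f : Fin d → ℝ → ℝ} (hf : ∀ j, WGT_Ok (f j)) (m : ℕ) (x : Lt d) (y : Sp d) :
    0 ≤ WGT_gp f m x y := Finset.prod_nonneg fun j _ => (hf j).nn _

theorem WGT_gp_eq_zero {f : Fin d → ℝ → ℝ} (hf : ∀ j, WGT_Ok (f j)) (m : ℕ) (x : Lt d) (y : Sp d)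
    (h : ∃ j, x j < ⌊(m : ℝ) * y j⌋ - 3 ∨ ⌊(m : ℝ) * y j⌋ < x j) : WGT_gp f m x y = 0 := by
  obtain ⟨j, hj⟩ := h
  refine Finset.prod_eq_zero (Finset.mem_univ j) ((hf j).supp _ ?_)
  rcases hj with hj | hj
  · right
    have h1 : x j + 4 ≤ ⌊(m : ℝ) * y j⌋ := by omega
    have h2 : ((x j + 4 : ℤ) : ℝ) ≤ (m : ℝ) * y j := Int.le_floor.1 h1
    push_cast at h2
    linarith
  · left
    have h2 : (m : ℝ) * y j < (x j : ℝ) := Int.floor_lt.1 hj
    linarith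

theorem WGT_sum_gp_eq_one {f : Fin d → ℝ → ℝ} (hf : ∀ j, WGT_Ok (f j)) (m : ℕ) (y : Sp d)
    (F : Finset (Lt d))
    (hF : ∀ x : Lt d, (∀ j, ⌊(m : ℝ) * y j⌋ - 3 ≤ x j ∧ x j ≤ ⌊(m : ℝ) * y j⌋) → x ∈ F) :
    ∑ x ∈ F, WGT_gp f m x y = 1 := by
  classical
  set Q : Finset (Lt d) :=
    Fintype.piFinset (fun j => Finset.Icc (⌊(m : ℝ) * y j⌋ - 3) ⌊(m : ℝ) * y j⌋) with hQ
  have hQF : Q ⊆ F := by
    intro x hx
    rw [hQ, Fintype.mem_piFinset] at hx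
    exact hF x fun j => by simpa using hx j
  rw [← Finset.sum_subset hQF]
  · have := Finset.prod_univ_sum (fun j => Finset.Icc (⌊(m : ℝ) * y j⌋ - 3) ⌊(m : ℝ) * y j⌋)
      (fun (j : Fin d) (k : ℤ) => f j (m * y j - k))
    rw [hQ]
    unfold WGT_gp
    rw [← this]
    refine Finset.prod_eq_one fun j _ => ?_
    exact (hf j).sum _ _ fun k hk => by simpa using hk
  · intro x _ hx
    apply WGT_gp_eq_zero hf
    by_contra hcon
    push Not at hcon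
    apply hx
    rw [hQ, Fintype.mem_piFinset]
    intro j
    rw [Finset.mem_Icc]
    exact hcon j

theorem WGT_sum_gp_le_one {f : Fin d → ℝ → ℝ} (hf : ∀ j, WGT_Ok (f j)) (m : ℕ) (y : Sp d)
    (F : Finset (Lt d)) : ∑ x ∈ F, WGT_gp f m x y ≤ 1 := by
  classical
  set Q : Finset (Lt d) :=
    Fintype.piFinset (fun j => Finset.Icc (⌊(m : ℝ) * y j⌋ - 3) ⌊(m : ℝ) * y j⌋) with hQ
  calc ∑ x ∈ F, WGT_gp f m x y ≤ ∑ x ∈ F ∪ Q, WGT_gp f m x y :=
        Finset.sum_le_sum_of_subset_of_nonneg Finset.subset_union_left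
          fun x _ _ => WGT_gp_nonneg hf m x y
    _ = 1 := by
        refine WGT_sum_gp_eq_one hf m y _ fun x hx => Finset.mem_union_right _ ?_
        rw [hQ, Fintype.mem_piFinset]
        intro j
        rw [Finset.mem_Icc]
        exact hx j

theorem WGT_contDiff_gp {f : Fin d → ℝ → ℝ} (hf : ∀ j, WGT_Ok (f j)) (m : ℕ) (x : Lt d) :
    ContDiff ℝ ∞ (WGT_gp f m x) := by
  unfold WGT_gp
  refine contDiff_prod fun j _ => ?_
  refine (hf j).sm.comp ?_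
  exact (contDiff_const.mul (contDiff_apply ℝ ℝ j)).sub contDiff_const

theorem WGT_compact_gp {f : Fin d → ℝ → ℝ} (hf : ∀ j, WGT_Ok (f j)) {m : ℕ} (hm : 1 ≤ m)
    (x : Lt d) : HasCompactSupport (WGT_gp f m x) := by
  have hm0 : (0 : ℝ) < m := by exact_mod_cast hm
  refine HasCompactSupport.intro
    (isCompact_univ_pi fun j : Fin d => isCompact_Icc (a := (x j : ℝ) / m) (b := (x j + 3 : ℝ) / m))
    fun y hy => ?_
  rw [Set.mem_univ_pi] at hy
  push Not at hy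
  obtain ⟨j, hj⟩ := hy
  refine Finset.prod_eq_zero (Finset.mem_univ j) ((hf j).supp _ ?_)
  rw [Set.mem_Icc, not_and_or, not_le, not_le] at hj
  rcases hj with hj | hj
  · left
    rw [lt_div_iff₀ hm0] at hj
    linarith
  · right
    rw [div_lt_iff₀ hm0] at hj
    linarith

theorem WGT_integrable_gp {f : Fin d → ℝ → ℝ} (hf : ∀ j, WGT_Ok (f j)) {m : ℕ} (hm : 1 ≤ m)
    (x : Lt d) : Integrable (WGT_gp f m x) :=
  (WGT_contDiff_gp hf m x).continuous.integrable_of_hasCompactSupport (WGT_compact_gp hf hm x)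

theorem WGT_integral_gp {f : Fin d → ℝ → ℝ} (hf : ∀ j, WGT_Ok (f j)) {m : ℕ} (hm : 1 ≤ m)
    (x : Lt d) : ∫ y, WGT_gp f m x y = 1 / (m : ℝ) ^ d := by
  have hm0 : (0 : ℝ) < m := by exact_mod_cast hm
  have h1 : ∀ j : Fin d, ∫ t : ℝ, f j (m * t - x j) = 1 / (m : ℝ) := by
    intro j
    have h2 := MeasureTheory.Measure.integral_comp_mul_left (fun t : ℝ => f j (t - x j)) (m : ℝ)
    rw [h2, integral_sub_right_eq_self (fun t => f j t), (hf j).int, abs_of_pos (by positivity)]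
    simp
  unfold WGT_gp
  rw [MeasureTheory.integral_fintype_prod_volume_eq_prod (fun (j : Fin d) (t : ℝ) => f j (m * t - x j))]
  rw [Finset.prod_congr rfl fun j _ => h1 j]
  simp

theorem wgt_nonneg (hs : Spl φ ψ) (m : ℕ) (x : Lt d) (y : Sp d) : 0 ≤ wgt φ m x y :=
  WGT_gp_nonneg (fun _ => WGT_okφ hs) m x y

theorem wgtD_nonneg (hs : Spl φ ψ) (i : Fin d) (m : ℕ) (x : Lt d) (y : Sp d) :
    0 ≤ wgtD φ ψ i m x y := by
  rw [WGT_wgtD]
  exact WGT_gp_nonneg (WGT_okD hs i) m x y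

theorem wgt_eq_zero (hs : Spl φ ψ) (m : ℕ) (x : Lt d) (y : Sp d)
    (h : ∃ j, x j < ⌊(m : ℝ) * y j⌋ - 3 ∨ ⌊(m : ℝ) * y j⌋ < x j) : wgt φ m x y = 0 :=
  WGT_gp_eq_zero (fun _ => WGT_okφ hs) m x y h

theorem sum_wgt_eq_one (hs : Spl φ ψ) (m : ℕ) (y : Sp d) (F : Finset (Lt d))
    (hF : ∀ x : Lt d, (∀ j, ⌊(m : ℝ) * y j⌋ - 3 ≤ x j ∧ x j ≤ ⌊(m : ℝ) * y j⌋) → x ∈ F) :
    ∑ x ∈ F, wgt φ m x y = 1 :=
  WGT_sum_gp_eq_one (fun _ => WGT_okφ hs) m y F hF

theorem sum_wgt_le_one (hs : Spl φ ψ) (m : ℕ) (y : Sp d) (F : Finset (Lt d)) :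
    ∑ x ∈ F, wgt φ m x y ≤ 1 :=
  WGT_sum_gp_le_one (fun _ => WGT_okφ hs) m y F

theorem sum_wgtD_le_one (hs : Spl φ ψ) (i : Fin d) (m : ℕ) (y : Sp d) (F : Finset (Lt d)) :
    ∑ x ∈ F, wgtD φ ψ i m x y ≤ 1 := by
  simp only [WGT_wgtD]
  exact WGT_sum_gp_le_one (WGT_okD hs i) m y F

theorem contDiff_wgt (hs : Spl φ ψ) (m : ℕ) (x : Lt d) : ContDiff ℝ ∞ (wgt φ m x) :=
  WGT_contDiff_gp (fun _ => WGT_okφ hs) m x

theorem hasCompactSupport_wgt (hs : Spl φ ψ) {m : ℕ} (hm : 1 ≤ m) (x : Lt d) :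
    HasCompactSupport (wgt φ m x) :=
  WGT_compact_gp (fun _ => WGT_okφ hs) hm x

theorem integrable_wgt (hs : Spl φ ψ) {m : ℕ} (hm : 1 ≤ m) (x : Lt d) :
    Integrable (wgt φ m x) :=
  WGT_integrable_gp (fun _ => WGT_okφ hs) hm x

theorem integral_wgt (hs : Spl φ ψ) {m : ℕ} (hm : 1 ≤ m) (x : Lt d) :
    ∫ y, wgt φ m x y = 1 / (m : ℝ) ^ d :=
  WGT_integral_gp (fun _ => WGT_okφ hs) hm x

theorem continuous_wgtD (hs : Spl φ ψ) (i : Fin d) (m : ℕ) (x : Lt d) :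
    Continuous (wgtD φ ψ i m x) := by
  rw [WGT_wgtD]
  exact (WGT_contDiff_gp (WGT_okD hs i) m x).continuous

theorem integrable_wgtD (hs : Spl φ ψ) (i : Fin d) {m : ℕ} (hm : 1 ≤ m) (x : Lt d) :
    Integrable (wgtD φ ψ i m x) := by
  rw [WGT_wgtD]
  exact WGT_integrable_gp (WGT_okD hs i) hm x

theorem integral_wgtD (hs : Spl φ ψ) (i : Fin d) {m : ℕ} (hm : 1 ≤ m) (x : Lt d) :
    ∫ y, wgtD φ ψ i m x y = 1 / (m : ℝ) ^ d := by
  rw [WGT_wgtD]
  exact WGT_integral_gp (WGT_okD hs i) hm x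

theorem fderiv_wgt (hs : Spl φ ψ) (m : ℕ) (x : Lt d) (y : Sp d) (i : Fin d) :
    fderiv ℝ (wgt φ m x) y (Pi.single i 1) =
      m * (wgtD φ ψ i m x y - wgtD φ ψ i m (x + Pi.single i 1) y) := by
  have hd : DifferentiableAt ℝ (wgt φ m x) y :=
    (contDiff_wgt hs m x).differentiable (by simp) |>.differentiableAt
  -- the line through `y`
  have h1 : HasDerivAt (fun t : ℝ => wgt φ m x (y + t • (Pi.single i 1 : Sp d)))
      (fderiv ℝ (wgt φ m x) y (Pi.single i 1)) 0 := by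
    have h2 : HasDerivAt (fun t : ℝ => y + t • (Pi.single i 1 : Sp d)) (Pi.single i 1) 0 := by
      simpa using ((hasDerivAt_id (0 : ℝ)).smul_const (Pi.single i 1 : Sp d)).const_add y
    have h3 : HasFDerivAt (wgt φ m x) (fderiv ℝ (wgt φ m x) y)
        ((fun t : ℝ => y + t • (Pi.single i 1 : Sp d)) 0) := by
      simpa using hd.hasFDerivAt
    have h3' := HasFDerivAt.comp_hasDerivAt (f := fun t : ℝ => y + t • (Pi.single i 1 : Sp d))
      (l := wgt φ m x) (0 : ℝ) h3 h2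
    exact h3'
  have h4 : (fun t : ℝ => wgt φ m x (y + t • (Pi.single i 1 : Sp d))) =
      fun t : ℝ => φ (m * (y i + t) - x i) * ∏ j ∈ Finset.univ.erase i, φ (m * y j - x j) := by
    funext t
    unfold wgt
    rw [← Finset.mul_prod_erase Finset.univ _ (Finset.mem_univ i)]
    congr 1
    · simp
    · refine Finset.prod_congr rfl fun j hj => ?_
      have hji : j ≠ i := Finset.ne_of_mem_erase hj
      simp [Pi.single_eq_of_ne hji]
  have h5 : HasDerivAt (fun t : ℝ => φ (m * (y i + t) - x i) *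
      ∏ j ∈ Finset.univ.erase i, φ (m * y j - x j))
      ((deriv φ (m * y i - x i) * m) * ∏ j ∈ Finset.univ.erase i, φ (m * y j - x j)) 0 := by
    refine HasDerivAt.mul_const ?_ _
    have h6 : HasDerivAt (fun t : ℝ => (m : ℝ) * (y i + t) - x i) m 0 := by
      have := (((hasDerivAt_id (0 : ℝ)).const_add (y i)).const_mul (m : ℝ)).sub_const (x i : ℝ)
      simpa using this
    have h7 : HasDerivAt φ (deriv φ (m * y i - x i)) ((m : ℝ) * (y i + 0) - x i) := by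
      rw [add_zero]
      exact ((hs.smφ.differentiable (by simp)) _).hasDerivAt
    exact h7.comp (0 : ℝ) h6
  rw [h4] at h1
  rw [h1.unique h5, hs.der]
  unfold wgtD
  have h8 : ∏ j ∈ Finset.univ.erase i, φ (m * y j - ((x + Pi.single i 1 : Lt d) j : ℤ)) =
      ∏ j ∈ Finset.univ.erase i, φ (m * y j - x j) := by
    refine Finset.prod_congr rfl fun j hj => ?_
    have hji : j ≠ i := Finset.ne_of_mem_erase hj
    simp [Pi.single_eq_of_ne hji]
  rw [h8]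
  have h9 : (((x + Pi.single i 1 : Lt d) i : ℤ) : ℝ) = x i + 1 := by simp
  rw [h9, show (m : ℝ) * y i - ((x i : ℝ) + 1) = m * y i - x i - 1 by ring]
  ring

end Pool.Agent.H2.LTM
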