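import Pool.Agent.H2.LTM.DIS
import Pool.Agent.H2.LTM.LTS
import Pool.Agent.H2.LTM.WGT

/-!
# LTD: domination and crude bounds for the lattice forms

With `S θ = (m²/m^d) • latM d M θ + (E/m^d) • 1` (real scalars cast to `ℂ`) one has
`latForm φ m M θ V E lam v = qf (S θ) v - lam Σ potW x |v x|²` (`qf_latM`, linearity of `qf` in the
matrix).  `isHF_lat*` from `isHF_qf`, `isHF_wsum`.
`lat_dom`: `dis` with `S = S θ`, `T = S 0`, `D = potW`: hypotheses from `norm_latM_le`,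
`latM_zero_im`, `latM_diag` (off the diagonal the `1` does not contribute), `qf (S 0) v ≥ 0` because
`latKin ≥ 0`, `E ≥ 0`.
`potW_pos`: `V * wgt` is integrable (bounded measurable times integrable), nonnegative; if its
integral were `0` it would vanish a.e., hence `wgt = 0` a.e. (`V > 0`), contradicting
`integral_wgt = 1/m^d > 0`.
`lat_crude`: `cnt ≤ finrank = card (box d M) = (2M+1)^d` (`cnt_le_finrank`), and for `E ≥ lam B` the
form is `≥ (E - lam B)/m^d Σ|v|² ≥ 0` because `potW ≤ B/m^d`, so `cnt = 0` (`cnt_eq_zero`).  So the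
integral is `≤ (2M+1)^d ∫_0^{lam B} γ E^{γ-1} dE = (2M+1)^d (lam B)^γ`.
-/

open MeasureTheory Complex Set Filter Topology
open scoped ENNReal NNReal ContDiff ComplexConjugate

noncomputable section

namespace Pool.Agent.H2.LTM

variable {d : ℕ} {φ ψ : ℝ → ℝ}

theorem isHF_latKin (M : ℕ) (θ : Fin d → Lt d → ℝ) (r : ℝ) :
    IsHF (fun v : box d M → ℂ => r * latKin M θ (ext v)) := by
  have h := (isHF_qf _ (latM_isHermitian d M θ)).const_mul r
  simp only [qf_latM] at h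
  exact h

theorem isHF_latMass (M : ℕ) (r : ℝ) :
    IsHF (fun v : box d M → ℂ => r * ∑ x, ‖v x‖ ^ 2) := by
  have h := (isHF_wsum (X := box d M) (fun _ => (1 : ℝ))).const_mul r
  simp only [one_mul] at h
  exact h

theorem isHF_latPot (φ : ℝ → ℝ) (m M : ℕ) (V : Sp d → ℝ) :
    IsHF (fun v : box d M → ℂ => ∑ x : box d M, potW φ m V x * ‖v x‖ ^ 2) :=
  isHF_wsum (X := box d M) (fun x => potW φ m V x)

theorem LTD_int (hs : Spl φ ψ) {m : ℕ} (hm : 1 ≤ m) {V : Sp d → ℝ} (hV : Measurable V)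
    (h0 : ∀ y, 0 ≤ V y) {B : ℝ} (hB : ∀ y, V y ≤ B) (x : Lt d) :
    Integrable (fun y => V y * wgt φ m x y) := by
  refine ((integrable_wgt hs hm x).const_mul B).mono'
    (hV.aestronglyMeasurable.mul (integrable_wgt hs hm x).aestronglyMeasurable) (ae_of_all _ ?_)
  intro y
  have hw := wgt_nonneg hs m x y
  rw [Real.norm_eq_abs, abs_of_nonneg (mul_nonneg (h0 y) hw)]
  exact mul_le_mul_of_nonneg_right (hB y) hw

theorem potW_pos (hs : Spl φ ψ) {m : ℕ} (hm : 1 ≤ m) {V : Sp d → ℝ} (hV : Measurable V)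
    (h0 : ∀ y, 0 < V y) {B : ℝ} (hB : ∀ y, V y ≤ B) (x : Lt d) : 0 < potW φ m V x := by
  have hm0 : (0 : ℝ) < m := by exact_mod_cast hm
  have h1 : 0 < ∫ y, wgt φ m x y := by
    rw [integral_wgt hs hm x]
    positivity
  rw [integral_pos_iff_support_of_nonneg (fun y => wgt_nonneg hs m x y)
    (integrable_wgt hs hm x)] at h1
  unfold potW
  rw [integral_pos_iff_support_of_nonneg
    (fun y => mul_nonneg (h0 y).le (wgt_nonneg hs m x y))
    (LTD_int hs hm hV (fun y => (h0 y).le) hB x)]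
  refine lt_of_lt_of_le h1 (measure_mono ?_)
  intro y hy
  rw [Function.mem_support] at hy ⊢
  exact mul_ne_zero (h0 y).ne' hy

theorem LTD_potW_le (hs : Spl φ ψ) {m : ℕ} (hm : 1 ≤ m) {V : Sp d → ℝ} (hV : Measurable V)
    (h0 : ∀ y, 0 ≤ V y) {B : ℝ} (hB : ∀ y, V y ≤ B) (x : Lt d) :
    potW φ m V x ≤ B * (1 / (m : ℝ) ^ d) := by
  unfold potW
  rw [← integral_wgt hs hm x, ← integral_const_mul]
  refine integral_mono (LTD_int hs hm hV h0 hB x) ((integrable_wgt hs hm x).const_mul B) ?_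
  intro y
  exact mul_le_mul_of_nonneg_right (hB y) (wgt_nonneg hs m x y)

/-- the matrix `S θ` -/
def LTD_S (m M : ℕ) (θ : Fin d → Lt d → ℝ) (E : ℝ) : Matrix (box d M) (box d M) ℂ :=
  (((m : ℝ) ^ 2 / (m : ℝ) ^ d : ℝ) : ℂ) • latM d M θ +
    ((E * (1 / (m : ℝ) ^ d) : ℝ) : ℂ) • (1 : Matrix (box d M) (box d M) ℂ)

theorem LTD_qf {X : Type*} [Fintype X] [DecidableEq X] (A : Matrix X X ℂ) (r s : ℝ) (v : X → ℂ) :
    qf ((r : ℂ) • A + (s : ℂ) • (1 : Matrix X X ℂ)) v = r * qf A v + s * ∑ x, ‖v x‖ ^ 2 := by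
  unfold qf
  rw [Matrix.add_mulVec, Matrix.smul_mulVec, Matrix.smul_mulVec, Matrix.one_mulVec,
    dotProduct_add, dotProduct_smul, dotProduct_smul, Complex.add_re, smul_eq_mul, smul_eq_mul,
    Complex.re_ofReal_mul, Complex.re_ofReal_mul]
  congr 2
  unfold dotProduct
  rw [Complex.re_sum]
  refine Finset.sum_congr rfl fun x _ => ?_
  rw [Pi.star_apply, Complex.star_def, Complex.conj_mul']
  norm_cast

theorem LTD_form (φ : ℝ → ℝ) (m M : ℕ) (θ : Fin d → Lt d → ℝ) (V : Sp d → ℝ) (E lam : ℝ)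
    (v : box d M → ℂ) : latForm φ m M θ V E lam v =
      qf (LTD_S m M θ E) v - lam * ∑ x : box d M, potW φ m V x * ‖v x‖ ^ 2 := by
  unfold LTD_S latForm
  rw [LTD_qf, qf_latM]
  ring

theorem LTD_kin_nonneg (M : ℕ) (θ : Fin d → Lt d → ℝ) (v : Lt d → ℂ) : 0 ≤ latKin M θ v := by
  unfold latKin
  exact Finset.sum_nonneg fun i _ => Finset.sum_nonneg fun x _ => by positivity

theorem LTD_herm (m M : ℕ) (θ : Fin d → Lt d → ℝ) (E : ℝ) : (LTD_S m M θ E).IsHermitian := by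
  have h := latM_isHermitian d M θ
  refine Matrix.IsHermitian.ext fun x y => ?_
  unfold LTD_S
  simp only [Matrix.add_apply, Matrix.smul_apply, smul_eq_mul, star_add, star_mul',
    Complex.star_def, Complex.conj_ofReal]
  have h1 := h.apply x y
  rw [Complex.star_def] at h1
  rw [h1]
  congr 2
  have h2 := (Matrix.isHermitian_one (n := box d M) (α := ℂ)).apply x y
  rw [Complex.star_def] at h2
  exact h2

theorem lat_dom (hs : Spl φ ψ) {m : ℕ} (hm : 1 ≤ m) (M : ℕ) (θ : Fin d → Lt d → ℝ)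
    {V : Sp d → ℝ} (hV : Measurable V) (h0 : ∀ y, 0 < V y) {B : ℝ} (hB : ∀ y, V y ≤ B) {E a : ℝ}
    (hE : 0 ≤ E) (ha : 0 < a) :
    ∫⁻ lam in Ioi (0 : ℝ), ENNReal.ofReal (a * Real.exp (-(a * lam))) *
        ((cnt (fun v : box d M → ℂ => latForm φ m M θ V E lam v) : ℕ∞) : ℝ≥0∞) ≤
    ∫⁻ lam in Ioi (0 : ℝ), ENNReal.ofReal (a * Real.exp (-(a * lam))) *
        ((cnt (fun v : box d M → ℂ => latForm φ m M 0 V E lam v) : ℕ∞) : ℝ≥0∞) := by
  have hr : (0 : ℝ) ≤ (m : ℝ) ^ 2 / (m : ℝ) ^ d := by positivity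
  have hs0 : (0 : ℝ) ≤ E * (1 / (m : ℝ) ^ d) := by positivity
  simp only [LTD_form]
  refine dis (LTD_S m M θ E) (LTD_S m M 0 E) (LTD_herm m M θ E) (LTD_herm m M 0 E) ?_ ?_ ?_ ?_
    (fun x : box d M => potW φ m V x) (fun x => potW_pos hs hm hV h0 hB x) ha
  · intro x y hxy
    have h1 := norm_latM_le d M θ x y hxy
    unfold LTD_S
    simp only [Matrix.add_apply, Matrix.smul_apply, smul_eq_mul, Matrix.one_apply_ne hxy, mul_zero,
      add_zero, Complex.re_ofReal_mul]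
    rw [norm_mul, Complex.norm_real, Real.norm_of_nonneg hr, ← mul_neg]
    exact mul_le_mul_of_nonneg_left h1 hr
  · intro x y
    have h1 := latM_zero_im d M x y
    unfold LTD_S
    simp only [Matrix.add_apply, Matrix.smul_apply, smul_eq_mul, Complex.add_im,
      Complex.im_ofReal_mul, h1, mul_zero, zero_add]
    rw [Matrix.one_apply]
    split_ifs <;> simp
  · intro x
    unfold LTD_S
    simp only [Matrix.add_apply, Matrix.smul_apply, latM_diag]
    exact le_refl _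
  · intro v
    unfold LTD_S
    rw [LTD_qf, qf_latM]
    have h1 := LTD_kin_nonneg M 0 (ext v)
    positivity

theorem LTD_card (d M : ℕ) : (box d M).card = (2 * M + 1) ^ d := by
  unfold box
  rw [Fintype.card_piFinset]
  simp only [Int.card_Icc, Finset.prod_const, Finset.card_univ, Fintype.card_fin]
  congr 1
  omega

theorem LTD_pint {γ c : ℝ} (hγ : 0 < γ) (hc : 0 ≤ c) :
    ∫⁻ E in Ioo (0 : ℝ) c, ENNReal.ofReal (γ * E ^ (γ - 1)) = ENNReal.ofReal (c ^ γ) := by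
  have h1 : IntervalIntegrable (fun E : ℝ => γ * E ^ (γ - 1)) volume 0 c :=
    (intervalIntegral.intervalIntegrable_rpow' (by linarith)).const_mul γ
  rw [setLIntegral_congr Ioo_ae_eq_Ioc]
  rw [← ofReal_integral_eq_lintegral_ofReal]
  · rw [← intervalIntegral.integral_of_le hc, intervalIntegral.integral_const_mul,
      integral_rpow (Or.inl (by linarith))]
    congr 1
    rw [sub_add_cancel, Real.zero_rpow hγ.ne']
    field_simp
    ring
  · exact (intervalIntegrable_iff_integrableOn_Ioc_of_le hc).1 h1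
  · refine (ae_restrict_iff' measurableSet_Ioc).2 (ae_of_all _ fun E hE => ?_)
    have : 0 ≤ E ^ (γ - 1) := Real.rpow_nonneg hE.1.le _
    positivity

theorem lat_crude (hs : Spl φ ψ) {m : ℕ} (hm : 1 ≤ m) (M : ℕ) {V : Sp d → ℝ}
    (hV : Measurable V) (h0 : ∀ y, 0 ≤ V y) {B : ℝ} (hB : ∀ y, V y ≤ B) {γ lam : ℝ} (hγ : 0 < γ)
    (hlam : 0 < lam) :
    ∫⁻ E in Ioi (0 : ℝ), ENNReal.ofReal (γ * E ^ (γ - 1)) *
        ((cnt (fun v : box d M → ℂ => latForm φ m M 0 V E lam v) : ℕ∞) : ℝ≥0∞) ≤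
      ENNReal.ofReal ((2 * (M : ℝ) + 1) ^ d * (lam * B) ^ γ) := by
  have hm0 : (0 : ℝ) < m := by exact_mod_cast hm
  have hB0 : 0 ≤ B := (h0 0).trans (hB 0)
  have hc : 0 ≤ lam * B := by positivity
  have hcard : ∀ E : ℝ, ((cnt (fun v : box d M → ℂ => latForm φ m M 0 V E lam v) : ℕ∞) : ℝ≥0∞) ≤
      (((2 * M + 1) ^ d : ℕ) : ℝ≥0∞) := by
    intro E
    have h1 := cnt_le_finrank (fun v : box d M → ℂ => latForm φ m M 0 V E lam v)
    rw [Module.finrank_fintype_fun_eq_card, Fintype.card_coe, LTD_card] at h1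
    exact_mod_cast h1
  have hzero : ∀ E : ℝ, lam * B ≤ E →
      cnt (fun v : box d M → ℂ => latForm φ m M 0 V E lam v) = 0 := by
    intro E hE
    refine cnt_eq_zero _ fun v => ?_
    unfold latForm
    have h1 := LTD_kin_nonneg M 0 (ext v)
    have h2 : 0 ≤ (m : ℝ) ^ 2 / (m : ℝ) ^ d * latKin M 0 (ext v) := by positivity
    have h3 : ∑ x : box d M, potW φ m V x * ‖v x‖ ^ 2 ≤
        B * (1 / (m : ℝ) ^ d) * ∑ x : box d M, ‖v x‖ ^ 2 := by
      rw [Finset.mul_sum]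
      exact Finset.sum_le_sum fun x _ =>
        mul_le_mul_of_nonneg_right (LTD_potW_le hs hm hV h0 hB x) (by positivity)
    have h4 : 0 ≤ ∑ x : box d M, ‖v x‖ ^ 2 := Finset.sum_nonneg fun x _ => by positivity
    have h5 : lam * ∑ x : box d M, potW φ m V x * ‖v x‖ ^ 2 ≤
        lam * (B * (1 / (m : ℝ) ^ d) * ∑ x : box d M, ‖v x‖ ^ 2) :=
      mul_le_mul_of_nonneg_left h3 hlam.le
    have h6 : lam * (B * (1 / (m : ℝ) ^ d) * ∑ x : box d M, ‖v x‖ ^ 2) ≤
        E * (1 / (m : ℝ) ^ d * ∑ x : box d M, ‖v x‖ ^ 2) := by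
      have : 0 ≤ 1 / (m : ℝ) ^ d * ∑ x : box d M, ‖v x‖ ^ 2 := by positivity
      calc lam * (B * (1 / (m : ℝ) ^ d) * ∑ x : box d M, ‖v x‖ ^ 2)
          = lam * B * (1 / (m : ℝ) ^ d * ∑ x : box d M, ‖v x‖ ^ 2) := by ring
        _ ≤ _ := mul_le_mul_of_nonneg_right hE this
    linarith
  calc ∫⁻ E in Ioi (0 : ℝ), ENNReal.ofReal (γ * E ^ (γ - 1)) *
        ((cnt (fun v : box d M → ℂ => latForm φ m M 0 V E lam v) : ℕ∞) : ℝ≥0∞)
      ≤ ∫⁻ E in Ioi (0 : ℝ), (Ioo (0 : ℝ) (lam * B)).indicator (fun E =>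
          (((2 * M + 1) ^ d : ℕ) : ℝ≥0∞) * ENNReal.ofReal (γ * E ^ (γ - 1))) E := by
        refine setLIntegral_mono' measurableSet_Ioi fun E hE => ?_
        by_cases h : E < lam * B
        · rw [indicator_of_mem (show E ∈ Ioo (0 : ℝ) (lam * B) from ⟨hE, h⟩), mul_comm]
          exact mul_le_mul_left (hcard E) _
        · rw [hzero E (not_lt.1 h)]
          simp
    _ ≤ ∫⁻ E, (Ioo (0 : ℝ) (lam * B)).indicator (fun E =>
          (((2 * M + 1) ^ d : ℕ) : ℝ≥0∞) * ENNReal.ofReal (γ * E ^ (γ - 1))) E :=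
        setLIntegral_le_lintegral _ _
    _ = (((2 * M + 1) ^ d : ℕ) : ℝ≥0∞) * ENNReal.ofReal ((lam * B) ^ γ) := by
        rw [lintegral_indicator measurableSet_Ioo, lintegral_const_mul' _ _ (ENNReal.natCast_ne_top _),
          LTD_pint hγ hc]
    _ = ENNReal.ofReal ((2 * (M : ℝ) + 1) ^ d * (lam * B) ^ γ) := by
        rw [ENNReal.ofReal_mul (by positivity)]
        congr 1
        rw [← ENNReal.ofReal_natCast]
        congr 1
        push_cast
        ring

end Pool.Agent.H2.LTM
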