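import Pool.Agent.H2.LTM.Defs

/-!
# UCV: uniform convergence of the magnetic difference quotients

Let `u ∈ TF d` vanish off `{|y_j| < R₀}`; both functions vanish if some `|y_j| ≥ R := R₀ + 1` and
`m ≥ 1`.  (`fderiv` of `u` vanishes outside the support.)  On the compact box `|α| := |A y i| ≤ a₀`.
`m (e^{iα/m} u(y+e_i/m) - u y) = e^{iα/m} m (u(y+e_i/m) - u y) + m (e^{iα/m} - 1) u y`.
`|m (u(y+e_i/m) - u y) - ∂_i u y| ≤ sup_{0≤t≤1/m} |∂_i u (y + t e_i) - ∂_i u y| → 0` uniformly in `y`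
(mean value inequality for `t ↦ u (y + t e_i) - t ∂_i u y`; `∂_i u` is continuous with compact
support hence uniformly continuous, `Continuous.uniformContinuous_of_hasCompactSupport`-type lemma).
`|e^{iα/m} - 1| ≤ |α|/m`, `|m (e^{iα/m} - 1) - iα| ≤ α²/m` (`Complex.norm_exp_sub_one_sub_id_le` for
`|α|/m ≤ 1`, or the real inequality `‖exp(i s) - 1 - i s‖ ≤ s²`).  So the vectors converge
uniformly and are uniformly bounded, hence so do the squares of their norms.
-/

open MeasureTheory Complex Set Filter Topology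
open scoped ENNReal NNReal ContDiff ComplexConjugate

noncomputable section

namespace Pool.Agent.H2.LTM

variable {d : ℕ}

/-- the magnetic difference quotient. -/
def dq (A : Sp d → Sp d) (u : Sp d → ℂ) (i : Fin d) (m : ℕ) (y : Sp d) : ℂ :=
  (m : ℂ) * (Complex.exp (I * ((A y i / m : ℝ) : ℂ)) * u (y + Pi.single i (1 / (m : ℝ))) - u y)

/-- mean value estimate for the difference quotient -/
theorem UCV_mv {u : Sp d → ℂ} (hu : Differentiable ℝ u) (e : Sp d) {h w0 : ℝ} (hh : 0 ≤ h)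
    (y : Sp d)
    (hw : ∀ t ∈ Icc (0 : ℝ) h, ‖fderiv ℝ u (y + t • e) e - fderiv ℝ u y e‖ ≤ w0) :
    ‖u (y + h • e) - u y - (h : ℂ) * fderiv ℝ u y e‖ ≤ w0 * h := by
  have hd : ∀ t ∈ Icc (0 : ℝ) h, HasDerivWithinAt
      (fun t : ℝ => u (y + t • e) - (t : ℂ) * fderiv ℝ u y e)
      (fderiv ℝ u (y + t • e) e - fderiv ℝ u y e) (Icc 0 h) t := by
    intro t _
    have h1 : HasDerivAt (fun t : ℝ => y + t • e) e t := by
      simpa using ((hasDerivAt_id t).smul_const e).const_add y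
    have h2 : HasDerivAt (fun t : ℝ => u (y + t • e)) (fderiv ℝ u (y + t • e) e) t :=
      (hu (y + t • e)).hasFDerivAt.comp_hasDerivAt t h1
    have h3 : HasDerivAt (fun t : ℝ => (t : ℂ) * fderiv ℝ u y e) (fderiv ℝ u y e) t := by
      have := (Complex.ofRealCLM.hasDerivAt (x := t)).mul_const (fderiv ℝ u y e)
      simpa using this
    exact (h2.sub h3).hasDerivWithinAt
  have h4 := (convex_Icc (0 : ℝ) h).norm_image_sub_le_of_norm_hasDerivWithin_le hd hw
    (left_mem_Icc.2 hh) (right_mem_Icc.2 hh)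
  simp only [zero_smul, add_zero, Complex.ofReal_zero, zero_mul, sub_zero, Real.norm_eq_abs,
    abs_of_nonneg hh] at h4
  calc ‖u (y + h • e) - u y - (h : ℂ) * fderiv ℝ u y e‖
      = ‖u (y + h • e) - (h : ℂ) * fderiv ℝ u y e - u y‖ := by congr 1; ring
    _ ≤ w0 * h := h4

theorem UCV_single (i : Fin d) (c : ℝ) : (Pi.single i c : Sp d) = c • (Pi.single i 1 : Sp d) := by
  rw [← Pi.single_smul]
  simp

/-- the estimate for one point -/
theorem UCV_point {A : Sp d → Sp d} {u : Sp d → ℂ} (hu : Differentiable ℝ u) (i : Fin d)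
    {a0 K w0 : ℝ} (ha0 : 0 ≤ a0) (hKv : ∀ y, ‖fderiv ℝ u y (Pi.single i 1)‖ ≤ K)
    (hKu : ∀ y, ‖u y‖ ≤ K) (hA : ∀ y ∈ tsupport u, |A y i| ≤ a0) {m : ℕ} (hm : 1 ≤ m)
    (hma : a0 ≤ m)
    (hw : ∀ y, ∀ t ∈ Icc (0 : ℝ) (1 / m),
      ‖fderiv ℝ u (y + t • (Pi.single i 1 : Sp d)) (Pi.single i 1) -
        fderiv ℝ u y (Pi.single i 1)‖ ≤ w0) (y : Sp d) :
    ‖dq A u i m y - cov A u i y‖ ≤ w0 + (a0 * K + a0 ^ 2 * K) / m := by
  have hm0 : (0 : ℝ) < m := by exact_mod_cast hm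
  have hmc : (m : ℂ) ≠ 0 := by exact_mod_cast (by omega : m ≠ 0)
  set e : Sp d := Pi.single i 1 with he
  set v : ℂ := fderiv ℝ u y e with hv
  set α : ℝ := A y i with hα
  have hK0 : 0 ≤ K := le_trans (norm_nonneg _) (hKu y)
  have h1 := UCV_mv hu e (h := 1 / m) (by positivity) y (hw y)
  have h2 : ‖(m : ℂ) * (u (y + (1 / (m : ℝ)) • e) - u y) - v‖ ≤ w0 := by
    have e1 : (m : ℂ) * (u (y + (1 / (m : ℝ)) • e) - u y) - v =
        (m : ℂ) * (u (y + (1 / (m : ℝ)) • e) - u y - ((1 / (m : ℝ) : ℝ) : ℂ) * v) := by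
      push_cast
      field_simp
    rw [e1, norm_mul, Complex.norm_natCast]
    calc (m : ℝ) * ‖u (y + (1 / (m : ℝ)) • e) - u y - ((1 / (m : ℝ) : ℝ) : ℂ) * v‖
        ≤ m * (w0 * (1 / m)) := mul_le_mul_of_nonneg_left h1 hm0.le
      _ = w0 := by field_simp
  have hkey : dq A u i m y - cov A u i y =
      Complex.exp (I * ((α / m : ℝ) : ℂ)) * ((m : ℂ) * (u (y + (1 / (m : ℝ)) • e) - u y) - v) +
      (Complex.exp (I * ((α / m : ℝ) : ℂ)) - 1) * v +
      (m : ℂ) * (Complex.exp (I * ((α / m : ℝ) : ℂ)) - 1 - I * ((α / m : ℝ) : ℂ)) * u y := by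
    unfold dq cov
    rw [UCV_single i (1 / (m : ℝ)), ← he, ← hv, ← hα]
    have e2 : (m : ℂ) * (I * ((α / m : ℝ) : ℂ)) = I * (α : ℂ) := by
      push_cast
      field_simp
    linear_combination (u y) * e2
  have hexp : ‖Complex.exp (I * ((α / m : ℝ) : ℂ))‖ = 1 := by
    rw [mul_comm]
    exact Complex.norm_exp_ofReal_mul_I _
  rw [hkey]
  refine (norm_add_le _ _).trans ?_
  refine (add_le_add_left (norm_add_le _ _) _).trans ?_
  rw [norm_mul, hexp, one_mul]
  by_cases hy : y ∈ tsupport u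
  · have hαa : |α| ≤ a0 := hA y hy
    have h3 : ‖(Complex.exp (I * ((α / m : ℝ) : ℂ)) - 1) * v‖ ≤ a0 * K / m := by
      rw [norm_mul]
      have h5 : ‖Complex.exp (I * ((α / m : ℝ) : ℂ)) - 1‖ ≤ a0 / m := by
        refine Real.norm_exp_I_mul_ofReal_sub_one_le.trans ?_
        rw [Real.norm_eq_abs, abs_div, abs_of_pos hm0]
        gcongr
      calc ‖Complex.exp (I * ((α / m : ℝ) : ℂ)) - 1‖ * ‖v‖ ≤ a0 / m * K :=
            mul_le_mul h5 (hKv y) (norm_nonneg _) (by positivity)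
        _ = a0 * K / m := by ring
    have h4 : ‖(m : ℂ) * (Complex.exp (I * ((α / m : ℝ) : ℂ)) - 1 - I * ((α / m : ℝ) : ℂ)) * u y‖ ≤
        a0 ^ 2 * K / m := by
      have hn : ‖I * ((α / m : ℝ) : ℂ)‖ = |α| / m := by
        rw [norm_mul, Complex.norm_I, one_mul, Complex.norm_real, Real.norm_eq_abs, abs_div,
          abs_of_pos hm0]
      have h5 : ‖Complex.exp (I * ((α / m : ℝ) : ℂ)) - 1 - I * ((α / m : ℝ) : ℂ)‖ ≤
          (|α| / m) ^ 2 := by
        rw [← hn]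
        apply Complex.norm_exp_sub_one_sub_id_le
        rw [hn, div_le_one hm0]
        exact hαa.trans hma
      rw [norm_mul, norm_mul, Complex.norm_natCast]
      calc (m : ℝ) * ‖Complex.exp (I * ((α / m : ℝ) : ℂ)) - 1 - I * ((α / m : ℝ) : ℂ)‖ * ‖u y‖
          ≤ m * (a0 / m) ^ 2 * K := by
            apply mul_le_mul _ (hKu y) (norm_nonneg _) (by positivity)
            apply mul_le_mul_of_nonneg_left _ hm0.le
            refine h5.trans ?_
            gcongr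
        _ = a0 ^ 2 * K / m := by field_simp
    calc _ ≤ w0 + a0 * K / m + a0 ^ 2 * K / m := add_le_add (add_le_add h2 h3) h4
      _ = w0 + (a0 * K + a0 ^ 2 * K) / m := by ring
  · have hu0 : u y = 0 := image_eq_zero_of_notMem_tsupport hy
    have hv0 : v = 0 := by
      rw [hv, fderiv_of_notMem_tsupport ℝ hy]
      rfl
    have hnn : 0 ≤ (a0 * K + a0 ^ 2 * K) / m := by positivity
    have hv1 : ‖(Complex.exp (I * ((α / m : ℝ) : ℂ)) - 1) * v‖ = 0 := by
      rw [hv0, mul_zero, norm_zero]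
    have hu1 : ‖(m : ℂ) * (Complex.exp (I * ((α / m : ℝ) : ℂ)) - 1 - I * ((α / m : ℝ) : ℂ)) * u y‖ = 0 := by
      rw [hu0, mul_zero, norm_zero]
    rw [hv1, hu1]
    linarith

theorem dq_unif {A : Sp d → Sp d} (hA : Continuous A) {u : Sp d → ℂ} (hu : u ∈ TF d) (i : Fin d)
    {ε : ℝ} (hε : 0 < ε) :
    ∀ᶠ m : ℕ in atTop, ∀ y, |‖dq A u i m y‖ ^ 2 - ‖cov A u i y‖ ^ 2| ≤ ε := by
  obtain ⟨hus, huc⟩ := hu
  have hdiff : Differentiable ℝ u := hus.differentiable (by simp)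
  set v : Sp d → ℂ := fun y => fderiv ℝ u y (Pi.single i 1) with hv
  have hvc : Continuous v := by
    have : Continuous (fderiv ℝ u) := hus.continuous_fderiv (by simp)
    exact this.clm_apply continuous_const
  have hvs : HasCompactSupport v := by
    have h1 : HasCompactSupport (fderiv ℝ u) := huc.fderiv ℝ
    exact h1.comp_left (g := fun L : Sp d →L[ℝ] ℂ => L (Pi.single i 1)) rfl
  have hvu : UniformContinuous v := hvs.uniformContinuous_of_continuous hvc
  obtain ⟨K1, hK1⟩ := hvc.bounded_above_of_compact_support hvs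
  obtain ⟨K2, hK2⟩ := hus.continuous.bounded_above_of_compact_support huc
  set K := max (max K1 K2) 0 with hK
  have hK0 : 0 ≤ K := le_max_right _ _
  have hKv : ∀ y, ‖v y‖ ≤ K := fun y => (hK1 y).trans ((le_max_left _ _).trans (le_max_left _ _))
  have hKu : ∀ y, ‖u y‖ ≤ K := fun y => (hK2 y).trans ((le_max_right _ _).trans (le_max_left _ _))
  obtain ⟨a1, ha1⟩ := (huc.isCompact).exists_bound_of_continuousOn
    (f := fun y => A y i) ((continuous_apply i).comp hA).continuousOn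
  set a0 := max a1 0 with ha0'
  have ha0 : 0 ≤ a0 := le_max_right _ _
  have hAa : ∀ y ∈ tsupport u, |A y i| ≤ a0 := fun y hy => (ha1 y hy).trans (le_max_left _ _)
  -- bound for `cov`
  have hcov : ∀ y, ‖cov A u i y‖ ≤ K + a0 * K := by
    intro y
    unfold cov
    refine (norm_add_le _ _).trans (add_le_add (hKv y) ?_)
    rw [norm_mul, norm_mul, Complex.norm_I, one_mul, Complex.norm_real, Real.norm_eq_abs]
    by_cases hy : y ∈ tsupport u
    · exact mul_le_mul (hAa y hy) (hKu y) (norm_nonneg _) ha0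
    · rw [image_eq_zero_of_notMem_tsupport hy, norm_zero, mul_zero]
      positivity
  set Q := K + a0 * K with hQ
  have hQ0 : 0 ≤ Q := by positivity
  set η := min 1 (ε / (2 * Q + 1)) with hη
  have hη0 : 0 < η := lt_min one_pos (by positivity)
  have hη1 : η ≤ 1 := min_le_left _ _
  have hη2 : η * (2 * Q + 1) ≤ ε := by
    have : η ≤ ε / (2 * Q + 1) := min_le_right _ _
    rwa [le_div_iff₀ (by positivity)] at this
  obtain ⟨δ, hδ, hδv⟩ := Metric.uniformContinuous_iff.1 hvu (η / 2) (by positivity)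
  have hlim1 : ∀ᶠ m : ℕ in atTop, 1 / (m : ℝ) < δ := by
    exact (tendsto_one_div_atTop_nhds_zero_nat (𝕜 := ℝ)).eventually (gt_mem_nhds hδ)
  have hlim2 : ∀ᶠ m : ℕ in atTop, (a0 * K + a0 ^ 2 * K) / (m : ℝ) < η / 2 :=
    (tendsto_const_div_atTop_nhds_zero_nat (𝕜 := ℝ) (a0 * K + a0 ^ 2 * K)).eventually
      (gt_mem_nhds (by positivity))
  have hlim3 : ∀ᶠ m : ℕ in atTop, a0 ≤ (m : ℝ) :=
    (tendsto_natCast_atTop_atTop).eventually_ge_atTop a0
  filter_upwards [hlim1, hlim2, hlim3, eventually_ge_atTop 1] with m h1 h2 h3 h4 y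
  have hm0 : (0 : ℝ) < m := by exact_mod_cast h4
  have hpt := UCV_point (A := A) hdiff i ha0 hKv hKu hAa h4 h3 (w0 := η / 2) (by
    intro y t ht
    have h5 := hδv (a := y + t • (Pi.single i 1 : Sp d)) (b := y) (by
      rw [dist_eq_norm, add_sub_cancel_left, norm_smul]
      have h6 : ‖(Pi.single i 1 : Sp d)‖ = 1 := by
        rw [Pi.norm_single]
        simp
      rw [h6, mul_one, Real.norm_eq_abs, abs_of_nonneg ht.1]
      exact lt_of_le_of_lt ht.2 h1)
    rw [dist_eq_norm] at h5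
    exact h5.le) y
  have h7 : ‖dq A u i m y - cov A u i y‖ ≤ η := by linarith
  have h8 : ‖dq A u i m y‖ ≤ Q + η := by
    have := norm_le_norm_add_norm_sub' (dq A u i m y) (cov A u i y)
    linarith [hcov y]
  have h9 : |‖dq A u i m y‖ - ‖cov A u i y‖| ≤ η := (abs_norm_sub_norm_le _ _).trans h7
  have e1 : ‖dq A u i m y‖ ^ 2 - ‖cov A u i y‖ ^ 2 =
      (‖dq A u i m y‖ - ‖cov A u i y‖) * (‖dq A u i m y‖ + ‖cov A u i y‖) := by ring
  rw [e1, abs_mul]
  have h10 : |‖dq A u i m y‖ + ‖cov A u i y‖| ≤ 2 * Q + 1 := by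
    rw [abs_of_nonneg (by positivity)]
    linarith [hcov y]
  calc |‖dq A u i m y‖ - ‖cov A u i y‖| * |‖dq A u i m y‖ + ‖cov A u i y‖| ≤ η * (2 * Q + 1) :=
        mul_le_mul h9 h10 (abs_nonneg _) hη0.le
    _ ≤ ε := hη2

theorem dq_supp (A : Sp d → Sp d) {u : Sp d → ℂ} (hu : u ∈ TF d) (i : Fin d) :
    ∃ R : ℕ, ∀ m : ℕ, 1 ≤ m → ∀ y : Sp d, (∃ j, (R : ℝ) ≤ |y j|) →
      dq A u i m y = 0 ∧ cov A u i y = 0 ∧ u y = 0 := by
  obtain ⟨hus, huc⟩ := hu
  obtain ⟨R0, hR0⟩ := huc.isCompact.isBounded.subset_closedBall (0 : Sp d)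
  obtain ⟨R, hR⟩ := exists_nat_gt (R0 + 1)
  refine ⟨R, fun m hm y ⟨j, hj⟩ => ?_⟩
  have hout : ∀ z : Sp d, R0 < |z j| → z ∉ tsupport u := by
    intro z hz hzt
    have h1 := hR0 hzt
    rw [mem_closedBall_zero_iff] at h1
    have h2 := norm_le_pi_norm z j
    rw [Real.norm_eq_abs] at h2
    linarith
  have hy : y ∉ tsupport u := hout y (by linarith)
  have hy2 : y + Pi.single i (1 / (m : ℝ)) ∉ tsupport u := by
    apply hout
    have hm1 : (1 : ℝ) / m ≤ 1 := by
      rw [div_le_one (by exact_mod_cast hm)]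
      exact_mod_cast hm
    have h1 : |(Pi.single i (1 / (m : ℝ)) : Sp d) j| ≤ 1 := by
      have h2 := norm_le_pi_norm (Pi.single i (1 / (m : ℝ)) : Sp d) j
      rw [Pi.norm_single, Real.norm_eq_abs, Real.norm_eq_abs] at h2
      refine h2.trans ?_
      rw [abs_of_nonneg (by positivity : (0 : ℝ) ≤ 1 / (m : ℝ))]
      exact hm1
    rw [Pi.add_apply]
    have h3 := abs_sub_abs_le_abs_add (y j) ((Pi.single i (1 / (m : ℝ)) : Sp d) j)
    linarith
  have hu0 : u y = 0 := image_eq_zero_of_notMem_tsupport hy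
  refine ⟨?_, ?_, hu0⟩
  · unfold dq
    rw [hu0, image_eq_zero_of_notMem_tsupport hy2]
    simp
  · unfold cov
    rw [hu0, fderiv_of_notMem_tsupport ℝ hy]
    simp

end Pool.Agent.H2.LTM
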