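import Pool.Agent.H2.LTM.RSM
import Pool.Agent.H2.LTM.UCV

/-!
# SMP: the sampled forms converge

For `m ≥ R` (support radius of `u`, an integer): `ext (samp m (m*m) u) x = u (pt m x)` for ALL `x`
(off the box some `|x_j| ≥ m²+1 > R m` so `u (pt m x) = 0`), and
`pt m (x + e_i) = pt m x + Pi.single i (1/m)`.
`smp_mass`, `smp_pot`: `rsm_one`, `rsm` with `f = ‖u‖²`, `N m = m*m` (`Finset.sum_coe_sort`).
`smp_kin`: the expression equals `Σ_i 1/m^d Σ_{x ∈ box (m*m+1)} ‖dq A u i m (pt m x)‖²`; by `dq_unif`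
and `dq_supp` it differs from `Σ_i 1/m^d Σ_{x ∈ box (m*m+1)} ‖cov A u i (pt m x)‖²` by at most
`d ε (1/m^d) #{x : ∀ j, |x_j| < R m} ≤ d ε (2R)^d`-ish (`≤ d ε (2R+1)^d`), and `rsm_one` applies to
`f = ‖cov A u i ·‖²` (continuous, compact support), `N m = m*m+1`.
-/

open MeasureTheory Complex Set Filter Topology
open scoped ENNReal NNReal ContDiff ComplexConjugate

noncomputable section

namespace Pool.Agent.H2.LTM

variable {d : ℕ} {φ ψ : ℝ → ℝ}

private theorem SMP_hc {u : Sp d → ℂ} (hu : u ∈ TF d) :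
    Continuous (fun x => ‖u x‖ ^ 2) ∧ HasCompactSupport (fun x => ‖u x‖ ^ 2) := by
  obtain ⟨h1, h2⟩ := hu
  refine ⟨h1.continuous.norm.pow 2, ?_⟩
  exact h2.comp_left (g := fun z : ℂ => ‖z‖ ^ 2) (by simp)

private theorem SMP_cov {A : Sp d → Sp d} (hA : Continuous A) {u : Sp d → ℂ} (hu : u ∈ TF d)
    (i : Fin d) : Continuous (fun x => ‖cov A u i x‖ ^ 2) ∧
      HasCompactSupport (fun x => ‖cov A u i x‖ ^ 2) := by
  obtain ⟨R, hR⟩ := dq_supp A hu i
  obtain ⟨h1, h2⟩ := hu
  constructor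
  · refine (Continuous.norm ?_).pow 2
    have e1 : Continuous (fderiv ℝ u) := h1.continuous_fderiv (by simp)
    have e2 : Continuous fun x => ((A x i : ℝ) : ℂ) :=
      Complex.continuous_ofReal.comp ((continuous_apply i).comp hA)
    exact (e1.clm_apply continuous_const).add ((continuous_const.mul e2).mul h1.continuous)
  · refine HasCompactSupport.intro (K := Set.Icc (fun _ : Fin d => -(R : ℝ)) (fun _ => (R : ℝ)))
      isCompact_Icc ?_
    intro x hx
    have h3 : ∃ j, (R : ℝ) ≤ |x j| := by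
      by_contra hcon
      push Not at hcon
      apply hx
      constructor
      · intro j
        exact (abs_lt.1 (hcon j)).1.le
      · intro j
        exact (abs_lt.1 (hcon j)).2.le
    rw [(hR 1 le_rfl x h3).2.1]
    simp

private theorem SMP_card (d K : ℕ) : (box d K).card = (2 * K + 1) ^ d := by
  unfold box
  rw [Fintype.card_piFinset]
  simp only [Int.card_Icc, Finset.prod_const, Finset.card_univ, Fintype.card_fin]
  congr 1
  omega

private theorem SMP_dq {A : Sp d → Sp d} (hA : Continuous A) {u : Sp d → ℂ} (hu : u ∈ TF d)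
    (i : Fin d) : Tendsto (fun m : ℕ => 1 / (m : ℝ) ^ d *
      ∑ x ∈ box d (m * m + 1), ‖dq A u i m (pt m x)‖ ^ 2) atTop
      (𝓝 (∫ x, ‖cov A u i x‖ ^ 2)) := by
  obtain ⟨h1, h2⟩ := SMP_cov hA hu i
  have h3 := rsm_one h1 h2 (fun m => m * m + 1) (fun m => Nat.le_succ _)
  have h4 : Tendsto (fun m : ℕ => 1 / (m : ℝ) ^ d *
      ∑ x ∈ box d (m * m + 1), (‖dq A u i m (pt m x)‖ ^ 2 - ‖cov A u i (pt m x)‖ ^ 2)) atTop
      (𝓝 0) := by
    obtain ⟨R, hR⟩ := dq_supp A hu i
    rw [Metric.tendsto_atTop]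
    intro ε hε
    set C : ℝ := (2 * (R : ℝ) + 1) ^ d with hC
    have hC0 : 0 < C := by positivity
    have h5 := dq_unif hA hu i (ε := ε / (2 * C)) (by positivity)
    obtain ⟨M, hM⟩ := eventually_atTop.1 (h5.and (eventually_ge_atTop 1))
    refine ⟨M, fun m hm => ?_⟩
    obtain ⟨h6, h7⟩ := hM m hm
    have hmpos : (0 : ℝ) < m := by exact_mod_cast h7
    rw [Real.dist_eq, sub_zero, abs_mul, abs_of_pos (by positivity)]
    have h8 : |∑ x ∈ box d (m * m + 1), (‖dq A u i m (pt m x)‖ ^ 2 - ‖cov A u i (pt m x)‖ ^ 2)| ≤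
        ((2 * (R : ℝ) + 1) * m) ^ d * (ε / (2 * C)) := by
      have e1 : ∑ x ∈ box d (m * m + 1), (‖dq A u i m (pt m x)‖ ^ 2 - ‖cov A u i (pt m x)‖ ^ 2) =
          ∑ x ∈ (box d (m * m + 1)).filter (fun x => x ∈ box d (R * m)),
            (‖dq A u i m (pt m x)‖ ^ 2 - ‖cov A u i (pt m x)‖ ^ 2) := by
        symm
        apply Finset.sum_subset (Finset.filter_subset _ _)
        intro x hx hx'
        have hx'' : x ∉ box d (R * m) := fun h => hx' (Finset.mem_filter.2 ⟨hx, h⟩)
        have e2 : ∃ j, (R : ℝ) ≤ |(pt m x) j| := by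
          by_contra hcon
          push Not at hcon
          apply hx''
          unfold box
          rw [Fintype.mem_piFinset]
          intro j
          have e3 := hcon j
          unfold pt at e3
          rw [abs_div, abs_of_pos hmpos, div_lt_iff₀ hmpos] at e3
          have e4 : |x j| < (R * m : ℕ) := by
            have : ((|x j| : ℤ) : ℝ) < ((R * m : ℕ) : ℝ) := by
              push_cast
              exact e3
            exact_mod_cast this
          rw [Finset.mem_Icc]
          rw [abs_lt] at e4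
          exact ⟨e4.1.le, e4.2.le⟩
        obtain ⟨e5, e6, -⟩ := hR m h7 (pt m x) e2
        rw [e5, e6]
        simp
      rw [e1]
      refine (Finset.abs_sum_le_sum_abs _ _).trans ?_
      refine (Finset.sum_le_card_nsmul _ _ (ε / (2 * C)) (fun x _ => h6 (pt m x))).trans ?_
      rw [nsmul_eq_mul]
      apply mul_le_mul_of_nonneg_right _ (by positivity)
      have e7 : ((box d (m * m + 1)).filter (fun x => x ∈ box d (R * m))).card ≤
          (box d (R * m)).card := Finset.card_le_card (fun x hx => (Finset.mem_filter.1 hx).2)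
      rw [SMP_card] at e7
      calc ((((box d (m * m + 1)).filter (fun x => x ∈ box d (R * m))).card : ℕ) : ℝ)
          ≤ (((2 * (R * m) + 1) ^ d : ℕ) : ℝ) := by exact_mod_cast e7
        _ = (2 * ((R : ℝ) * m) + 1) ^ d := by push_cast; ring
        _ ≤ ((2 * (R : ℝ) + 1) * m) ^ d := by
            apply pow_le_pow_left₀ (by positivity)
            have : (1 : ℝ) ≤ m := by exact_mod_cast h7
            nlinarith
    calc 1 / (m : ℝ) ^ d * |∑ x ∈ box d (m * m + 1),
          (‖dq A u i m (pt m x)‖ ^ 2 - ‖cov A u i (pt m x)‖ ^ 2)|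
        ≤ 1 / (m : ℝ) ^ d * (((2 * (R : ℝ) + 1) * m) ^ d * (ε / (2 * C))) :=
          mul_le_mul_of_nonneg_left h8 (by positivity)
      _ = ε / 2 := by
          rw [mul_pow, ← hC]
          field_simp
      _ < ε := by linarith
  have h5 := h3.add h4
  rw [add_zero] at h5
  refine h5.congr (fun m => ?_)
  rw [← mul_add, ← Finset.sum_add_distrib]
  congr 1
  exact Finset.sum_congr rfl fun x _ => by ring

theorem smp_kin {A : Sp d → Sp d} (hA : Continuous A) {u : Sp d → ℂ} (hu : u ∈ TF d) :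
    Tendsto (fun m : ℕ => (m : ℝ) ^ 2 / (m : ℝ) ^ d *
      latKin (m * m) (thA A m) (ext (samp m (m * m) u))) atTop (𝓝 (kin A u)) := by
  have h1 : Tendsto (fun m : ℕ => ∑ i, 1 / (m : ℝ) ^ d *
      ∑ x ∈ box d (m * m + 1), ‖dq A u i m (pt m x)‖ ^ 2) atTop (𝓝 (kin A u)) :=
    tendsto_finsetSum _ fun i _ => SMP_dq hA hu i
  refine h1.congr' ?_
  have h2 : ∃ R : ℕ, ∀ m : ℕ, 1 ≤ m → ∀ y : Sp d, (∃ j, (R : ℝ) ≤ |y j|) → u y = 0 := by
    rcases isEmpty_or_nonempty (Fin d) with hd | ⟨⟨i⟩⟩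
    · exact ⟨0, fun m _ y ⟨j, _⟩ => hd.elim j⟩
    · obtain ⟨R, hR⟩ := dq_supp A hu i
      exact ⟨R, fun m hm y hy => (hR m hm y hy).2.2⟩
  obtain ⟨R, hR⟩ := h2
  filter_upwards [eventually_ge_atTop 1, eventually_ge_atTop R] with m hm1 hmR
  have hmpos : (0 : ℝ) < m := by exact_mod_cast hm1
  have hext : ∀ x : Lt d, ext (samp m (m * m) u) x = u (pt m x) := by
    intro x
    unfold ext
    split_ifs with hx
    · rfl
    · symm
      apply hR m hm1
      by_contra hcon
      push Not at hcon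
      apply hx
      unfold box
      rw [Fintype.mem_piFinset]
      intro j
      have e3 := hcon j
      unfold pt at e3
      rw [abs_div, abs_of_pos hmpos, div_lt_iff₀ hmpos] at e3
      have e4 : |x j| < (m * m : ℕ) := by
        have e5 : (R : ℝ) * m ≤ m * m := by
          have : (R : ℝ) ≤ m := by exact_mod_cast hmR
          nlinarith
        have : ((|x j| : ℤ) : ℝ) < ((m * m : ℕ) : ℝ) := by
          push_cast
          linarith
        exact_mod_cast this
      rw [Finset.mem_Icc]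
      rw [abs_lt] at e4
      exact ⟨e4.1.le, e4.2.le⟩
  have hpt : ∀ (x : Lt d) (i : Fin d), pt m (x + Pi.single i 1) =
      pt m x + Pi.single i (1 / (m : ℝ)) := by
    intro x i
    funext j
    unfold pt
    by_cases hj : j = i
    · subst hj
      simp only [Pi.add_apply, Pi.single_eq_same]
      push_cast
      ring
    · simp only [Pi.add_apply, Pi.single_eq_of_ne hj]
      push_cast
      ring
  unfold latKin
  rw [Finset.mul_sum]
  apply Finset.sum_congr rfl
  intro i _
  rw [Finset.mul_sum, Finset.mul_sum]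
  apply Finset.sum_congr rfl
  intro x _
  rw [hext, hext, hpt]
  unfold dq thA
  rw [norm_mul, mul_pow, Complex.norm_natCast]
  ring

theorem smp_mass {u : Sp d → ℂ} (hu : u ∈ TF d) :
    Tendsto (fun m : ℕ => 1 / (m : ℝ) ^ d * ∑ x, ‖samp m (m * m) u x‖ ^ 2) atTop
      (𝓝 (mass u)) := by
  obtain ⟨h1, h2⟩ := SMP_hc hu
  have h3 := rsm_one h1 h2 (fun m => m * m) (fun m => le_rfl)
  refine h3.congr (fun m => ?_)
  congr 1
  exact (Finset.sum_coe_sort (box d (m * m)) (fun x => ‖u (pt m x)‖ ^ 2)).symm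

theorem smp_pot (hs : Spl φ ψ) {V : Sp d → ℝ} (hV : LocallyIntegrable V) {u : Sp d → ℂ}
    (hu : u ∈ TF d) :
    Tendsto (fun m : ℕ => ∑ x : box d (m * m), potW φ m V x * ‖samp m (m * m) u x‖ ^ 2) atTop
      (𝓝 (pot V u)) := by
  obtain ⟨h1, h2⟩ := SMP_hc hu
  have h3 := rsm hs hV h1 h2 (fun m => m * m) (fun m => le_rfl)
  refine h3.congr (fun m => ?_)
  exact (Finset.sum_coe_sort (box d (m * m)) (fun x => potW φ m V x * ‖u (pt m x)‖ ^ 2)).symm

end Pool.Agent.H2.LTM
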