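import Pool.Agent.H2.LTM.Defs

/-!
# TLM: the limit of the upper bounds

For `m` large, split `Ioi 0 = Ioc 0 m ∪ Ioi m`.
First part `≤ ∫⁻_{Ioi 0} a e^{-aλ} c ((1+C₀/m) λ)^p = c (1+C₀/m)^p Γ(p+1) a^{-p}`
(`∫_0^∞ a e^{-aλ} λ^p dλ = Γ(p+1) a^{-p}`, `Real.integral_rpow_mul_exp_neg_mul_Ioi`), which tends to
`c Γ(p+1) a^{-p}`.
Second part `≤ (2m²+1)^d B^γ ∫_m^∞ a e^{-aλ} λ^γ dλ ≤ (2m²+1)^d B^γ e^{-am/2} ∫_0^∞ a e^{-aλ/2} λ^γ dλ
→ 0` (polynomial times exponential).
Then `liminf ≤ limit of the upper bounds` (`liminf_le_liminf`, `Tendsto.liminf_eq`, continuity of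
`ENNReal.ofReal`).
-/

open MeasureTheory Complex Set Filter Topology
open scoped ENNReal NNReal ContDiff ComplexConjugate

noncomputable section

namespace Pool.Agent.H2.LTM

theorem TLM_int {b q K : ℝ} (hb : 0 < b) (hq : 0 < q) (hK : 0 ≤ K) :
    ∫⁻ lam in Ioi (0 : ℝ), ENNReal.ofReal (K * (lam ^ q * Real.exp (-(b * lam)))) =
      ENNReal.ofReal (K * ((1 / b) ^ (q + 1) * Real.Gamma (q + 1))) := by
  have hint0 : ∫ t : ℝ in Ioi 0, t ^ q * Real.exp (-(b * t)) =
      (1 / b) ^ (q + 1) * Real.Gamma (q + 1) := by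
    have := Real.integral_rpow_mul_exp_neg_mul_Ioi (a := q + 1) (r := b) (by linarith) hb
    rwa [add_sub_cancel_right] at this
  have hpos0 : 0 < (1 / b) ^ (q + 1) * Real.Gamma (q + 1) :=
    mul_pos (Real.rpow_pos_of_pos (by positivity) _) (Real.Gamma_pos_of_pos (by linarith))
  have hI0 : IntegrableOn (fun t : ℝ => t ^ q * Real.exp (-(b * t))) (Ioi 0) := by
    by_contra hcon
    have := integral_undef hcon
    rw [hint0] at this
    linarith
  rw [← ofReal_integral_eq_lintegral_ofReal]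
  · rw [integral_const_mul, hint0]
  · exact hI0.const_mul _
  · refine (ae_restrict_iff' measurableSet_Ioi).2 (Filter.Eventually.of_forall fun u hu => ?_)
    have hu0 : (0 : ℝ) < u := hu
    show 0 ≤ K * (u ^ q * Real.exp (-(b * u)))
    positivity

theorem TLM_tail (d : ℕ) {b : ℝ} (hb : 0 < b) :
    Tendsto (fun m : ℕ => (2 * ((m * m : ℕ) : ℝ) + 1) ^ d * Real.exp (-(b * m))) atTop (𝓝 0) := by
  have h1 := (tendsto_rpow_mul_exp_neg_mul_atTop_nhds_zero ((2 * d : ℕ) : ℝ) b hb).comp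
    tendsto_natCast_atTop_atTop
  have h2 : Tendsto (fun m : ℕ => (3 : ℝ) ^ d * ((m : ℝ) ^ (2 * d) * Real.exp (-(b * m)))) atTop
      (𝓝 0) := by
    have h3 := h1.const_mul ((3 : ℝ) ^ d)
    rw [mul_zero] at h3
    refine h3.congr fun m => ?_
    simp only [Function.comp_apply]
    rw [Real.rpow_natCast, neg_mul]
  refine squeeze_zero' (Filter.Eventually.of_forall fun m => by positivity) ?_ h2
  filter_upwards [eventually_ge_atTop 1] with m hm
  have hm1 : (1 : ℝ) ≤ m := by exact_mod_cast hm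
  rw [← mul_assoc]
  refine mul_le_mul_of_nonneg_right ?_ (Real.exp_pos _).le
  rw [pow_mul, ← mul_pow]
  refine pow_le_pow_left₀ (by positivity) ?_ d
  push_cast
  nlinarith

theorem tlm (d : ℕ) {γ p a c B C₀ : ℝ} (hγ : 0 < γ) (hp : 0 < p) (ha : 0 < a) (hc : 0 ≤ c)
    (hB : 0 ≤ B) (hC₀ : 0 ≤ C₀) (G : ℕ → ℝ → ℝ≥0∞)
    (h1 : ∀ᶠ m : ℕ in atTop, ∀ lam : ℝ, 0 < lam → lam ≤ m →
      G m lam ≤ ENNReal.ofReal (c * ((1 + C₀ / m) * lam) ^ p))
    (h2 : ∀ᶠ m : ℕ in atTop, ∀ lam : ℝ, 0 < lam →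
      G m lam ≤ ENNReal.ofReal ((2 * ((m * m : ℕ) : ℝ) + 1) ^ d * (lam * B) ^ γ)) :
    liminf (fun m : ℕ => ∫⁻ lam in Ioi (0 : ℝ),
      ENNReal.ofReal (a * Real.exp (-(a * lam))) * G m lam) atTop ≤
      ENNReal.ofReal (c * (Real.Gamma (p + 1) * a ^ (-p))) := by
  set K1 : ℕ → ℝ := fun m => a * c * (1 + C₀ / m) ^ p with hK1
  set K2 : ℕ → ℝ := fun m => a * B ^ γ *
    ((2 * ((m * m : ℕ) : ℝ) + 1) ^ d * Real.exp (-(a / 2 * m))) with hK2
  set c1 : ℝ := (1 / a) ^ (p + 1) * Real.Gamma (p + 1) with hc1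
  set c2 : ℝ := (1 / (a / 2)) ^ (γ + 1) * Real.Gamma (γ + 1) with hc2
  have hBγ : 0 ≤ B ^ γ := Real.rpow_nonneg hB γ
  have hbound : ∀ᶠ m : ℕ in atTop, ∫⁻ lam in Ioi (0 : ℝ),
      ENNReal.ofReal (a * Real.exp (-(a * lam))) * G m lam ≤
      ENNReal.ofReal (K1 m * c1) + ENNReal.ofReal (K2 m * c2) := by
    filter_upwards [h1, h2] with m hm1 hm2
    have hC : 0 ≤ C₀ / m := by positivity
    have hsplit : Ioi (0 : ℝ) ⊆ Ioc 0 (m : ℝ) ∪ Ioi (m : ℝ) := by
      intro x hx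
      rcases le_or_gt x m with h | h
      · exact Or.inl ⟨hx, h⟩
      · exact Or.inr h
    refine (lintegral_mono_set hsplit).trans ((lintegral_union_le _ _ _).trans ?_)
    refine add_le_add ?_ ?_
    · rw [hc1, ← TLM_int ha hp (by positivity)]
      refine le_trans ?_ (lintegral_mono_set (show Ioc (0 : ℝ) m ⊆ Ioi 0 from Ioc_subset_Ioi_self))
      refine setLIntegral_mono_ae' measurableSet_Ioc (Filter.Eventually.of_forall fun lam hl => ?_)
      have hl0 : 0 < lam := hl.1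
      have e1 : K1 m * (lam ^ p * Real.exp (-(a * lam))) =
          a * Real.exp (-(a * lam)) * (c * ((1 + C₀ / m) * lam) ^ p) := by
        rw [Real.mul_rpow (by positivity) hl0.le, hK1]
        ring
      have e5 : ENNReal.ofReal (a * Real.exp (-(a * lam)) * (c * ((1 + C₀ / m) * lam) ^ p)) =
          ENNReal.ofReal (a * Real.exp (-(a * lam))) *
          ENNReal.ofReal (c * ((1 + C₀ / m) * lam) ^ p) :=
        ENNReal.ofReal_mul (by positivity)
      rw [e1, e5]
      gcongr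
      exact hm1 lam hl0 hl.2
    · rw [hc2, ← TLM_int (by positivity : (0 : ℝ) < a / 2) hγ (by positivity)]
      refine le_trans ?_ (lintegral_mono_set (Ioi_subset_Ioi (Nat.cast_nonneg m)))
      refine setLIntegral_mono_ae' measurableSet_Ioi (Filter.Eventually.of_forall fun lam hl => ?_)
      have hlm : (m : ℝ) < lam := hl
      have hl0 : 0 < lam := lt_of_le_of_lt (Nat.cast_nonneg m) hlm
      have e1 : a * Real.exp (-(a * lam)) * ((2 * ((m * m : ℕ) : ℝ) + 1) ^ d * (lam * B) ^ γ) ≤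
          K2 m * (lam ^ γ * Real.exp (-(a / 2 * lam))) := by
        have e2 : K2 m * (lam ^ γ * Real.exp (-(a / 2 * lam))) =
            a * (Real.exp (-(a / 2 * m)) * Real.exp (-(a / 2 * lam))) *
              ((2 * ((m * m : ℕ) : ℝ) + 1) ^ d * (lam * B) ^ γ) := by
          rw [Real.mul_rpow hl0.le hB, hK2]
          ring
        rw [e2]
        have e3 : Real.exp (-(a * lam)) ≤
            Real.exp (-(a / 2 * m)) * Real.exp (-(a / 2 * lam)) := by
          rw [← Real.exp_add]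
          apply Real.exp_le_exp.mpr
          nlinarith
        have e4 : 0 ≤ (2 * ((m * m : ℕ) : ℝ) + 1) ^ d * (lam * B) ^ γ := by
          have : 0 ≤ (lam * B) ^ γ := Real.rpow_nonneg (by positivity) γ
          positivity
        refine mul_le_mul_of_nonneg_right ?_ e4
        exact mul_le_mul_of_nonneg_left e3 ha.le
      refine le_trans ?_ (ENNReal.ofReal_le_ofReal e1)
      have e5 : ENNReal.ofReal (a * Real.exp (-(a * lam)) *
          ((2 * ((m * m : ℕ) : ℝ) + 1) ^ d * (lam * B) ^ γ)) =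
          ENNReal.ofReal (a * Real.exp (-(a * lam))) *
          ENNReal.ofReal ((2 * ((m * m : ℕ) : ℝ) + 1) ^ d * (lam * B) ^ γ) :=
        ENNReal.ofReal_mul (by positivity)
      rw [e5]
      gcongr
      exact hm2 lam hl0
  have hlim1 : Tendsto (fun m : ℕ => K1 m * c1) atTop
      (𝓝 (c * (Real.Gamma (p + 1) * a ^ (-p)))) := by
    have e1 : Tendsto (fun m : ℕ => 1 + C₀ / (m : ℝ)) atTop (𝓝 1) := by
      have := (tendsto_const_div_atTop_nhds_zero_nat C₀).const_add 1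
      rwa [add_zero] at this
    have e2 : Tendsto (fun m : ℕ => (1 + C₀ / (m : ℝ)) ^ p) atTop (𝓝 1) := by
      have := e1.rpow_const (p := p) (Or.inl one_ne_zero)
      rwa [Real.one_rpow] at this
    have e3 := (e2.const_mul (a * c)).mul_const c1
    have e4 : a * c * 1 * c1 = c * (Real.Gamma (p + 1) * a ^ (-p)) := by
      rw [hc1, one_div, Real.inv_rpow ha.le, Real.rpow_add ha, Real.rpow_one, Real.rpow_neg ha.le]
      have : 0 < a ^ p := Real.rpow_pos_of_pos ha p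
      field_simp
    rw [e4] at e3
    exact e3
  have hlim2 : Tendsto (fun m : ℕ => K2 m * c2) atTop (𝓝 0) := by
    have e1 := ((TLM_tail d (by positivity : (0 : ℝ) < a / 2)).const_mul (a * B ^ γ)).mul_const c2
    rw [mul_zero, zero_mul] at e1
    exact e1
  have hlim : Tendsto (fun m : ℕ => ENNReal.ofReal (K1 m * c1) + ENNReal.ofReal (K2 m * c2)) atTop
      (𝓝 (ENNReal.ofReal (c * (Real.Gamma (p + 1) * a ^ (-p))))) := by
    have e1 := (ENNReal.tendsto_ofReal hlim1).add (ENNReal.tendsto_ofReal hlim2)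
    rwa [ENNReal.ofReal_zero, add_zero] at e1
  rw [← hlim.liminf_eq]
  exact liminf_le_liminf hbound

end Pool.Agent.H2.LTM
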