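import Pool.Agent.H2.LTM.VAR
import Pool.Agent.H2.LTM.CNT

/-!
# TSD: the nonmagnetic lattice count is bounded by the nonmagnetic continuum count

Use `cnt_le_cnt` with the linear map of `exists_itpL`.  Let `latForm v < 0`, `T = latKin M 0 (ext v) ≥ 0`,
`P = Σ potW |v|²`, `S = Σ |v|²`.  So `m²/m^d T + E/m^d S < lam P`, in particular (`E S ≥ 0`)
`T/m^d < lam P / m²` and `P > 0`.  By `var_le`, `pot V (itp v) ≥ P - B 2 d 4^d T/m^d`, hence with
`C = 2 d 4^d B ≥ 0` (`B ≥ V y ≥ 0`)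
`lam (1+del) pot V (itp v) ≥ lam (1+del) P - lam (1+del) C T/m^d ≥ lam (1+del) P - lam (1+del) C lam P/m²
 ≥ lam (1+del) P - del lam P = lam P`
by `hC` (`C lam (1+del) ≤ del m²`).  And `kin 0 (itp v) + E mass (itp v) ≤ m²/m^d T + E/m^d S < lam P`
(`kin_itp_le`, `mass_itp_le`).  So the continuum form
`kin - pot (lam (1+del) V) + E mass < 0` (`pot (c V) = c pot V`, `integral_const_mul`).
`latForm 0 = 0` and the continuum form at `0` is `0`.
-/

open MeasureTheory Complex Set Filter Topology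
open scoped ENNReal NNReal ContDiff ComplexConjugate

noncomputable section

namespace Pool.Agent.H2.LTM

variable {d : ℕ} {φ ψ : ℝ → ℝ}

theorem TSD_kin_nonneg (M : ℕ) (θ : Fin d → Lt d → ℝ) (w : Lt d → ℂ) : 0 ≤ latKin M θ w := by
  unfold latKin
  positivity

theorem TSD_pot_smul (c : ℝ) (V : Sp d → ℝ) (u : Sp d → ℂ) :
    pot (fun y => c * V y) u = c * pot V u := by
  unfold pot
  rw [← integral_const_mul]
  congr 1
  ext x
  ring

theorem TSD_lat_zero (φ : ℝ → ℝ) (m M : ℕ) (V : Sp d → ℝ) (E lam : ℝ) :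
    latForm φ m M 0 V E lam (0 : box d M → ℂ) = 0 := by
  have h1 : ∀ x : Lt d, ext (0 : box d M → ℂ) x = 0 := by
    intro x
    unfold ext
    split_ifs <;> rfl
  unfold latForm latKin
  simp [h1]

theorem TSD_cont_zero (V : Sp d → ℝ) (E : ℝ) :
    kin 0 ((0 : TF d) : Sp d → ℂ) - pot V ((0 : TF d) : Sp d → ℂ)
      + E * mass ((0 : TF d) : Sp d → ℂ) = 0 := by
  have h1 : ((0 : TF d) : Sp d → ℂ) = 0 := rfl
  rw [h1]
  unfold kin pot mass cov
  simp

theorem tsd (hs : Spl φ ψ) {m : ℕ} (hm : 1 ≤ m) (M : ℕ) {V : Sp d → ℝ}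
    (hV : Measurable V) (h0 : ∀ y, 0 ≤ V y) {B : ℝ} (hB : ∀ y, V y ≤ B) {E lam del : ℝ}
    (hlam : 0 < lam) (hE : 0 ≤ E) (hdel : 0 ≤ del)
    (hC : 2 * d * 4 ^ d * B * lam * (1 + del) ≤ del * (m : ℝ) ^ 2) :
    cnt (fun v : box d M → ℂ => latForm φ m M 0 V E lam v) ≤
      levels 0 (fun y => lam * (1 + del) * V y) E := by
  obtain ⟨L, hL⟩ := exists_itpL hs hm d M
  unfold levels
  refine cnt_le_cnt _ _ ?_ ?_ L ?_
  · rw [TSD_lat_zero]
  · rw [TSD_cont_zero]
  · intro v hv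
    show kin 0 (L v : Sp d → ℂ) - pot (fun y => lam * (1 + del) * V y) (L v : Sp d → ℂ)
      + E * mass (L v : Sp d → ℂ) < 0
    rw [hL, TSD_pot_smul]
    have hk := kin_itp_le hs hm v
    have hm1 := mass_itp_le hs hm v
    have hv1 := var_le hs hm v hV h0 hB
    have hT := TSD_kin_nonneg M 0 (ext v)
    have hmd : 0 < (m : ℝ) ^ d := by
      have : (0 : ℝ) < m := by exact_mod_cast hm
      positivity
    have hv2 : (m : ℝ) ^ 2 / (m : ℝ) ^ d * latKin M 0 (ext v)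
        + E * (1 / (m : ℝ) ^ d * ∑ x, ‖v x‖ ^ 2)
        - lam * ∑ x : box d M, potW φ m V x * ‖v x‖ ^ 2 < 0 := hv
    have hS : 0 ≤ 1 / (m : ℝ) ^ d * ∑ x : box d M, ‖v x‖ ^ 2 := by positivity
    generalize latKin M 0 (ext v) = T at *
    generalize (∑ x : box d M, potW φ m V x * ‖v x‖ ^ 2) = P at *
    generalize (1 / (m : ℝ) ^ d * ∑ x : box d M, ‖v x‖ ^ 2) = S at *
    generalize kin 0 (itp φ m v) = K at *
    generalize mass (itp φ m v) = N at *
    generalize pot V (itp φ m v) = R at *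
    have hES : 0 ≤ E * S := mul_nonneg hE hS
    have hEN : E * N ≤ E * S := mul_le_mul_of_nonneg_left hm1 hE
    have hc : 0 < lam * (1 + del) := by positivity
    have e1 : lam * (1 + del) * (P - R) ≤
        lam * (1 + del) * (B * (2 * d * 4 ^ d / (m : ℝ) ^ d) * T) :=
      mul_le_mul_of_nonneg_left hv1 hc.le
    have e2 : lam * (1 + del) * (B * (2 * d * 4 ^ d / (m : ℝ) ^ d) * T)
        = (2 * d * 4 ^ d * B * lam * (1 + del)) * (T / (m : ℝ) ^ d) := by ring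
    have hTm : 0 ≤ T / (m : ℝ) ^ d := div_nonneg hT hmd.le
    have e3 : (2 * d * 4 ^ d * B * lam * (1 + del)) * (T / (m : ℝ) ^ d)
        ≤ del * (m : ℝ) ^ 2 * (T / (m : ℝ) ^ d) := mul_le_mul_of_nonneg_right hC hTm
    have e4 : del * (m : ℝ) ^ 2 * (T / (m : ℝ) ^ d) = del * ((m : ℝ) ^ 2 / (m : ℝ) ^ d * T) := by
      ring
    have e5 : del * ((m : ℝ) ^ 2 / (m : ℝ) ^ d * T) ≤ del * (lam * P) :=
      mul_le_mul_of_nonneg_left (by linarith) hdel
    have e6 : lam * (1 + del) * (P - R) = lam * P + del * (lam * P) - lam * (1 + del) * R := by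
      ring
    linarith

end Pool.Agent.H2.LTM
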