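import Pool.Agent.H2.LTM.MEA
import Pool.Agent.H2.LTM.TSD
import Pool.Agent.H2.LTM.SMP
import Pool.Agent.H2.LTM.HFC
import Pool.Agent.H2.LTM.LTD
import Pool.Agent.H2.LTM.TLM

/-!
# KEY1: the averaged inequality for continuous `A` and bounded positive `V` (helper2)
-/

open MeasureTheory Complex Set Filter Topology
open scoped ENNReal NNReal ContDiff ComplexConjugate

noncomputable section

namespace Pool.Agent.H2.LTM

variable {d : ℕ}

theorem KEY1_mul_liminf {c : ℝ≥0∞} (hc : c ≠ ⊤) (u : ℕ → ℝ≥0∞) :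
    c * liminf u atTop = liminf (fun k => c * u k) atTop := by
  have h := Monotone.map_liminf_of_continuousAt (F := atTop) (f := fun x : ℝ≥0∞ => c * x)
    (fun a b hab => by show c * a ≤ c * b; gcongr) u (ENNReal.continuous_const_mul hc).continuousAt
  exact h

/-- double Fatou. -/
theorem KEY1_fatou (w g : ℝ → ℝ≥0∞) (hw : Measurable w) (hg : Measurable g)
    (hwt : ∀ x, w x ≠ ⊤) (hgt : ∀ x, g x ≠ ⊤) (F : ℝ → ℝ → ℝ≥0∞) (Fk : ℕ → ℝ → ℝ → ℝ≥0∞)
    (hF : ∀ lam ∈ Ioi (0 : ℝ), ∀ E ∈ Ioi (0 : ℝ), F E lam ≤ liminf (fun k => Fk k E lam) atTop)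
    (hm : ∀ k, Measurable (fun z : ℝ × ℝ => Fk k z.1 z.2)) :
    ∫⁻ lam in Ioi (0 : ℝ), w lam * ∫⁻ E in Ioi (0 : ℝ), g E * F E lam ≤
      liminf (fun k => ∫⁻ lam in Ioi (0 : ℝ), w lam * ∫⁻ E in Ioi (0 : ℝ), g E * Fk k E lam)
        atTop := by
  have hm1 : ∀ k lam, Measurable (fun E => g E * Fk k E lam) := fun k lam =>
    hg.mul ((hm k).comp (measurable_id.prodMk measurable_const))
  have hm2 : ∀ k, Measurable (fun lam => w lam * ∫⁻ E in Ioi (0 : ℝ), g E * Fk k E lam) := by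
    intro k
    refine hw.mul ?_
    have : Measurable (fun z : ℝ × ℝ => g z.2 * Fk k z.2 z.1) :=
      (hg.comp measurable_snd).mul ((hm k).comp (measurable_snd.prodMk measurable_fst))
    exact this.lintegral_prod_right'
  calc ∫⁻ lam in Ioi (0 : ℝ), w lam * ∫⁻ E in Ioi (0 : ℝ), g E * F E lam
      ≤ ∫⁻ lam in Ioi (0 : ℝ), liminf (fun k => w lam *
          ∫⁻ E in Ioi (0 : ℝ), g E * Fk k E lam) atTop := by
        refine setLIntegral_mono' measurableSet_Ioi ?_
        intro lam hlam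
        rw [← KEY1_mul_liminf (hwt lam)]
        gcongr
        calc ∫⁻ E in Ioi (0 : ℝ), g E * F E lam
            ≤ ∫⁻ E in Ioi (0 : ℝ), liminf (fun k => g E * Fk k E lam) atTop := by
              refine setLIntegral_mono' measurableSet_Ioi ?_
              intro E hE
              rw [← KEY1_mul_liminf (hgt E)]
              gcongr
              exact hF lam hlam E hE
          _ ≤ _ := lintegral_liminf_le (fun k => hm1 k lam)
    _ ≤ _ := lintegral_liminf_le hm2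

theorem KEY1_swap (w g : ℝ → ℝ≥0∞) (hw : Measurable w) (hg : Measurable g)
    (F : ℝ → ℝ → ℝ≥0∞) (hm : Measurable (fun z : ℝ × ℝ => F z.1 z.2)) :
    ∫⁻ lam in Ioi (0 : ℝ), w lam * ∫⁻ E in Ioi (0 : ℝ), g E * F E lam =
      ∫⁻ E in Ioi (0 : ℝ), g E * ∫⁻ lam in Ioi (0 : ℝ), w lam * F E lam := by
  have hm1 : ∀ lam, Measurable (fun E => g E * F E lam) := fun lam =>
    hg.mul (hm.comp (measurable_id.prodMk measurable_const))
  have hm2 : ∀ E, Measurable (fun lam => w lam * F E lam) := fun E =>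
    hw.mul (hm.comp (measurable_const.prodMk measurable_id))
  calc ∫⁻ lam in Ioi (0 : ℝ), w lam * ∫⁻ E in Ioi (0 : ℝ), g E * F E lam
      = ∫⁻ lam in Ioi (0 : ℝ), ∫⁻ E in Ioi (0 : ℝ), w lam * (g E * F E lam) := by
        refine lintegral_congr fun lam => ?_
        rw [lintegral_const_mul _ (hm1 lam)]
    _ = ∫⁻ E in Ioi (0 : ℝ), ∫⁻ lam in Ioi (0 : ℝ), w lam * (g E * F E lam) := by
        refine lintegral_lintegral_swap ?_
        refine Measurable.aemeasurable ?_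
        exact (hw.comp measurable_fst).mul ((hg.comp measurable_snd).mul
          (hm.comp (measurable_snd.prodMk measurable_fst)))
    _ = _ := by
        refine lintegral_congr fun E => ?_
        rw [← lintegral_const_mul _ (hm2 E)]
        refine lintegral_congr fun lam => ?_
        ring

/-- sampling as a linear map. -/
def KEY1_sampL (d m M : ℕ) : TF d →ₗ[ℂ] (box d M → ℂ) where
  toFun u := samp m M (u : Sp d → ℂ)
  map_add' _ _ := rfl
  map_smul' _ _ := rfl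

theorem KEY1_pot_mul (lam : ℝ) (V : Sp d → ℝ) (u : Sp d → ℂ) :
    pot (fun x => lam * V x) u = lam * pot V u := by
  unfold pot
  rw [← integral_const_mul]
  congr 1
  ext x
  ring

theorem KEY1_isHF_latForm (φ : ℝ → ℝ) (m M : ℕ) (θ : Fin d → Lt d → ℝ) (V : Sp d → ℝ)
    (E lam : ℝ) : IsHF (fun v : box d M → ℂ => latForm φ m M θ V E lam v) :=
  ((isHF_latKin M θ ((m : ℝ) ^ 2 / (m : ℝ) ^ d)).add
    ((isHF_latMass M (1 / (m : ℝ) ^ d)).const_mul E)).sub ((isHF_latPot φ m M V).const_mul lam)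

theorem KEY1_meas (φ : ℝ → ℝ) (m M : ℕ) (θ : Fin d → Lt d → ℝ) (V : Sp d → ℝ) :
    Measurable (fun z : ℝ × ℝ =>
      ((cnt (fun v : box d M → ℂ => latForm φ m M θ V z.1 z.2 v) : ℕ∞) : ℝ≥0∞)) :=
  measurable_cnt _ _ _ (isHF_latKin M θ ((m : ℝ) ^ 2 / (m : ℝ) ^ d))
    (isHF_latMass M (1 / (m : ℝ) ^ d)) (isHF_latPot φ m M V)

/-- lower semicontinuity along sampling. -/
theorem KEY1_lsc {φ ψ : ℝ → ℝ} (hs : Spl φ ψ) {A : Sp d → Sp d} (hA : Continuous A)
    {V : Sp d → ℝ} (hV : LocallyIntegrable V) (E lam : ℝ) :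
    ((levels A (fun x => lam * V x) E : ℕ∞) : ℝ≥0∞) ≤ liminf (fun m : ℕ =>
      ((cnt (fun v : box d (m * m) → ℂ => latForm φ m (m * m) (thA A m) V E lam v) : ℕ∞) :
        ℝ≥0∞)) atTop := by
  refine le_liminf_of_nat _ _ ?_
  intro n hn
  have hA2 : ∀ i, LocallyIntegrable (fun x => A x i ^ 2) := fun i =>
    ((continuous_apply i).comp hA).pow 2 |>.locallyIntegrable
  have hlamV : LocallyIntegrable (fun x => lam * V x) := hV.smul lam
  have hQ : IsHF (fun u : TF d => kin A (u : Sp d → ℂ) - pot (fun x => lam * V x) (u : Sp d → ℂ) +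
      E * mass (u : Sp d → ℂ)) :=
    ((isHF_kin hA.measurable hA2).sub (isHF_pot hlamV)).add (isHF_mass.const_mul E)
  have hk : ∀ m : ℕ, IsHF (fun u : TF d =>
      latForm φ m (m * m) (thA A m) V E lam (KEY1_sampL d m (m * m) u)) := fun m =>
    (KEY1_isHF_latForm φ m (m * m) (thA A m) V E lam).comp (KEY1_sampL d m (m * m))
  have hlim : ∀ u : TF d, Tendsto (fun m : ℕ =>
      latForm φ m (m * m) (thA A m) V E lam (KEY1_sampL d m (m * m) u)) atTop
      (𝓝 (kin A (u : Sp d → ℂ) - pot (fun x => lam * V x) (u : Sp d → ℂ) +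
        E * mass (u : Sp d → ℂ))) := by
    intro u
    have h1 := smp_kin hA u.2
    have h2 := (smp_mass u.2).const_mul E
    have h3 := (smp_pot hs hV u.2).const_mul lam
    have h := (h1.add h2).sub h3
    have e : kin A (u : Sp d → ℂ) - pot (fun x => lam * V x) (u : Sp d → ℂ) +
        E * mass (u : Sp d → ℂ) =
        kin A (u : Sp d → ℂ) + E * mass (u : Sp d → ℂ) - lam * pot V (u : Sp d → ℂ) := by
      rw [KEY1_pot_mul]; ring
    rw [e]
    exact h
  have hev := eventually_le_cnt _ _ hk hQ hlim n hn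
  filter_upwards [hev] with m hm
  refine hm.trans ?_
  refine cnt_le_cnt _ _ (hk m).map_zero.symm.le
    (KEY1_isHF_latForm φ m (m * m) (thA A m) V E lam).map_zero.symm.le
    (KEY1_sampL d m (m * m)) (fun u hu => hu)

theorem key1 {γ : ℝ} (hγ : 0 < γ) (hp : 1 ≤ γ + d / 2) {K : ℝ≥0∞} (hKT : K ≠ ⊤)
    (hK : IsLT γ d K) {A : Sp d → Sp d} (hA : Continuous A) {V : Sp d → ℝ} (hV : Measurable V)
    (h0 : ∀ x, 0 < V x) {B : ℝ} (hB : ∀ x, V x ≤ B)
    (hVp : ∫⁻ x, ENNReal.ofReal (V x ^ (γ + d / 2)) ≠ ⊤) {a : ℝ} (ha : 0 < a) :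
    ∫⁻ lam in Ioi (0 : ℝ), ENNReal.ofReal (a * Real.exp (-(a * lam))) *
        riesz γ A (fun x => lam * V x) ≤
      K * ENNReal.ofReal (Real.Gamma (γ + d / 2 + 1) * a ^ (-(γ + d / 2 : ℝ))) *
        ∫⁻ x, ENNReal.ofReal (V x ^ (γ + d / 2)) := by
  obtain ⟨φ, ψ, hs⟩ := exists_spl
  have hB0 : 0 < B := (h0 0).trans_le (hB 0)
  have hVloc : LocallyIntegrable V := locInt hV (fun x => (h0 x).le) hp hVp
  set w : ℝ → ℝ≥0∞ := fun lam => ENNReal.ofReal (a * Real.exp (-(a * lam))) with hw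
  set g : ℝ → ℝ≥0∞ := fun E => ENNReal.ofReal (γ * E ^ (γ - 1)) with hg
  have hwm : Measurable w := by fun_prop
  have hgm : Measurable g := by fun_prop
  set NS : ℕ → ℝ → ℝ → ℝ≥0∞ := fun m E lam =>
    ((cnt (fun v : box d (m * m) → ℂ => latForm φ m (m * m) (thA A m) V E lam v) : ℕ∞) : ℝ≥0∞)
    with hNS
  set NT : ℕ → ℝ → ℝ → ℝ≥0∞ := fun m E lam =>
    ((cnt (fun v : box d (m * m) → ℂ => latForm φ m (m * m) 0 V E lam v) : ℕ∞) : ℝ≥0∞)
    with hNT
  have hNSm : ∀ m, Measurable (fun z : ℝ × ℝ => NS m z.1 z.2) := fun m =>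
    KEY1_meas φ m (m * m) (thA A m) V
  have hNTm : ∀ m, Measurable (fun z : ℝ × ℝ => NT m z.1 z.2) := fun m =>
    KEY1_meas φ m (m * m) 0 V
  have h1 : ∫⁻ lam in Ioi (0 : ℝ), w lam * riesz γ A (fun x => lam * V x) ≤
      liminf (fun m => ∫⁻ lam in Ioi (0 : ℝ), w lam * ∫⁻ E in Ioi (0 : ℝ), g E * NS m E lam)
        atTop := by
    unfold riesz
    exact KEY1_fatou w g hwm hgm (fun _ => ENNReal.ofReal_ne_top) (fun _ => ENNReal.ofReal_ne_top)
      (fun E lam => ((levels A (fun x => lam * V x) E : ℕ∞) : ℝ≥0∞)) NS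
      (fun lam _ E _ => KEY1_lsc hs hA hVloc E lam) hNSm
  have h2 : ∀ᶠ m : ℕ in atTop,
      ∫⁻ lam in Ioi (0 : ℝ), w lam * ∫⁻ E in Ioi (0 : ℝ), g E * NS m E lam ≤
      ∫⁻ lam in Ioi (0 : ℝ), w lam * ∫⁻ E in Ioi (0 : ℝ), g E * NT m E lam := by
    filter_upwards [eventually_ge_atTop 1] with m hm
    rw [KEY1_swap w g hwm hgm (NS m) (hNSm m), KEY1_swap w g hwm hgm (NT m) (hNTm m)]
    refine setLIntegral_mono' measurableSet_Ioi ?_
    intro E hE
    exact mul_le_mul' le_rfl (lat_dom hs hm (m * m) (thA A m) hV h0 hB (le_of_lt hE) ha)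
  set p : ℝ := γ + d / 2 with hpdef
  have hp0 : 0 < p := by linarith
  set J : ℝ≥0∞ := ∫⁻ x, ENNReal.ofReal (V x ^ p) with hJ
  set c : ℝ := (K * J).toReal with hc
  have hKJ : K * J ≠ ⊤ := ENNReal.mul_ne_top hKT hVp
  have hc0 : 0 ≤ c := ENNReal.toReal_nonneg
  set C₀ : ℝ := 2 * (2 * d * 4 ^ d * B) with hC₀
  have hC₀0 : 0 ≤ C₀ := by positivity
  have h3 : liminf (fun m : ℕ => ∫⁻ lam in Ioi (0 : ℝ),
      ENNReal.ofReal (a * Real.exp (-(a * lam))) * (fun m lam => ∫⁻ E in Ioi (0 : ℝ),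
        g E * NT m E lam) m lam) atTop ≤ ENNReal.ofReal (c * (Real.Gamma (p + 1) * a ^ (-p))) := by
    refine tlm d hγ hp0 ha hc0 hB0.le hC₀0 _ ?_ ?_
    · have hev : ∀ᶠ m : ℕ in atTop, C₀ ≤ m := by
        filter_upwards [eventually_ge_atTop (⌈C₀⌉₊)] with m hm
        exact (Nat.le_ceil C₀).trans (by exact_mod_cast hm)
      filter_upwards [eventually_ge_atTop 1, hev] with m hm hmC lam hlam hlm
      have hm0 : (0 : ℝ) < m := by exact_mod_cast hm
      set del : ℝ := C₀ / m with hdel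
      have hdel0 : 0 ≤ del := by positivity
      have hdel1 : del ≤ 1 := by rw [hdel, div_le_one hm0]; exact hmC
      have hCm : 2 * d * 4 ^ d * B * lam * (1 + del) ≤ del * (m : ℝ) ^ 2 := by
        have e1 : del * (m : ℝ) ^ 2 = C₀ * m := by rw [hdel]; field_simp
        rw [e1, hC₀]
        have e2 : 0 ≤ 2 * (d : ℝ) * 4 ^ d * B := by positivity
        calc 2 * (d : ℝ) * 4 ^ d * B * lam * (1 + del)
            ≤ 2 * (d : ℝ) * 4 ^ d * B * m * (1 + 1) := by gcongr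
          _ = 2 * (2 * (d : ℝ) * 4 ^ d * B) * m := by ring
      have hA1 : ∫⁻ E in Ioi (0 : ℝ), g E * NT m E lam ≤
          riesz γ 0 (fun y => lam * (1 + del) * V y) := by
        unfold riesz
        refine setLIntegral_mono' measurableSet_Ioi ?_
        intro E hE
        exact mul_le_mul' le_rfl (ENat.toENNReal_le.2
          (tsd hs hm (m * m) hV (fun y => (h0 y).le) hB hlam (le_of_lt hE) hdel0 hCm))
      have hl : 0 ≤ lam * (1 + del) := by positivity
      have hA2 : ∀ x, ENNReal.ofReal ((lam * (1 + del) * V x) ^ p) =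
          ENNReal.ofReal ((lam * (1 + del)) ^ p) * ENNReal.ofReal (V x ^ p) := by
        intro x
        rw [Real.mul_rpow hl (h0 x).le, ENNReal.ofReal_mul (by positivity)]
      have hA3 : ∫⁻ x, ENNReal.ofReal ((lam * (1 + del) * V x) ^ (γ + d / 2)) =
          ENNReal.ofReal ((lam * (1 + del)) ^ p) * J := by
        rw [← hpdef, lintegral_congr hA2, lintegral_const_mul _ (by fun_prop)]
      have hA4 := hK (fun y => lam * (1 + del) * V y) (by fun_prop)
        (fun x => mul_nonneg hl (h0 x).le)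
        (by rw [hA3]; exact ENNReal.mul_ne_top ENNReal.ofReal_ne_top hVp)
      refine hA1.trans (hA4.trans ?_)
      rw [hA3]
      have e3 : K * (ENNReal.ofReal ((lam * (1 + del)) ^ p) * J) =
          (K * J) * ENNReal.ofReal ((lam * (1 + del)) ^ p) := by ring
      rw [e3, ← ENNReal.ofReal_toReal hKJ, ← hc, ← ENNReal.ofReal_mul hc0, hdel,
        mul_comm lam (1 + C₀ / (m : ℝ))]
    · filter_upwards [eventually_ge_atTop 1] with m hm lam hlam
      exact lat_crude hs hm (m * m) hV (fun y => (h0 y).le) hB hγ hlam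
  have h4 : K * ENNReal.ofReal (Real.Gamma (p + 1) * a ^ (-p)) * J =
      ENNReal.ofReal (c * (Real.Gamma (p + 1) * a ^ (-p))) := by
    rw [ENNReal.ofReal_mul hc0, hc, ENNReal.ofReal_toReal hKJ]; ring
  rw [h4]
  exact h1.trans ((liminf_le_liminf h2).trans h3)

end Pool.Agent.H2.LTM
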