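import Pool.Agent.H2.LTM.CNT

/-!
# LSC: Hermitian forms; lower semicontinuity of `cnt`

`IsHF` closure properties: `B ± B'`, `(r : ℂ) • B`, `B ∘ (L, L)` (`LinearMap.compl₁₂` or build with
`LinearMap.mk₂'ₛₗ`); note `B u u` is real.
`eventually_le_cnt`: `n = 0` trivial (`Nat.cast_zero`, `zero_le`).  By `le_cnt_iff` (`Q 0 = 0`) there
is `u : Fin n → W` with `Q (Σ c_i u_i) < 0` for `c ≠ 0`.  `Q_k (Σ c_i u_i) =
Re Σ_{i,j} conj c_i c_j B_k (u_i, u_j)`.  Polarisation: `Re B(x,y) = (Q(x+y) - Q x - Q y)/2`,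
`Im B(x,y) = -(Q(x + I y) - Q x - Q y)/2`; hence `B_k (u_i,u_j) → B (u_i,u_j)` for all `i, j`.
On the compact sphere `{‖c‖ = 1}` of `Fin n → ℂ` the continuous function `c ↦ Q (Σ c_i u_i)` is
`≤ -δ < 0`, and `|Q_k - Q| ≤ Σ_{i,j} |B_k(u_i,u_j) - B(u_i,u_j)|` there (`‖c i‖ ≤ 1`), which is `< δ`
eventually.  For general `c ≠ 0` scale: `Q_k (Σ (t c_i) u_i) = |t|² Q_k (Σ c_i u_i)`, `t = 1/‖c‖`.
-/

open MeasureTheory Complex Set Filter Topology
open scoped ENNReal NNReal ContDiff ComplexConjugate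

noncomputable section

namespace Pool.Agent.H2.LTM

variable {W W' : Type*} [AddCommGroup W] [Module ℂ W] [AddCommGroup W'] [Module ℂ W']

theorem IsHF.map_zero {Q : W → ℝ} (h : IsHF Q) : Q 0 = 0 := by
  obtain ⟨B, -, hQ⟩ := h
  rw [hQ]
  simp

theorem IsHF.add {Q Q' : W → ℝ} (h : IsHF Q) (h' : IsHF Q') : IsHF (fun u => Q u + Q' u) := by
  obtain ⟨B, hB, hQ⟩ := h
  obtain ⟨B', hB', hQ'⟩ := h'
  refine ⟨B + B', fun u v => ?_, fun u => ?_⟩
  · rw [LinearMap.add_apply, LinearMap.add_apply, LinearMap.add_apply, LinearMap.add_apply,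
      _root_.map_add, ← hB, ← hB']
  · simp only [LinearMap.add_apply, Complex.add_re, hQ, hQ']

theorem IsHF.sub {Q Q' : W → ℝ} (h : IsHF Q) (h' : IsHF Q') : IsHF (fun u => Q u - Q' u) := by
  obtain ⟨B, hB, hQ⟩ := h
  obtain ⟨B', hB', hQ'⟩ := h'
  refine ⟨B - B', fun u v => ?_, fun u => ?_⟩
  · rw [LinearMap.sub_apply, LinearMap.sub_apply, LinearMap.sub_apply, LinearMap.sub_apply,
      _root_.map_sub, ← hB, ← hB']
  · simp only [LinearMap.sub_apply, Complex.sub_re, hQ, hQ']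

theorem IsHF.const_mul {Q : W → ℝ} (h : IsHF Q) (r : ℝ) : IsHF (fun u => r * Q u) := by
  obtain ⟨B, hB, hQ⟩ := h
  refine ⟨(r : ℂ) • B, fun u v => ?_, fun u => ?_⟩
  · rw [LinearMap.smul_apply, LinearMap.smul_apply, LinearMap.smul_apply, LinearMap.smul_apply,
      smul_eq_mul, smul_eq_mul, _root_.map_mul, Complex.conj_ofReal, ← hB]
  · simp only [LinearMap.smul_apply, smul_eq_mul, Complex.re_ofReal_mul, hQ]

theorem IsHF.comp {Q : W' → ℝ} (h : IsHF Q) (L : W →ₗ[ℂ] W') : IsHF (fun u => Q (L u)) := by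
  obtain ⟨B, hB, hQ⟩ := h
  refine ⟨LinearMap.mk₂'ₛₗ (starRingEnd ℂ) (RingHom.id ℂ) (fun u v => B (L u) (L v))
    ?_ ?_ ?_ ?_, fun u v => ?_, fun u => ?_⟩
  · intro m₁ m₂ n
    simp
  · intro c m n
    simp
  · intro m n₁ n₂
    simp
  · intro c m n
    simp
  · exact hB _ _
  · exact hQ _

private theorem LSC_smul (B : W →ₗ⋆[ℂ] W →ₗ[ℂ] ℂ) (c : ℂ) (u : W) :
    (B (c • u) (c • u)).re = ‖c‖ ^ 2 * (B u u).re := by
  have h1 : B (c • u) (c • u) = ((‖c‖ ^ 2 : ℝ) : ℂ) * B u u := by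
    rw [LinearMap.map_smulₛₗ₂, LinearMap.map_smul, smul_eq_mul, smul_eq_mul,
      ← mul_assoc, ← Complex.normSq_eq_conj_mul_self, Complex.normSq_eq_norm_sq]
  rw [h1, Complex.re_ofReal_mul]

theorem IsHF.smul_apply {Q : W → ℝ} (h : IsHF Q) (c : ℂ) (u : W) : Q (c • u) = ‖c‖ ^ 2 * Q u := by
  obtain ⟨B, -, hQ⟩ := h
  rw [hQ, hQ, LSC_smul]

private theorem LSC_sum (B : W →ₗ⋆[ℂ] W →ₗ[ℂ] ℂ) {n : ℕ} (u : Fin n → W) (c : Fin n → ℂ) :
    B (∑ i, c i • u i) (∑ i, c i • u i) = ∑ i, ∑ j, conj (c i) * c j * B (u i) (u j) := by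
  rw [LinearMap.map_sum₂]
  refine Finset.sum_congr rfl fun i _ => ?_
  rw [map_sum]
  refine Finset.sum_congr rfl fun j _ => ?_
  rw [LinearMap.map_smulₛₗ₂, LinearMap.map_smul, smul_eq_mul, smul_eq_mul, mul_assoc]

/-- a finite family gives a Hermitian matrix. -/
theorem IsHF.exists_matrix {Q : W → ℝ} (h : IsHF Q) {n : ℕ} (u : Fin n → W) :
    ∃ X : Matrix (Fin n) (Fin n) ℂ, X.IsHermitian ∧ (∀ i, (X i i).re = Q (u i)) ∧
      ∀ c : Fin n → ℂ, Q (∑ i, c i • u i) = qf X c := by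
  obtain ⟨B, hB, hQ⟩ := h
  refine ⟨Matrix.of fun i j => B (u i) (u j), ?_, fun i => ?_, fun c => ?_⟩
  · ext i j
    rw [Matrix.conjTranspose_apply, Matrix.of_apply, Matrix.of_apply]
    exact (hB _ _).symm
  · rw [Matrix.of_apply, hQ]
  · rw [hQ, LSC_sum, qf]
    congr 1
    simp only [dotProduct, Matrix.mulVec, Matrix.of_apply, Pi.star_apply, Finset.mul_sum]
    refine Finset.sum_congr rfl fun i _ => Finset.sum_congr rfl fun j _ => ?_
    rw [Complex.star_def]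
    ring

private theorem LSC_pol {Q : W → ℝ} {B : W →ₗ⋆[ℂ] W →ₗ[ℂ] ℂ} (hB : ∀ u v, B u v = conj (B v u))
    (hQ : ∀ u, Q u = (B u u).re) (x y : W) :
    B x y = (((Q (x + y) - Q x - Q y) / 2 : ℝ) : ℂ) +
      ((-(Q (x + I • y) - Q x - Q y) / 2 : ℝ) : ℂ) * I := by
  have h1 : Q (x + y) = Q x + Q y + 2 * (B x y).re := by
    rw [hQ, hQ, hQ, LinearMap.map_add₂, map_add, map_add, hB y x]
    simp only [Complex.add_re, Complex.conj_re]
    ring
  have h2 : Q (x + I • y) = Q x + Q y - 2 * (B x y).im := by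
    rw [hQ, hQ, hQ, LinearMap.map_add₂, map_add, map_add, LinearMap.map_smulₛₗ₂,
      LinearMap.map_smulₛₗ₂, LinearMap.map_smul, LinearMap.map_smul, hB y x]
    simp only [Complex.add_re, smul_eq_mul, Complex.conj_I, Complex.mul_re, Complex.neg_re,
      Complex.neg_im, Complex.I_re, Complex.I_im, Complex.conj_re, Complex.conj_im,
      Complex.mul_im]
    ring
  have h3 : (Q (x + y) - Q x - Q y) / 2 = (B x y).re := by rw [h1]; ring
  have h4 : -(Q (x + I • y) - Q x - Q y) / 2 = (B x y).im := by rw [h2]; ring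
  rw [h3, h4, Complex.re_add_im]

private theorem LSC_diff {B B' : W →ₗ⋆[ℂ] W →ₗ[ℂ] ℂ} {n : ℕ} (u : Fin n → W) (c : Fin n → ℂ)
    (hc : ‖c‖ ≤ 1) :
    (B' (∑ i, c i • u i) (∑ i, c i • u i)).re ≤ (B (∑ i, c i • u i) (∑ i, c i • u i)).re +
      ∑ i, ∑ j, ‖B' (u i) (u j) - B (u i) (u j)‖ := by
  have h1 : B' (∑ i, c i • u i) (∑ i, c i • u i) - B (∑ i, c i • u i) (∑ i, c i • u i) =
      ∑ i, ∑ j, conj (c i) * c j * (B' (u i) (u j) - B (u i) (u j)) := by
    rw [LSC_sum, LSC_sum, ← Finset.sum_sub_distrib]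
    refine Finset.sum_congr rfl fun i _ => ?_
    rw [← Finset.sum_sub_distrib]
    refine Finset.sum_congr rfl fun j _ => ?_
    rw [mul_sub]
  have h2 : ‖B' (∑ i, c i • u i) (∑ i, c i • u i) - B (∑ i, c i • u i) (∑ i, c i • u i)‖ ≤
      ∑ i, ∑ j, ‖B' (u i) (u j) - B (u i) (u j)‖ := by
    rw [h1]
    refine (norm_sum_le _ _).trans (Finset.sum_le_sum fun i _ => ?_)
    refine (norm_sum_le _ _).trans (Finset.sum_le_sum fun j _ => ?_)
    rw [norm_mul, norm_mul, RCLike.norm_conj]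
    have hi : ‖c i‖ ≤ 1 := (norm_le_pi_norm c i).trans hc
    have hj : ‖c j‖ ≤ 1 := (norm_le_pi_norm c j).trans hc
    have hij : ‖c i‖ * ‖c j‖ ≤ 1 := mul_le_one₀ hi (norm_nonneg _) hj
    exact mul_le_of_le_one_left (norm_nonneg _) hij
  have h3 := Complex.re_le_norm
    (B' (∑ i, c i • u i) (∑ i, c i • u i) - B (∑ i, c i • u i) (∑ i, c i • u i))
  rw [Complex.sub_re] at h3
  linarith

theorem eventually_le_cnt {ι : Type*} {l : Filter ι} (Qk : ι → W → ℝ) (Q : W → ℝ)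
    (hk : ∀ k, IsHF (Qk k)) (hQ : IsHF Q) (hlim : ∀ u, Tendsto (fun k => Qk k u) l (𝓝 (Q u)))
    (n : ℕ) (h : (n : ℕ∞) ≤ cnt Q) : ∀ᶠ k in l, (n : ℕ∞) ≤ cnt (Qk k) := by
  obtain ⟨u, hu⟩ := (le_cnt_iff Q hQ.map_zero.ge n).1 h
  obtain ⟨B, hB, hQB⟩ := hQ
  choose Bk hBk hQBk using hk
  -- convergence of the sesquilinear forms
  have hconv : ∀ x y, Tendsto (fun k => Bk k x y) l (𝓝 (B x y)) := by
    intro x y
    have e1 : (fun k => Bk k x y) = fun k => (((Qk k (x + y) - Qk k x - Qk k y) / 2 : ℝ) : ℂ) +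
        ((-(Qk k (x + I • y) - Qk k x - Qk k y) / 2 : ℝ) : ℂ) * I := by
      funext k
      exact LSC_pol (hBk k) (hQBk k) x y
    rw [e1, LSC_pol hB hQB x y]
    have t1 : Tendsto (fun k => (Qk k (x + y) - Qk k x - Qk k y) / 2) l
        (𝓝 ((Q (x + y) - Q x - Q y) / 2)) :=
      (((hlim _).sub (hlim _)).sub (hlim _)).div_const 2
    have t2 : Tendsto (fun k => -(Qk k (x + I • y) - Qk k x - Qk k y) / 2) l
        (𝓝 (-(Q (x + I • y) - Q x - Q y) / 2)) :=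
      (((hlim _).sub (hlim _)).sub (hlim _)).neg.div_const 2
    exact ((Complex.continuous_ofReal.tendsto _).comp t1).add
      (((Complex.continuous_ofReal.tendsto _).comp t2).mul_const I)
  -- the sum of the differences tends to zero
  have hsum : Tendsto (fun k => ∑ i, ∑ j, ‖Bk k (u i) (u j) - B (u i) (u j)‖) l (𝓝 0) := by
    have e0 : (0 : ℝ) = ∑ _i : Fin n, ∑ _j : Fin n, (0 : ℝ) := by simp
    rw [e0]
    refine tendsto_finsetSum _ fun i _ => tendsto_finsetSum _ fun j _ => ?_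
    have := (hconv (u i) (u j)).sub_const (B (u i) (u j))
    rw [sub_self] at this
    simpa using this.norm
  -- compactness of the sphere
  have hneg : ∃ δ > 0, ∀ c : Fin n → ℂ, ‖c‖ = 1 → Q (∑ i, c i • u i) ≤ -δ := by
    have hcont : Continuous fun c : Fin n → ℂ => Q (∑ i, c i • u i) := by
      have e2 : (fun c : Fin n → ℂ => Q (∑ i, c i • u i)) =
          fun c => (∑ i, ∑ j, conj (c i) * c j * B (u i) (u j)).re := by
        funext c
        rw [hQB, LSC_sum]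
      rw [e2]
      refine Complex.continuous_re.comp ?_
      refine continuous_finsetSum _ fun i _ => continuous_finsetSum _ fun j _ => ?_
      exact ((Complex.continuous_conj.comp (continuous_apply i)).mul
        (continuous_apply j)).mul continuous_const
    have hcomp : IsCompact (Metric.sphere (0 : Fin n → ℂ) 1) := isCompact_sphere _ _
    rcases (Metric.sphere (0 : Fin n → ℂ) 1).eq_empty_or_nonempty with hem | hne
    · refine ⟨1, one_pos, fun c hc => ?_⟩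
      have : c ∈ Metric.sphere (0 : Fin n → ℂ) 1 := by simpa using hc
      rw [hem] at this
      exact absurd this (Set.notMem_empty _)
    · obtain ⟨c0, hc0, hmax⟩ := hcomp.exists_isMaxOn hne hcont.continuousOn
      have hc0' : ‖c0‖ = 1 := by simpa using hc0
      have h1 := hu c0 (by
        rintro rfl
        simp at hc0')
      refine ⟨-Q (∑ i, c0 i • u i), by linarith, fun c hc => ?_⟩
      have h2 := hmax (show c ∈ Metric.sphere (0 : Fin n → ℂ) 1 by simpa using hc)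
      simpa using h2
  obtain ⟨δ, hδ, hneg⟩ := hneg
  filter_upwards [hsum.eventually (gt_mem_nhds hδ)] with k hkδ
  have hz : Qk k 0 = 0 := IsHF.map_zero ⟨Bk k, hBk k, hQBk k⟩
  refine (le_cnt_iff _ hz.ge n).2 ⟨u, fun c hc => ?_⟩
  have hc' : 0 < ‖c‖ := norm_pos_iff.2 hc
  set c' : Fin n → ℂ := ((‖c‖⁻¹ : ℝ) : ℂ) • c with hc'd
  have hn1 : ‖c'‖ = 1 := by
    rw [hc'd, norm_smul, Complex.norm_real, norm_inv, norm_norm, inv_mul_cancel₀ hc'.ne']
  have h1 := LSC_diff (B := B) (B' := Bk k) u c' hn1.le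
  rw [← hQB, ← hQBk] at h1
  have h2 := hneg c' hn1
  have h3 : ∑ i, c i • u i = ((‖c‖ : ℝ) : ℂ) • ∑ i, c' i • u i := by
    rw [Finset.smul_sum]
    refine Finset.sum_congr rfl fun i _ => ?_
    rw [smul_smul, hc'd, Pi.smul_apply, smul_eq_mul, ← mul_assoc, ← Complex.ofReal_mul,
      mul_inv_cancel₀ hc'.ne', Complex.ofReal_one, one_mul]
  rw [h3, IsHF.smul_apply ⟨Bk k, hBk k, hQBk k⟩]
  have h4 : Qk k (∑ i, c' i • u i) < 0 := by linarith
  have h5 : 0 < ‖((‖c‖ : ℝ) : ℂ)‖ ^ 2 := by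
    rw [Complex.norm_real, norm_norm]
    positivity
  exact mul_neg_of_pos_of_neg h5 h4

end Pool.Agent.H2.LTM
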