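import Pool.Agent.H2.LTM.Defs

/-!
# SPL: existence of the splines

Let `η` be a smooth function, `η ≥ 0`, zero off `(0,1)`, `∫ η = 1` (a `ContDiffBump` at `1/2` with
`rOut = 1/2`, normalised by its integral).  For continuous `f` put `J f t = ∫ s in (t-1)..t, f s`.
Then `J f` has derivative `f t - f (t-1)` (`intervalIntegral` fundamental theorem), so `J f` is
smooth if `f` is (`contDiff_infty_iff_deriv` or `J f t = F t - F (t-1)` with `F t = ∫_0^t f` smooth);
`J f ≥ 0` if `f ≥ 0`; if `f` is zero off `(0,r)` then `J f` is zero off `(0, r+1)`; and for every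
finite set `F` of integers containing all integers of `[⌊t⌋-3, ⌊t⌋]`, with `f` zero off `(0,2)` or
`(0,1)`: `Σ_{k ∈ F} J f (t-k) = Σ_{k ∈ F} ∫_{t-k-1}^{t-k} f = ∫_ℝ f = 1` (terms with `k` outside
`[⌊t⌋-3, ⌊t⌋]` vanish as `J f` is zero off `(0,3)`; the remaining four intervals tile
`[t-⌊t⌋-1, t-⌊t⌋+3] ⊇ [0,2]`; `intervalIntegral.integral_add_adjacent_intervals`).
Put `ψ = J η` (zero off `(0,2)`), `φ = J ψ` (zero off `(0,3)`).  `∫ ψ = 1`: `∫_ℝ ψ = ∫_0^2 ψ =
∫_0^1 (ψ(t) + ψ(t+1)) dt = ∫_0^1 1 = 1` by the partition of unity (all other translates vanish for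
`t ∈ (0,1)`).  Similarly `∫ φ = ∫_0^1 (φ(t) + φ(t+1) + φ(t+2)) dt = 1`.  `deriv φ t = ψ t - ψ (t-1)`.
-/

open MeasureTheory Complex Set Filter Topology
open scoped ENNReal NNReal ContDiff ComplexConjugate

noncomputable section

namespace Pool.Agent.H2.LTM

private structure SPL_ok (f : ℝ → ℝ) (r : ℝ) : Prop where
  sm : ContDiff ℝ ∞ f
  nn : ∀ t, 0 ≤ f t
  supp : ∀ t, t ≤ 0 ∨ r ≤ t → f t = 0
  int : ∫ t, f t = 1

private def SPL_F (f : ℝ → ℝ) (t : ℝ) : ℝ := ∫ s in (0 : ℝ)..t, f s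

private def SPL_J (f : ℝ → ℝ) (t : ℝ) : ℝ := SPL_F f t - SPL_F f (t - 1)

private theorem SPL_F_deriv {f : ℝ → ℝ} (hf : Continuous f) (t : ℝ) : HasDerivAt (SPL_F f) (f t) t :=
  intervalIntegral.integral_hasDerivAt_right (hf.intervalIntegrable _ _)
    (hf.stronglyMeasurableAtFilter _ _) hf.continuousAt

private theorem SPL_F_smooth {f : ℝ → ℝ} (hf : ContDiff ℝ ∞ f) : ContDiff ℝ ∞ (SPL_F f) := by
  rw [contDiff_infty_iff_deriv]
  refine ⟨fun t => (SPL_F_deriv hf.continuous t).differentiableAt, ?_⟩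
  have : deriv (SPL_F f) = f := funext fun t => (SPL_F_deriv hf.continuous t).deriv
  rw [this]
  exact hf

private theorem SPL_F_low {f : ℝ → ℝ} {r : ℝ} (h : SPL_ok f r) {t : ℝ} (ht : t ≤ 0) : SPL_F f t = 0 := by
  unfold SPL_F
  rw [intervalIntegral.integral_congr (g := fun _ => (0 : ℝ))]
  · simp
  · intro s hs
    rw [uIcc_of_ge ht] at hs
    exact h.supp s (Or.inl hs.2)

private theorem SPL_F_high {f : ℝ → ℝ} {r : ℝ} (h : SPL_ok f r) {t : ℝ} (hr : r ≤ t) (hr0 : 0 ≤ r) :
    SPL_F f t = 1 := by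
  unfold SPL_F
  rw [intervalIntegral.integral_eq_integral_of_support_subset, h.int]
  intro s hs
  rw [Function.mem_support] at hs
  by_contra hcon
  apply hs
  apply h.supp
  rw [mem_Ioc, not_and_or, not_lt, not_le] at hcon
  rcases hcon with h1 | h1
  · exact Or.inl h1
  · exact Or.inr (by linarith)

private theorem SPL_sum {f : ℝ → ℝ} {r : ℝ} (h : SPL_ok f r) (hr0 : 0 ≤ r) (hr : r ≤ 2) (t : ℝ) (F : Finset ℤ)
    (hF : ∀ k ∈ Icc (⌊t⌋ - 3) ⌊t⌋, k ∈ F) : ∑ k ∈ F, SPL_J f (t - k) = 1 := by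
  have h1 : Finset.Icc (⌊t⌋ - 3) ⌊t⌋ ⊆ F := by
    intro k hk
    rw [Finset.mem_Icc] at hk
    exact hF k hk
  have ht0 := Int.floor_le t
  have ht1 := Int.lt_floor_add_one t
  rw [← Finset.sum_subset h1]
  · have e : Finset.Icc (⌊t⌋ - 3) ⌊t⌋ = {⌊t⌋ - 3, ⌊t⌋ - 2, ⌊t⌋ - 1, ⌊t⌋} := by
      ext k
      simp only [Finset.mem_Icc, Finset.mem_insert, Finset.mem_singleton]
      omega
    rw [e, Finset.sum_insert (by simp), Finset.sum_insert (by simp), Finset.sum_insert (by simp),
      Finset.sum_singleton]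
    unfold SPL_J
    push_cast
    have a1 : SPL_F f (t - (⌊t⌋ - 3)) = 1 := SPL_F_high h (by linarith) hr0
    have a2 : SPL_F f (t - ⌊t⌋ - 1) = 0 := SPL_F_low h (by linarith)
    have b1 : t - ((⌊t⌋ : ℝ) - 3) - 1 = t - (⌊t⌋ - 2) := by ring
    have b2 : t - ((⌊t⌋ : ℝ) - 2) - 1 = t - (⌊t⌋ - 1) := by ring
    have b3 : t - ((⌊t⌋ : ℝ) - 1) - 1 = t - ⌊t⌋ := by ring
    rw [b1, b2, b3, a1, a2]
    ring
  · intro k _ hk
    rw [Finset.mem_Icc, not_and_or, not_le, not_le] at hk
    unfold SPL_J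
    rcases hk with hk | hk
    · have hk' : (k : ℝ) ≤ ⌊t⌋ - 4 := by
        have : k ≤ ⌊t⌋ - 4 := by omega
        exact_mod_cast this
      rw [SPL_F_high h (by linarith) hr0, SPL_F_high h (by linarith) hr0, sub_self]
    · have hk' : (⌊t⌋ : ℝ) + 1 ≤ k := by
        have : ⌊t⌋ + 1 ≤ k := by omega
        exact_mod_cast this
      rw [SPL_F_low h (by linarith), SPL_F_low h (by linarith), sub_self]

private theorem SPL_step {f : ℝ → ℝ} {r : ℝ} (h : SPL_ok f r) (hr0 : 0 ≤ r) (hr : r ≤ 2) :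
    SPL_ok (SPL_J f) (r + 1) := by
  have hs : ContDiff ℝ ∞ (SPL_J f) := by
    unfold SPL_J
    exact (SPL_F_smooth h.sm).sub ((SPL_F_smooth h.sm).comp (contDiff_id.sub contDiff_const))
  have hsupp : ∀ t, t ≤ 0 ∨ r + 1 ≤ t → SPL_J f t = 0 := by
    intro t ht
    unfold SPL_J
    rcases ht with ht | ht
    · rw [SPL_F_low h ht, SPL_F_low h (by linarith), sub_self]
    · rw [SPL_F_high h (by linarith) hr0, SPL_F_high h (by linarith) hr0, sub_self]
  refine ⟨hs, ?_, hsupp, ?_⟩
  · intro t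
    unfold SPL_J SPL_F
    rw [intervalIntegral.integral_interval_sub_left (h.sm.continuous.intervalIntegrable _ _)
      (h.sm.continuous.intervalIntegrable _ _)]
    exact intervalIntegral.integral_nonneg (by linarith) (fun s _ => h.nn s)
  · have hc : Continuous (SPL_J f) := hs.continuous
    have e0 : ∫ t, SPL_J f t = ∫ t in (0 : ℝ)..3, SPL_J f t := by
      rw [intervalIntegral.integral_eq_integral_of_support_subset]
      intro s hs
      rw [Function.mem_support] at hs
      by_contra hcon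
      apply hs
      apply hsupp
      rw [mem_Ioc, not_and_or, not_lt, not_le] at hcon
      rcases hcon with h1 | h1
      · exact Or.inl h1
      · exact Or.inr (by linarith)
    have e1 : ∫ t in (0 : ℝ)..3, SPL_J f t
        = (∫ t in (0 : ℝ)..1, SPL_J f t) + (∫ t in (1 : ℝ)..2, SPL_J f t) + ∫ t in (2 : ℝ)..3, SPL_J f t := by
      rw [intervalIntegral.integral_add_adjacent_intervals (hc.intervalIntegrable _ _)
        (hc.intervalIntegrable _ _), intervalIntegral.integral_add_adjacent_intervals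
        (hc.intervalIntegrable _ _) (hc.intervalIntegrable _ _)]
    have e2 : ∫ t in (1 : ℝ)..2, SPL_J f t = ∫ t in (0 : ℝ)..1, SPL_J f (t + 1) := by
      rw [intervalIntegral.integral_comp_add_right]
      norm_num
    have e3 : ∫ t in (2 : ℝ)..3, SPL_J f t = ∫ t in (0 : ℝ)..1, SPL_J f (t + 2) := by
      rw [intervalIntegral.integral_comp_add_right]
      norm_num
    have c1 : Continuous (fun t => SPL_J f (t + 1)) := hc.comp (continuous_id.add continuous_const)
    have c2 : Continuous (fun t => SPL_J f (t + 2)) := hc.comp (continuous_id.add continuous_const)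
    have c3 : Continuous (fun t => SPL_J f t + SPL_J f (t + 1)) := hc.add c1
    rw [e0, e1, e2, e3, ← intervalIntegral.integral_add (hc.intervalIntegrable _ _)
      (c1.intervalIntegrable _ _), ← intervalIntegral.integral_add
      (c3.intervalIntegrable _ _) (c2.intervalIntegrable _ _)]
    have e4 : ∀ t ∈ uIcc (0 : ℝ) 1, SPL_J f t + SPL_J f (t + 1) + SPL_J f (t + 2) = 1 := by
      intro t ht
      rw [uIcc_of_le zero_le_one] at ht
      unfold SPL_J
      have a1 : SPL_F f (t + 2) = 1 := SPL_F_high h (by linarith [ht.1]) hr0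
      have a2 : SPL_F f (t - 1) = 0 := SPL_F_low h (by linarith [ht.2])
      have b1 : t + 1 - 1 = t := by ring
      have b2 : t + 2 - 1 = t + 1 := by ring
      rw [b1, b2, a1, a2]
      ring
    rw [intervalIntegral.integral_congr (g := fun _ => (1 : ℝ)) e4]
    simp

private theorem SPL_eta : ∃ f : ℝ → ℝ, SPL_ok f 1 := by
  let b : ContDiffBump (1 / 2 : ℝ) := ⟨1 / 4, 1 / 2, by norm_num, by norm_num⟩
  refine ⟨b.normed volume, b.contDiff_normed, fun t => b.nonneg_normed t, ?_, b.integral_normed⟩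
  intro t ht
  have hs : Function.support (b.normed volume) = Metric.ball (1 / 2 : ℝ) (1 / 2) := b.support_normed_eq
  by_contra hne
  have : t ∈ Function.support (b.normed volume) := hne
  rw [hs, Metric.mem_ball, Real.dist_eq, abs_lt] at this
  rcases ht with ht | ht <;> linarith [this.1, this.2]

theorem exists_spl : ∃ φ ψ : ℝ → ℝ, Spl φ ψ := by
  obtain ⟨η, hη⟩ := SPL_eta
  have hψ := SPL_step hη zero_le_one one_le_two
  have hφ := SPL_step hψ (by norm_num) (by norm_num)
  refine ⟨SPL_J (SPL_J η), SPL_J η, ?_⟩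
  exact
    { smφ := hφ.sm
      smψ := hψ.sm
      nnφ := hφ.nn
      nnψ := hψ.nn
      suppφ := fun t ht => hφ.supp t (by rcases ht with h | h; exacts [Or.inl h, Or.inr (by linarith)])
      suppψ := fun t ht => hψ.supp t (by rcases ht with h | h; exacts [Or.inl h, Or.inr (by linarith)])
      sumφ := SPL_sum hψ (by norm_num) (by norm_num)
      sumψ := SPL_sum hη (by norm_num) (by norm_num)
      intφ := hφ.int
      intψ := hψ.int
      der := by
        intro t
        have h1 := SPL_F_deriv hψ.sm.continuous t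
        have h2 := (SPL_F_deriv hψ.sm.continuous (t - 1)).comp_sub_const t 1
        exact (h1.sub h2).deriv }

end Pool.Agent.H2.LTM
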