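import Pool.Agent.H2.LTM.WGT
import Pool.Agent.H2.LTM.SPL

/-!
# RSM: Riemann sums against cell averages

Let `f` vanish off `{|y_j| ≤ R}`, `|f| ≤ F`.  For `m ≥ 1`,
`Σ_{x ∈ box (N m)} potW x f(x/m) = ∫ V(y) g_m(y) dy`, `g_m y = Σ_{x ∈ box (N m)} wgt x y f(x/m)`
(`V * wgt` is integrable: `V` locally integrable, `wgt` continuous with compact support).
`|g_m| ≤ F` (`sum_wgt_le_one`), and `g_m y = 0` if some `|y_j| > R + 4` (a term with
`wgt x y ≠ 0`, `f(x/m) ≠ 0` has `|x_j| ≤ R m` and `⌊m y_j⌋ - 3 ≤ x_j ≤ ⌊m y_j⌋`).  Dominating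
function `F |V| 1_{|y_j| ≤ R+4}`.  Pointwise `g_m y → f y`: for `m` large (`m² ≥ m |y_j| + 4`),
`Σ_{x ∈ box (N m)} wgt x y = 1` (`sum_wgt_eq_one`), so `g_m y - f y = Σ wgt x y (f(x/m) - f y)` and
`|x_j/m - y_j| ≤ 4/m` for all terms with `wgt ≠ 0`; continuity of `f` at `y`.  Dominated convergence.
`rsm_one`: take `V = 1`, `potW φ m 1 x = 1/m^d` (`integral_wgt`).
-/

open MeasureTheory Complex Set Filter Topology
open scoped ENNReal NNReal ContDiff ComplexConjugate

noncomputable section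

namespace Pool.Agent.H2.LTM

variable {d : ℕ} {φ ψ : ℝ → ℝ}

private theorem RSM_idx (hs : Spl φ ψ) {m : ℕ} {x : Lt d} {y : Sp d} (h : wgt φ m x y ≠ 0) (j : Fin d) :
    ⌊(m : ℝ) * y j⌋ - 3 ≤ x j ∧ x j ≤ ⌊(m : ℝ) * y j⌋ := by
  by_contra hcon
  apply h
  apply wgt_eq_zero hs
  refine ⟨j, ?_⟩
  rw [not_and_or, not_le, not_le] at hcon
  exact hcon

private theorem RSM_close (hs : Spl φ ψ) {m : ℕ} (hm : 1 ≤ m) {x : Lt d} {y : Sp d} (h : wgt φ m x y ≠ 0) :
    dist (pt m x) y ≤ 4 / m := by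
  have hm' : (0 : ℝ) < m := by exact_mod_cast hm
  rw [dist_pi_le_iff (by positivity)]
  intro j
  obtain ⟨h1, h2⟩ := RSM_idx hs h j
  have h3 := Int.floor_le ((m : ℝ) * y j)
  have h4 := Int.lt_floor_add_one ((m : ℝ) * y j)
  have h1' : (⌊(m : ℝ) * y j⌋ : ℝ) - 3 ≤ x j := by exact_mod_cast h1
  have h2' : (x j : ℝ) ≤ ⌊(m : ℝ) * y j⌋ := by exact_mod_cast h2
  rw [Real.dist_eq]
  change |(x j : ℝ) / m - y j| ≤ 4 / m
  rw [abs_le]
  constructor
  · rw [le_sub_iff_add_le, ← sub_nonneg]
    have : (x j : ℝ) / m - (-(4 / m) + y j) = (x j + 4 - m * y j) / m := by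
      field_simp
      ring
    rw [this]
    apply div_nonneg _ hm'.le
    linarith
  · rw [sub_le_iff_le_add, ← sub_nonneg]
    have : 4 / (m : ℝ) + y j - (x j : ℝ) / m = (4 + m * y j - x j) / m := by
      field_simp
    rw [this]
    apply div_nonneg _ hm'.le
    linarith

theorem rsm (hs : Spl φ ψ) {V : Sp d → ℝ} (hV : LocallyIntegrable V) {f : Sp d → ℝ}
    (hf : Continuous f) (hc : HasCompactSupport f) (N : ℕ → ℕ) (hN : ∀ m, m * m ≤ N m) :
    Tendsto (fun m : ℕ => ∑ x ∈ box d (N m), potW φ m V x * f (pt m x)) atTop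
      (𝓝 (∫ x, V x * f x)) := by
  obtain ⟨C, hC⟩ := hc.exists_bound_of_continuous hf
  have hC0 : 0 ≤ C := (norm_nonneg _).trans (hC 0)
  obtain ⟨R, hR⟩ := hc.isCompact.isBounded.subset_closedBall (0 : Sp d)
  have hfR : ∀ y, f y ≠ 0 → dist y 0 ≤ R := by
    intro y hy
    exact Metric.mem_closedBall.mp (hR (subset_tsupport f hy))
  set g : ℕ → Sp d → ℝ := fun m y => ∑ x ∈ box d (N m), wgt φ m x y * f (pt m x) with hg
  have hint : ∀ m : ℕ, 1 ≤ m → ∀ x : Lt d, Integrable (fun y => V y * wgt φ m x y) := by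
    intro m hm x
    have h1 := hV.integrable_smul_left_of_hasCompactSupport (contDiff_wgt hs m x).continuous
      (hasCompactSupport_wgt hs hm x)
    refine h1.congr (ae_of_all _ fun y => ?_)
    simp only [smul_eq_mul]
    ring
  have e1 : ∀ m : ℕ, 1 ≤ m → ∑ x ∈ box d (N m), potW φ m V x * f (pt m x) = ∫ y, V y * g m y := by
    intro m hm
    have h1 : ∀ y, V y * g m y = ∑ x ∈ box d (N m), V y * wgt φ m x y * f (pt m x) := by
      intro y
      rw [hg]
      simp only [Finset.mul_sum]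
      refine Finset.sum_congr rfl fun x _ => ?_
      ring
    simp_rw [h1]
    rw [integral_finset_sum _ (fun x _ => (hint m hm x).mul_const _)]
    refine Finset.sum_congr rfl fun x _ => ?_
    rw [integral_mul_const]
    rfl
  have hgb : ∀ m y, |g m y| ≤ C := by
    intro m y
    calc |g m y| ≤ ∑ x ∈ box d (N m), |wgt φ m x y * f (pt m x)| := Finset.abs_sum_le_sum_abs _ _
      _ ≤ ∑ x ∈ box d (N m), wgt φ m x y * C := by
          refine Finset.sum_le_sum fun x _ => ?_
          rw [abs_mul, abs_of_nonneg (wgt_nonneg hs m x y)]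
          exact mul_le_mul_of_nonneg_left (hC _) (wgt_nonneg hs m x y)
      _ = (∑ x ∈ box d (N m), wgt φ m x y) * C := by rw [Finset.sum_mul]
      _ ≤ 1 * C := mul_le_mul_of_nonneg_right (sum_wgt_le_one hs m y _) hC0
      _ = C := one_mul C
  have hgz : ∀ m : ℕ, 1 ≤ m → ∀ y, y ∉ Metric.closedBall (0 : Sp d) (R + 4) → g m y = 0 := by
    intro m hm y hy
    refine Finset.sum_eq_zero fun x _ => ?_
    by_contra hne
    apply hy
    have h1 := RSM_close hs hm (left_ne_zero_of_mul hne)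
    have h2 := hfR _ (right_ne_zero_of_mul hne)
    have hm' : (1 : ℝ) ≤ m := by exact_mod_cast hm
    have h3 : (4 : ℝ) / m ≤ 4 := div_le_self (by norm_num) hm'
    rw [Metric.mem_closedBall]
    have h4 := dist_triangle y (pt m x) 0
    rw [dist_comm y (pt m x)] at h4
    linarith
  have hgt : ∀ y, Tendsto (fun m => g m y) atTop (𝓝 (f y)) := by
    intro y
    rw [Metric.tendsto_atTop]
    intro ε hε
    obtain ⟨δ, hδ, hδ'⟩ := Metric.continuous_iff.mp hf y (ε / 2) (by linarith)
    obtain ⟨M1, hM1⟩ := exists_nat_gt (4 / δ)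
    obtain ⟨M2, hM2⟩ := exists_nat_gt (‖y‖ + 4)
    refine ⟨max (max M1 M2) 1, fun m hm => ?_⟩
    have hm1 : 1 ≤ m := (le_max_right _ _).trans hm
    have hmM1 : M1 ≤ m := (le_max_left _ _).trans ((le_max_left _ _).trans hm)
    have hmM2 : M2 ≤ m := (le_max_right _ _).trans ((le_max_left _ _).trans hm)
    have hm1' : (1 : ℝ) ≤ m := by exact_mod_cast hm1
    have hm0 : (0 : ℝ) < m := by linarith
    have hmM1' : (M1 : ℝ) ≤ m := by exact_mod_cast hmM1
    have hmM2' : (M2 : ℝ) ≤ m := by exact_mod_cast hmM2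
    have hclose : (4 : ℝ) / m < δ := by
      rw [div_lt_iff₀ hm0]
      have := (div_lt_iff₀ hδ).mp (hM1.trans_le hmM1')
      linarith
    have hone : ∑ x ∈ box d (N m), wgt φ m x y = 1 := by
      apply sum_wgt_eq_one hs
      intro x hx
      unfold box
      rw [Fintype.mem_piFinset]
      intro j
      rw [Finset.mem_Icc]
      obtain ⟨h1, h2⟩ := hx j
      have h3 := Int.floor_le ((m : ℝ) * y j)
      have h4 := Int.lt_floor_add_one ((m : ℝ) * y j)
      have h5 : |y j| ≤ ‖y‖ := by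
        rw [← Real.norm_eq_abs]
        exact norm_le_pi_norm y j
      have h6 := abs_le.mp h5
      have hNm : ((m * m : ℕ) : ℝ) ≤ (N m : ℝ) := by exact_mod_cast hN m
      push_cast at hNm
      have h1' : (⌊(m : ℝ) * y j⌋ : ℝ) - 3 ≤ x j := by exact_mod_cast h1
      have h2' : (x j : ℝ) ≤ ⌊(m : ℝ) * y j⌋ := by exact_mod_cast h2
      have h7 : (m : ℝ) * y j ≤ m * ‖y‖ := mul_le_mul_of_nonneg_left h6.2 hm0.le
      have h8 : (m : ℝ) * (-‖y‖) ≤ m * y j := mul_le_mul_of_nonneg_left h6.1 hm0.le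
      have h9 : (m : ℝ) * (‖y‖ + 4) ≤ m * m := mul_le_mul_of_nonneg_left (by linarith) hm0.le
      constructor
      · have : (-(N m : ℝ)) ≤ x j := by nlinarith
        exact_mod_cast this
      · have : (x j : ℝ) ≤ N m := by nlinarith
        exact_mod_cast this
    rw [Real.dist_eq]
    have e : g m y - f y = ∑ x ∈ box d (N m), wgt φ m x y * (f (pt m x) - f y) := by
      simp_rw [mul_sub]
      rw [Finset.sum_sub_distrib, ← Finset.sum_mul, hone, one_mul]
    rw [e]
    calc |∑ x ∈ box d (N m), wgt φ m x y * (f (pt m x) - f y)|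
        ≤ ∑ x ∈ box d (N m), |wgt φ m x y * (f (pt m x) - f y)| := Finset.abs_sum_le_sum_abs _ _
      _ ≤ ∑ x ∈ box d (N m), wgt φ m x y * (ε / 2) := by
          refine Finset.sum_le_sum fun x _ => ?_
          by_cases hw : wgt φ m x y = 0
          · rw [hw]; simp
          · rw [abs_mul, abs_of_nonneg (wgt_nonneg hs m x y)]
            apply mul_le_mul_of_nonneg_left _ (wgt_nonneg hs m x y)
            have := hδ' (pt m x) ((RSM_close hs hm1 hw).trans_lt hclose)
            rw [Real.dist_eq] at this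
            exact this.le
      _ = ε / 2 := by rw [← Finset.sum_mul, hone, one_mul]
      _ < ε := by linarith
  have hcont : ∀ m, Continuous (g m) := by
    intro m
    exact continuous_finset_sum _ fun x _ => (contDiff_wgt hs m x).continuous.mul continuous_const
  have key : Tendsto (fun m : ℕ => ∫ y, V y * g m y) atTop (𝓝 (∫ x, V x * f x)) := by
    apply tendsto_integral_filter_of_dominated_convergence
      (bound := (Metric.closedBall (0 : Sp d) (R + 4)).indicator (fun y => ‖V y‖ * C))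
    · exact Eventually.of_forall fun m => hV.aestronglyMeasurable.mul (hcont m).aestronglyMeasurable
    · filter_upwards [eventually_ge_atTop 1] with m hm
      refine ae_of_all _ fun y => ?_
      by_cases hy : y ∈ Metric.closedBall (0 : Sp d) (R + 4)
      · rw [indicator_of_mem hy, norm_mul]
        exact mul_le_mul_of_nonneg_left (hgb m y) (norm_nonneg _)
      · rw [indicator_of_notMem hy, hgz m hm y hy, mul_zero, norm_zero]
    · rw [integrable_indicator_iff measurableSet_closedBall]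
      exact ((hV.integrableOn_isCompact (isCompact_closedBall _ _)).norm).mul_const C
    · exact ae_of_all _ fun y => (hgt y).const_mul _
  refine key.congr' ?_
  filter_upwards [eventually_ge_atTop 1] with m hm
  exact (e1 m hm).symm

theorem rsm_one {f : Sp d → ℝ} (hf : Continuous f) (hc : HasCompactSupport f) (N : ℕ → ℕ)
    (hN : ∀ m, m * m ≤ N m) :
    Tendsto (fun m : ℕ => 1 / (m : ℝ) ^ d * ∑ x ∈ box d (N m), f (pt m x)) atTop
      (𝓝 (∫ x, f x)) := by
  obtain ⟨φ, ψ, hs⟩ := exists_spl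
  have h := rsm hs (V := fun _ => (1 : ℝ)) (locallyIntegrable_const 1) hf hc N hN
  simp only [one_mul] at h
  refine h.congr' ?_
  filter_upwards [eventually_ge_atTop 1] with m hm
  rw [Finset.mul_sum]
  refine Finset.sum_congr rfl fun x _ => ?_
  congr 1
  unfold potW
  simp only [one_mul]
  exact integral_wgt hs hm x

end Pool.Agent.H2.LTM
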