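import Mathlib

/-!
# Lieb–Thirring sums with and without magnetic field: the definitions used in the statements
-/

open MeasureTheory Complex Set
open scoped ENNReal ContDiff

noncomputable section

namespace Pool.Agent.H2.LTM

/-- Euclidean space (Lebesgue measure `volume`). -/
abbrev Sp (d : ℕ) := Fin d → ℝ

/-- `TF d`: smooth compactly supported complex functions. -/
def TF (d : ℕ) : Submodule ℂ (Sp d → ℂ) where
  carrier := {u | ContDiff ℝ ∞ u ∧ HasCompactSupport u}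
  zero_mem' := ⟨contDiff_const, HasCompactSupport.zero⟩
  add_mem' := fun ha hb => ⟨ha.1.add hb.1, ha.2.add hb.2⟩
  smul_mem' := fun c _ hu => ⟨contDiff_const.smul hu.1, hu.2.smul_left (f := fun _ => c)⟩

/-- `cov A u i x = ∂_i u(x) + i A_i(x) u(x)`. -/
def cov {d : ℕ} (A : Sp d → Sp d) (u : Sp d → ℂ) (i : Fin d) (x : Sp d) : ℂ :=
  fderiv ℝ u x (Pi.single i 1) + I * (A x i : ℂ) * u x

/-- magnetic kinetic energy `∑_i ∫ |(∂_i + i A_i) u|²`. -/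
def kin {d : ℕ} (A : Sp d → Sp d) (u : Sp d → ℂ) : ℝ := ∑ i, ∫ x, ‖cov A u i x‖ ^ 2

/-- potential energy `∫ V |u|²` (attractive potential `-V`, so `V ≥ 0`). -/
def pot {d : ℕ} (V : Sp d → ℝ) (u : Sp d → ℂ) : ℝ := ∫ x, V x * ‖u x‖ ^ 2

/-- `∫ |u|²`. -/
def mass {d : ℕ} (u : Sp d → ℂ) : ℝ := ∫ x, ‖u x‖ ^ 2

/-- For a real function `Q` on a complex vector space: the largest dimension of a finite dimensional
subspace on which `Q < 0` (off `0`). -/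
def cnt {W : Type*} [AddCommGroup W] [Module ℂ W] (Q : W → ℝ) : ℕ∞ :=
  sSup {n | ∃ G : Submodule ℂ W, FiniteDimensional ℂ G ∧ (∀ u ∈ G, u ≠ 0 → Q u < 0) ∧
    n = (Module.finrank ℂ G : ℕ∞)}

/-- number of eigenvalues below `-E` of `(-i∇+A)² - V` (variational principle on the form core of
test functions). -/
def levels {d : ℕ} (A : Sp d → Sp d) (V : Sp d → ℝ) (E : ℝ) : ℕ∞ :=
  cnt (fun u : TF d => kin A (u : Sp d → ℂ) - pot V (u : Sp d → ℂ) + E * mass (u : Sp d → ℂ))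

/-- `∑_n |E_n|^γ = ∫_0^∞ γ E^{γ-1} #{n : E_n < -E} dE`. -/
def riesz {d : ℕ} (γ : ℝ) (A : Sp d → Sp d) (V : Sp d → ℝ) : ℝ≥0∞ :=
  ∫⁻ E in Ioi (0 : ℝ), ENNReal.ofReal (γ * E ^ (γ - 1)) * ((levels A V E : ℕ∞) : ℝ≥0∞)

/-- `K` is a constant for the inequality without magnetic field. -/
def IsLT (γ : ℝ) (d : ℕ) (K : ℝ≥0∞) : Prop :=
  ∀ V : Sp d → ℝ, Measurable V → (∀ x, 0 ≤ V x) →
    ∫⁻ x, ENNReal.ofReal (V x ^ (γ + d / 2)) ≠ ⊤ →
    riesz γ 0 V ≤ K * ∫⁻ x, ENNReal.ofReal (V x ^ (γ + d / 2))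

/-- `K` is a constant for the inequality with arbitrary magnetic vector potentials in `L²_loc`. -/
def IsLTmag (γ : ℝ) (d : ℕ) (K : ℝ≥0∞) : Prop :=
  ∀ (A : Sp d → Sp d) (V : Sp d → ℝ), Measurable A →
    (∀ i, LocallyIntegrable (fun x => A x i ^ 2)) → Measurable V → (∀ x, 0 ≤ V x) →
    ∫⁻ x, ENNReal.ofReal (V x ^ (γ + d / 2)) ≠ ⊤ →
    riesz γ A V ≤ K * ∫⁻ x, ENNReal.ofReal (V x ^ (γ + d / 2))

/-- the best constant without magnetic field. -/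
def LT (γ : ℝ) (d : ℕ) : ℝ≥0∞ := sInf {K | IsLT γ d K}

/-- the best constant with magnetic fields. -/
def LTmag (γ : ℝ) (d : ℕ) : ℝ≥0∞ := sInf {K | IsLTmag γ d K}

end Pool.Agent.H2.LTM
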