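import Pool.Agent.H2.LTM.INT

/-!
# VAR: the variance estimate

Let `w = ext v`.  `Σ_x potW x |v x|² - pot V (itp v) = ∫ V(y) Var(y) dy` with
`Var y = Σ_{x ∈ box M} wgt x y |w x|² - |itp v y|²` (finite sums, `V` bounded measurable, `wgt`
integrable, `itp v` bounded with compact support).  `Var y ≥ 0` by `norm_itp_sq_le`, so it is
enough to bound `∫ Var ≤ 2 d 4^d / m^d * latKin M 0 w` (`0 ≤ V ≤ B`).

Pointwise bound.  Fix `y`, `x0 = (⌊m y_j⌋)_j`, `Q = Fintype.piFinset (fun j => Icc (x0_j - 3) x0_j)`.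
All `x` with `wgt x y ≠ 0` lie in `Q` (`wgt_eq_zero`); `Σ_{x ∈ Q} wgt x y = 1` (`sum_wgt_eq_one`);
`itp v y = Σ_{x ∈ Q} wgt x y w(x)` and `Σ_{box M} wgt |w|² = Σ_Q wgt |w|²` (`w = 0` off `box M`).
Since the weights sum to one, `Var y = Σ_Q wgt |w(x) - itp v y|² ≤ Σ_Q wgt |w(x) - w(x0)|²`
(expand; the difference is `|itp v y - w(x0)|² ≥ 0`).  For `x ∈ Q` with `wgt x y ≠ 0` one has
`x_j ∈ {x0_j - 2, x0_j - 1, x0_j}`: indeed `m y_j - x_j < 3` and `m y_j ≥ x0_j` give
`x_j > x0_j - 3`.  A monotone lattice path from `x` to `x0` (raise the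
coordinates one after the other) has at most `2 d` steps, every step `z → z + e_i` with `z ∈ Q` and
no step is used twice, so by Cauchy–Schwarz
`|w(x) - w(x0)|² ≤ 2 d Σ_{z ∈ Q} g(z)`, `g(z) = Σ_i |w(z+e_i) - w(z)|²`.
(Induction statement: for `x ≤ x0` coordinatewise with `Σ_j (x0_j - x_j) = n` there are steps
`(z_k, i_k)`, `k < n`, with distinct `z_k`, `x ≤ z_k ≤ x0`, and `‖w x - w x0‖ ≤ Σ_k ‖w(z_k + e_{i_k}) - w z_k‖`;
distinctness holds because the coordinate sum increases; simplest: prove directly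
`‖w x - w x0‖² ≤ n Σ_{z ∈ Icc x x0, z ≠ x0} g z`-type bound by induction on `n` with
`(a+b)² ≤ (1 + 1/n) ... ` or prove `‖w x - w x0‖ ≤ Σ_{k<n} sqrt (g (z k))` for an injective path
`z : Fin n → Lt d` into `Finset.Icc x x0`.)
So `Var y ≤ 2 d Σ_{z ∈ Q(y)} g(z)`.  Integrate: `z ∈ Q(y)` iff for all `j`
`z_j ≤ ⌊m y_j⌋ ≤ z_j + 3`, i.e. `m y_j ∈ [z_j, z_j + 4)`: a box of volume `(4/m)^d`
(`Real.volume_pi_Ico`).  Only `z ∈ box (M+1)` have `g(z) ≠ 0`.  Hence
`∫ Var ≤ 2 d (4/m)^d Σ_{z ∈ box (M+1)} g(z) = 2 d 4^d/m^d latKin M 0 w`.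
-/

open MeasureTheory Complex Set Filter Topology
open scoped ENNReal NNReal ContDiff ComplexConjugate

noncomputable section

namespace Pool.Agent.H2.LTM

variable {d : ℕ} {φ ψ : ℝ → ℝ}

/-- local energy -/
def VAR_g {d : ℕ} (w : Lt d → ℂ) (z : Lt d) : ℝ := ∑ i, ‖w (z + Pi.single i 1) - w z‖ ^ 2

theorem VAR_g_nonneg (w : Lt d → ℂ) (z : Lt d) : 0 ≤ VAR_g w z :=
  Finset.sum_nonneg fun i _ => by positivity

/-- the box of all `y` for which `z` is near `m y` -/
def VAR_S {d : ℕ} (m : ℕ) (z : Lt d) : Set (Sp d) :=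
  Set.pi Set.univ (fun j => Set.Ico ((z j : ℝ) / m) (((z j : ℝ) + 4) / m))

theorem VAR_real {ι : Type*} (F : Finset ι) (W f : ι → ℝ) (h1 : ∑ x ∈ F, W x = 1) (a : ℝ) :
    ∑ x ∈ F, f x ^ 2 * W x - (∑ x ∈ F, f x * W x) ^ 2 ≤ ∑ x ∈ F, (f x - a) ^ 2 * W x := by
  have h : ∑ x ∈ F, (f x - a) ^ 2 * W x =
      ∑ x ∈ F, f x ^ 2 * W x - 2 * a * ∑ x ∈ F, f x * W x + a ^ 2 * ∑ x ∈ F, W x := by
    rw [Finset.mul_sum, Finset.mul_sum, ← Finset.sum_sub_distrib, ← Finset.sum_add_distrib]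
    exact Finset.sum_congr rfl fun x _ => by ring
  rw [h, h1]
  nlinarith [sq_nonneg (∑ x ∈ F, f x * W x - a)]

theorem VAR_cplx {ι : Type*} (F : Finset ι) (W : ι → ℝ) (w : ι → ℂ) (h1 : ∑ x ∈ F, W x = 1)
    (a : ℂ) :
    ∑ x ∈ F, ‖w x‖ ^ 2 * W x - ‖∑ x ∈ F, w x * (W x : ℂ)‖ ^ 2 ≤
      ∑ x ∈ F, ‖w x - a‖ ^ 2 * W x := by
  have hn : ∀ z : ℂ, ‖z‖ ^ 2 = z.re ^ 2 + z.im ^ 2 := by
    intro z
    rw [Complex.sq_norm, Complex.normSq_apply]; ring
  have hre := VAR_real F W (fun x => (w x).re) h1 a.re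
  have him := VAR_real F W (fun x => (w x).im) h1 a.im
  have e1 : (∑ x ∈ F, w x * (W x : ℂ)).re = ∑ x ∈ F, (w x).re * W x := by
    rw [Complex.re_sum]; exact Finset.sum_congr rfl fun x _ => by simp
  have e2 : (∑ x ∈ F, w x * (W x : ℂ)).im = ∑ x ∈ F, (w x).im * W x := by
    rw [Complex.im_sum]; exact Finset.sum_congr rfl fun x _ => by simp
  simp only [hn, e1, e2, Complex.sub_re, Complex.sub_im, add_mul, Finset.sum_add_distrib]
  linarith

theorem VAR_alg {a b G S n : ℝ} (ha : a ^ 2 ≤ G) (hb : b ^ 2 ≤ n * S) (hn : 0 ≤ n) (hS : 0 ≤ S) :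
    (a + b) ^ 2 ≤ (n + 1) * (G + S) := by
  have hG : 0 ≤ G := le_trans (sq_nonneg a) ha
  have h : 2 * (a * b) ≤ n * G + S := by
    have h1 : (2 * (a * b)) ^ 2 ≤ (n * G + S) ^ 2 := by
      have h2 : a ^ 2 * b ^ 2 ≤ G * (n * S) := mul_le_mul ha hb (sq_nonneg b) hG
      nlinarith [sq_nonneg (n * G - S)]
    exact le_of_abs_le (abs_le_of_sq_le_sq h1 (by positivity))
  nlinarith

theorem VAR_path (w : Lt d → ℂ) (x0 : Lt d) : ∀ (n : ℕ) (x : Lt d), (∀ j, x j ≤ x0 j) →
    ∑ j, (x0 j - x j) = (n : ℤ) →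
    ‖w x - w x0‖ ^ 2 ≤
      n * ∑ z ∈ Fintype.piFinset (fun j => Finset.Icc (x j) (x0 j)), VAR_g w z := by
  intro n
  induction n with
  | zero =>
    intro x hx hs
    have hxx : x = x0 := by
      funext j
      have h1 := (Finset.sum_eq_zero_iff_of_nonneg
        (fun j _ => sub_nonneg.mpr (hx j))).mp (by simpa using hs) j (Finset.mem_univ j)
      omega
    rw [hxx]
    simp
  | succ n ih =>
    intro x hx hs
    obtain ⟨j, hj⟩ : ∃ j, x j < x0 j := by
      by_contra hcon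
      push Not at hcon
      have h0 : ∑ j, (x0 j - x j) = 0 := Finset.sum_eq_zero fun j _ => by
        have := hx j
        have := hcon j
        omega
      rw [h0] at hs
      push_cast at hs
      omega
    have hval : ∀ k, (x + Pi.single j 1 : Lt d) k = if k = j then x k + 1 else x k := by
      intro k
      rw [Pi.add_apply, Pi.single_apply]
      split_ifs <;> simp
    have hx' : ∀ k, (x + Pi.single j 1 : Lt d) k ≤ x0 k := by
      intro k
      rw [hval]
      split_ifs with hk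
      · subst hk; omega
      · exact hx k
    have hs' : ∑ k, (x0 k - (x + Pi.single j 1 : Lt d) k) = (n : ℤ) := by
      have h0 : ∑ k, (x0 k - (x + Pi.single j (1 : ℤ) : Lt d) k) =
          ∑ k, (x0 k - x k) - ∑ k, (Pi.single j (1 : ℤ) : Lt d) k := by
        rw [← Finset.sum_sub_distrib]
        exact Finset.sum_congr rfl fun k _ => by rw [Pi.add_apply]; ring
      rw [h0, hs, Finset.sum_pi_single']
      simp
    have h1 := ih (x + Pi.single j 1) hx' hs'
    have ha : ‖w x - w (x + Pi.single j 1)‖ ^ 2 ≤ VAR_g w x := by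
      rw [norm_sub_rev]
      exact Finset.single_le_sum (f := fun i => ‖w (x + Pi.single i 1) - w x‖ ^ 2)
        (fun i _ => by positivity) (Finset.mem_univ j)
    have hS : 0 ≤ ∑ z ∈ Fintype.piFinset
        (fun k => Finset.Icc ((x + Pi.single j 1 : Lt d) k) (x0 k)), VAR_g w z :=
      Finset.sum_nonneg fun z _ => VAR_g_nonneg w z
    have h2 := VAR_alg ha h1 (Nat.cast_nonneg n) hS
    have h3 : ‖w x - w x0‖ ≤
        ‖w x - w (x + Pi.single j 1)‖ + ‖w (x + Pi.single j 1) - w x0‖ :=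
      norm_sub_le_norm_sub_add_norm_sub _ _ _
    have h4 : ‖w x - w x0‖ ^ 2 ≤
        (‖w x - w (x + Pi.single j 1)‖ + ‖w (x + Pi.single j 1) - w x0‖) ^ 2 := by
      gcongr
    have h5 : VAR_g w x + ∑ z ∈ Fintype.piFinset
        (fun k => Finset.Icc ((x + Pi.single j 1 : Lt d) k) (x0 k)), VAR_g w z ≤
        ∑ z ∈ Fintype.piFinset (fun k => Finset.Icc (x k) (x0 k)), VAR_g w z := by
      have hnm : x ∉ Fintype.piFinset
          (fun k => Finset.Icc ((x + Pi.single j 1 : Lt d) k) (x0 k)) := by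
        intro hmem
        have := Finset.mem_Icc.mp (Fintype.mem_piFinset.mp hmem j)
        rw [hval] at this
        simp at this
      rw [← Finset.sum_insert hnm]
      refine Finset.sum_le_sum_of_subset_of_nonneg ?_ (fun z _ _ => VAR_g_nonneg w z)
      intro z hz
      rcases Finset.mem_insert.mp hz with rfl | hz
      · exact Fintype.mem_piFinset.mpr fun k => Finset.mem_Icc.mpr ⟨le_rfl, hx k⟩
      · refine Fintype.mem_piFinset.mpr fun k => Finset.mem_Icc.mpr ?_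
        have := Finset.mem_Icc.mp (Fintype.mem_piFinset.mp hz k)
        rw [hval] at this
        refine ⟨?_, this.2⟩
        have h6 := this.1
        split_ifs at h6 <;> omega
    have hn : (0 : ℝ) ≤ (n : ℝ) + 1 := by positivity
    have h7 := mul_le_mul_of_nonneg_left h5 hn
    push_cast
    linarith

theorem VAR_g_zero {M : ℕ} (v : box d M → ℂ) {z : Lt d} (hz : z ∉ box d (M + 1)) :
    VAR_g (ext v) z = 0 := by
  obtain ⟨k, hk⟩ : ∃ k, ¬ (-((M : ℤ) + 1) ≤ z k ∧ z k ≤ (M : ℤ) + 1) := by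
    by_contra hcon
    push Not at hcon
    refine hz (Fintype.mem_piFinset.mpr fun k => Finset.mem_Icc.mpr ?_)
    push_cast
    exact ⟨(hcon k).1, (hcon k).2⟩
  have h0 : ∀ x : Lt d, (x k = z k ∨ x k = z k + 1) → ext v x = 0 := by
    intro x hx
    have : x ∉ box d M := by
      intro hmem
      have h2 := Finset.mem_Icc.mp (Fintype.mem_piFinset.mp hmem k)
      apply hk
      omega
    rw [ext, dif_neg this]
  refine Finset.sum_eq_zero fun i _ => ?_
  rw [h0 z (Or.inl rfl), h0 (z + Pi.single i 1) ?_, sub_zero, norm_zero]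
  · norm_num
  · rw [Pi.add_apply, Pi.single_apply]
    split_ifs
    · right; rfl
    · left; rw [add_zero]

theorem VAR_sum_box {M : ℕ} (v : box d M → ℂ) (F : Finset (Lt d)) (hF : box d M ⊆ F)
    {E : Type*} [AddCommMonoid E] (h : ℂ → Lt d → E) (h0 : ∀ x, h 0 x = 0) :
    ∑ x : box d M, h (v x) x = ∑ x ∈ F, h (ext v x) x := by
  have h1 : ∑ x ∈ F, h (ext v x) x = ∑ x ∈ box d M, h (ext v x) x := by
    symm
    refine Finset.sum_subset hF fun x _ hx => ?_
    rw [ext, dif_neg hx, h0]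
  rw [h1, ← Finset.sum_coe_sort (box d M)]
  refine Finset.sum_congr rfl fun x _ => ?_
  have : ext v (x : Lt d) = v x := by
    rw [ext, dif_pos x.2]
  rw [this]

theorem VAR_point (hs : Spl φ ψ) {m M : ℕ} (hm : 1 ≤ m) (v : box d M → ℂ) (y : Sp d) :
    ∑ x : box d M, ‖v x‖ ^ 2 * wgt φ m (x : Lt d) y - ‖itp φ m v y‖ ^ 2 ≤
    2 * d * ∑ z ∈ box d (M + 1), VAR_g (ext v) z * (VAR_S m z).indicator (fun _ => (1 : ℝ)) y := by
  classical
  have hm0 : (0 : ℝ) < m := by exact_mod_cast hm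
  set x0 : Lt d := fun j => ⌊(m : ℝ) * y j⌋ with hx0
  set Q : Finset (Lt d) := Fintype.piFinset (fun j => Finset.Icc (x0 j - 3) (x0 j)) with hQ
  set w : Lt d → ℂ := ext v with hw
  have hFQ : Q ⊆ box d M ∪ Q := Finset.subset_union_right
  have hFB : box d M ⊆ box d M ∪ Q := Finset.subset_union_left
  have hone : ∑ x ∈ box d M ∪ Q, wgt φ m x y = 1 := by
    refine sum_wgt_eq_one hs m y _ fun x hx => hFQ ?_
    exact Fintype.mem_piFinset.mpr fun j => Finset.mem_Icc.mpr (hx j)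
  have e1 : ∑ x : box d M, ‖v x‖ ^ 2 * wgt φ m (x : Lt d) y =
      ∑ x ∈ box d M ∪ Q, ‖w x‖ ^ 2 * wgt φ m x y :=
    VAR_sum_box v _ hFB (fun c x => ‖c‖ ^ 2 * wgt φ m x y) (fun x => by simp)
  have e2 : itp φ m v y = ∑ x ∈ box d M ∪ Q, w x * (wgt φ m x y : ℂ) :=
    VAR_sum_box v _ hFB (fun c x => c * (wgt φ m x y : ℂ)) (fun x => by simp)
  rw [e1, e2]
  refine (VAR_cplx _ (fun x => wgt φ m x y) w hone (w x0)).trans ?_
  have hgQ : ∑ z ∈ Q, VAR_g w z ≤
      ∑ z ∈ box d (M + 1), VAR_g w z * (VAR_S m z).indicator (fun _ => (1 : ℝ)) y := by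
    have h1 : ∑ z ∈ Q, VAR_g w z =
        ∑ z ∈ Q, VAR_g w z * (VAR_S m z).indicator (fun _ => (1 : ℝ)) y := by
      refine Finset.sum_congr rfl fun z hz => ?_
      have hmem : y ∈ VAR_S m z := by
        rw [VAR_S, Set.mem_univ_pi]
        intro j
        have h2 := Finset.mem_Icc.mp (Fintype.mem_piFinset.mp hz j)
        have h3 : (z j : ℝ) ≤ (m : ℝ) * y j := by
          have : z j ≤ ⌊(m : ℝ) * y j⌋ := h2.2
          exact Int.le_floor.mp this
        have h4 : (m : ℝ) * y j < (z j : ℝ) + 4 := by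
          have h5 : ⌊(m : ℝ) * y j⌋ ≤ z j + 3 := by
            have := h2.1
            simp only [hx0] at this
            omega
          have h6 := Int.lt_floor_add_one ((m : ℝ) * y j)
          have h7 : ((⌊(m : ℝ) * y j⌋ : ℤ) : ℝ) ≤ ((z j + 3 : ℤ) : ℝ) := by exact_mod_cast h5
          push_cast at h7
          linarith
        refine ⟨?_, ?_⟩
        · rw [div_le_iff₀ hm0]; linarith
        · rw [lt_div_iff₀ hm0]; linarith
      rw [Set.indicator_of_mem hmem, mul_one]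
    rw [h1]
    have h8 : ∑ z ∈ Q, VAR_g w z * (VAR_S m z).indicator (fun _ => (1 : ℝ)) y =
        ∑ z ∈ Q ∩ box d (M + 1), VAR_g w z * (VAR_S m z).indicator (fun _ => (1 : ℝ)) y := by
      symm
      refine Finset.sum_subset Finset.inter_subset_left fun z hz hz2 => ?_
      have : z ∉ box d (M + 1) := fun h => hz2 (Finset.mem_inter.mpr ⟨hz, h⟩)
      rw [hw, VAR_g_zero v this, zero_mul]
    rw [h8]
    refine Finset.sum_le_sum_of_subset_of_nonneg Finset.inter_subset_right fun z _ _ => ?_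
    exact mul_nonneg (VAR_g_nonneg w z) (Set.indicator_nonneg (fun _ _ => zero_le_one) _)
  have hQ0 : 0 ≤ ∑ z ∈ Q, VAR_g w z := Finset.sum_nonneg fun z _ => VAR_g_nonneg w z
  have hterm : ∀ x ∈ box d M ∪ Q, ‖w x - w x0‖ ^ 2 * wgt φ m x y ≤
      (2 * d * ∑ z ∈ Q, VAR_g w z) * wgt φ m x y := by
    intro x _
    by_cases h0 : wgt φ m x y = 0
    · rw [h0, mul_zero, mul_zero]
    · refine mul_le_mul_of_nonneg_right ?_ (wgt_nonneg hs m x y)
      have hb : ∀ j, x0 j - 2 ≤ x j ∧ x j ≤ x0 j := by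
        intro j
        by_contra hcon
        apply h0
        by_cases h3 : x j = x0 j - 3
        · rw [wgt]
          refine Finset.prod_eq_zero (Finset.mem_univ j) (hs.suppφ _ (Or.inr ?_))
          have h4 : ((⌊(m : ℝ) * y j⌋ : ℤ) : ℝ) ≤ (m : ℝ) * y j := Int.floor_le _
          have h5 : (x j : ℝ) = ((⌊(m : ℝ) * y j⌋ : ℤ) : ℝ) - 3 := by
            rw [h3]; push_cast; rfl
          rw [h5]
          linarith
        · refine wgt_eq_zero hs m x y ⟨j, ?_⟩
          have h6 : x0 j = ⌊(m : ℝ) * y j⌋ := rfl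
          rw [← h6]
          omega
      have hle : ∀ j, x j ≤ x0 j := fun j => (hb j).2
      have hsum0 : 0 ≤ ∑ j, (x0 j - x j) :=
        Finset.sum_nonneg fun j _ => sub_nonneg.mpr (hle j)
      have hpath := VAR_path w x0 (∑ j, (x0 j - x j)).toNat x hle (Int.toNat_of_nonneg hsum0).symm
      have hn2 : (((∑ j, (x0 j - x j)).toNat : ℕ) : ℝ) ≤ 2 * d := by
        have h7 : ∑ j, (x0 j - x j) ≤ ∑ _j : Fin d, (2 : ℤ) :=
          Finset.sum_le_sum fun j _ => by have := (hb j).1; omega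
        have h8 : ((∑ j, (x0 j - x j)).toNat : ℤ) ≤ 2 * d := by
          rw [Int.toNat_of_nonneg hsum0]
          refine h7.trans ?_
          simp [mul_comm]
        exact_mod_cast h8
      have hsub : ∑ z ∈ Fintype.piFinset (fun j => Finset.Icc (x j) (x0 j)), VAR_g w z ≤
          ∑ z ∈ Q, VAR_g w z := by
        refine Finset.sum_le_sum_of_subset_of_nonneg ?_ (fun z _ _ => VAR_g_nonneg w z)
        intro z hz
        refine Fintype.mem_piFinset.mpr fun j => Finset.mem_Icc.mpr ?_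
        have h9 := Finset.mem_Icc.mp (Fintype.mem_piFinset.mp hz j)
        have h10 := hb j
        exact ⟨by omega, h9.2⟩
      refine hpath.trans ?_
      exact mul_le_mul hn2 hsub (Finset.sum_nonneg fun z _ => VAR_g_nonneg w z) (by positivity)
  refine (Finset.sum_le_sum hterm).trans ?_
  rw [← Finset.mul_sum, hone, mul_one]
  exact mul_le_mul_of_nonneg_left hgQ (by positivity)

theorem VAR_vol {m : ℕ} (hm : 1 ≤ m) (z : Lt d) :
    Integrable ((VAR_S m z).indicator (fun _ => (1 : ℝ))) ∧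
      ∫ y, (VAR_S m z).indicator (fun _ => (1 : ℝ)) y = 4 ^ d / (m : ℝ) ^ d := by
  have hm0 : (0 : ℝ) < m := by exact_mod_cast hm
  have hmeas : MeasurableSet (VAR_S m z) :=
    MeasurableSet.univ_pi fun j => measurableSet_Ico
  have hle : (fun j => (z j : ℝ) / m) ≤ (fun j => ((z j : ℝ) + 4) / m) := by
    intro j
    show (z j : ℝ) / m ≤ ((z j : ℝ) + 4) / m
    gcongr
    linarith
  have hv : (volume (VAR_S m z)).toReal = 4 ^ d / (m : ℝ) ^ d := by
    rw [VAR_S, Real.volume_pi_Ico_toReal hle]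
    have : ∀ j, ((z j : ℝ) + 4) / m - (z j : ℝ) / m = 4 / m := fun j => by ring
    rw [Finset.prod_congr rfl fun j _ => this j]
    rw [Finset.prod_const, Finset.card_univ, Fintype.card_fin, div_pow]
  have hfin : volume (VAR_S m z) ≠ ⊤ := by
    rw [VAR_S, Real.volume_pi_Ico]
    exact ENNReal.prod_ne_top fun j _ => ENNReal.ofReal_ne_top
  refine ⟨?_, ?_⟩
  · rw [integrable_indicator_iff hmeas]
    exact integrableOn_const hfin
  · rw [integral_indicator hmeas, setIntegral_const, smul_eq_mul, mul_one, Measure.real, hv]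

theorem var_le (hs : Spl φ ψ) {m : ℕ} (hm : 1 ≤ m) {M : ℕ} (v : box d M → ℂ) {V : Sp d → ℝ}
    (hV : Measurable V) (h0 : ∀ y, 0 ≤ V y) {B : ℝ} (hB : ∀ y, V y ≤ B) :
    (∑ x : box d M, potW φ m V x * ‖v x‖ ^ 2) - pot V (itp φ m v) ≤
      B * (2 * d * 4 ^ d / (m : ℝ) ^ d) * latKin M 0 (ext v) := by
  have hB0 : 0 ≤ B := (h0 0).trans (hB 0)
  have hmul : ∀ f : Sp d → ℝ, (∀ y, 0 ≤ f y) → Integrable f → Integrable (fun y => V y * f y) := by
    intro f hf0 hf
    refine (hf.const_mul B).mono' (hV.aestronglyMeasurable.mul hf.aestronglyMeasurable) ?_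
    refine Filter.Eventually.of_forall fun y => ?_
    rw [Real.norm_of_nonneg (mul_nonneg (h0 y) (hf0 y))]
    exact mul_le_mul_of_nonneg_right (hB y) (hf0 y)
  have hi1 : Integrable (fun y => ∑ x : box d M, ‖v x‖ ^ 2 * wgt φ m (x : Lt d) y) :=
    integrable_finsetSum _ fun x _ => (integrable_wgt hs hm _).const_mul _
  have hcont : Continuous (itp φ m v) := (itp_mem hs hm v).1.continuous
  have hi2 : Integrable (fun y => ‖itp φ m v y‖ ^ 2) := by
    refine hi1.mono' (hcont.norm.pow 2).aestronglyMeasurable ?_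
    refine Filter.Eventually.of_forall fun y => ?_
    rw [Real.norm_of_nonneg (by positivity)]
    exact norm_itp_sq_le hs m v y
  have hVar0 : ∀ y, 0 ≤ ∑ x : box d M, ‖v x‖ ^ 2 * wgt φ m (x : Lt d) y - ‖itp φ m v y‖ ^ 2 :=
    fun y => sub_nonneg.mpr (norm_itp_sq_le hs m v y)
  have hL : (∑ x : box d M, potW φ m V x * ‖v x‖ ^ 2) - pot V (itp φ m v) =
      ∫ y, V y * (∑ x : box d M, ‖v x‖ ^ 2 * wgt φ m (x : Lt d) y - ‖itp φ m v y‖ ^ 2) := by
    have e1 : ∑ x : box d M, potW φ m V x * ‖v x‖ ^ 2 =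
        ∫ y, V y * ∑ x : box d M, ‖v x‖ ^ 2 * wgt φ m (x : Lt d) y := by
      have e2 : ∀ x : box d M, potW φ m V x * ‖v x‖ ^ 2 =
          ∫ y, V y * (‖v x‖ ^ 2 * wgt φ m (x : Lt d) y) := by
        intro x
        rw [potW, ← integral_mul_const]
        exact integral_congr_ae (Filter.Eventually.of_forall fun y => by ring)
      rw [Finset.sum_congr rfl fun x _ => e2 x, ← integral_finsetSum]
      · exact integral_congr_ae (Filter.Eventually.of_forall fun y =>
          (Finset.mul_sum _ _ _).symm)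
      · intro x _
        exact hmul _ (fun y => mul_nonneg (by positivity) (wgt_nonneg hs m _ y))
          ((integrable_wgt hs hm _).const_mul _)
    rw [e1, pot, ← integral_sub]
    · exact integral_congr_ae (Filter.Eventually.of_forall fun y => by ring)
    · exact hmul _ (fun y => Finset.sum_nonneg fun x _ =>
        mul_nonneg (by positivity) (wgt_nonneg hs m _ y)) hi1
    · exact hmul _ (fun y => by positivity) hi2
  rw [hL]
  have hstep : ∀ y, V y * (∑ x : box d M, ‖v x‖ ^ 2 * wgt φ m (x : Lt d) y -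
      ‖itp φ m v y‖ ^ 2) ≤ ∑ z ∈ box d (M + 1),
        (B * (2 * d) * VAR_g (ext v) z) * (VAR_S m z).indicator (fun _ => (1 : ℝ)) y := by
    intro y
    have h1 := VAR_point hs hm v y
    have h2 := hVar0 y
    calc V y * (∑ x : box d M, ‖v x‖ ^ 2 * wgt φ m (x : Lt d) y - ‖itp φ m v y‖ ^ 2)
        ≤ B * (∑ x : box d M, ‖v x‖ ^ 2 * wgt φ m (x : Lt d) y - ‖itp φ m v y‖ ^ 2) :=
          mul_le_mul_of_nonneg_right (hB y) h2
      _ ≤ B * (2 * d * ∑ z ∈ box d (M + 1),
          VAR_g (ext v) z * (VAR_S m z).indicator (fun _ => (1 : ℝ)) y) :=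
          mul_le_mul_of_nonneg_left h1 hB0
      _ = _ := by
          rw [← mul_assoc, Finset.mul_sum]
          exact Finset.sum_congr rfl fun z _ => by ring
  have hint : Integrable (fun y => ∑ z ∈ box d (M + 1),
      (B * (2 * d) * VAR_g (ext v) z) * (VAR_S m z).indicator (fun _ => (1 : ℝ)) y) :=
    integrable_finsetSum _ fun z _ => (VAR_vol hm z).1.const_mul _
  refine (integral_mono (hmul _ hVar0 (hi1.sub hi2)) hint hstep).trans ?_
  rw [integral_finsetSum _ fun z _ => (VAR_vol hm z).1.const_mul _]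
  have e3 : ∀ z ∈ box d (M + 1), ∫ y, (B * (2 * d) * VAR_g (ext v) z) *
      (VAR_S m z).indicator (fun _ => (1 : ℝ)) y =
      (B * (2 * d * 4 ^ d / (m : ℝ) ^ d)) * VAR_g (ext v) z := by
    intro z _
    rw [integral_const_mul, (VAR_vol hm z).2]
    ring
  rw [Finset.sum_congr rfl e3, ← Finset.mul_sum]
  have e4 : ∑ z ∈ box d (M + 1), VAR_g (ext v) z = latKin M 0 (ext v) := by
    rw [latKin, Finset.sum_comm]
    refine Finset.sum_congr rfl fun z _ => ?_
    refine Finset.sum_congr rfl fun i _ => ?_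
    simp
  rw [e4]

end Pool.Agent.H2.LTM
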